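import Pool.Agent.Lib.MP_342291_lc.E.Basic

/-!
Block C: a ground term is not similar to two of its subterms in different directions when the
exceptional words are long.
-/

namespace Pool.Agent.Lib.MP_342291_lc.E

namespace CB

/-- Concatenation of the words `a` (letter `true`) and `b` (letter `false`). -/
def enc (a b : List ℕ) : List Bool → List ℕ
  | [] => []
  | g :: w => (bif g then a else b) ++ enc a b w

theorem enc_concat (a b : List ℕ) (w : List Bool) (g : Bool) :
    enc a b (w ++ [g]) = enc a b w ++ (bif g then a else b) := by
  induction w with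
  | nil => simp [enc]
  | cons c w ih => simp [enc, ih]

theorem enc_len (a b : List ℕ) (n : ℕ) (ha : a.length ≤ n) (hb : b.length ≤ n) (w : List Bool) :
    (enc a b w).length ≤ w.length * n := by
  induction w with
  | nil => simp [enc]
  | cons c w ih =>
    have : (bif c then a else b).length ≤ n := by cases c <;> simpa
    simp only [enc, List.length_append, List.length_cons, Nat.succ_mul]
    omega

theorem enc_inj (i j : ℕ) (α β : List ℕ) (hij : i ≠ j) (w w' : List Bool) (γ : List ℕ)
    (hl : w.length = w'.length) (h : enc (i :: α) (j :: β) w <+: γ)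
    (h' : enc (i :: α) (j :: β) w' <+: γ) : w = w' := by
  induction w generalizing w' γ with
  | nil =>
    cases w' with
    | nil => rfl
    | cons c w' => simp at hl
  | cons c w ih =>
    cases w' with
    | nil => simp at hl
    | cons c' w' =>
      have hc : c = c' := by
        obtain ⟨r, hr⟩ := h
        obtain ⟨r', hr'⟩ := h'
        have h2 := hr.trans hr'.symm
        cases c <;> cases c' <;> simp [enc] at h2
        · rfl
        · exact absurd h2.1.symm hij
        · exact absurd h2.1 hij
        · rfl
      subst hc
      obtain ⟨r, hr⟩ := h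
      subst hr
      simp only [enc, List.append_assoc] at h'
      rw [List.prefix_append_right_inj] at h'
      rw [ih w' _ (by simpa using hl) (List.prefix_append _ _) h']

end CB

open CB in
theorem cStmt : CStmt := by
  classical
  intro F ar B u x y i j α β n hij hα hβ hx hy hxu hyu hB
  set a : List ℕ := i :: α with ha
  set b : List ℕ := j :: β with hb
  have hal : a.length ≤ n := by simp only [ha, List.length_cons]; omega
  have hbl : b.length ≤ n := by simp only [hb, List.length_cons]; omega
  have hlab : ∀ (g : Bool) (ρ : List ℕ), (∀ γ ∈ B, ¬ γ <+: ρ) →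
      lab u ((bif g then a else b) ++ ρ) = lab u ρ := by
    intro g ρ hρ
    cases g
    · simp only [cond_false]
      rw [lab_append_of hy]
      exact hyu ρ fun γ hγ => hρ γ (by simpa using hγ)
    · simp only [cond_true]
      rw [lab_append_of hx]
      exact hxu ρ fun γ hγ => hρ γ (by simpa using hγ)
  have hshort : ∀ w : List Bool, w.length ≤ B.card + 1 → ∀ γ ∈ B, ¬ γ <+: enc a b w := by
    intro w hw γ hγ h
    have h1 := h.length_le
    have h2 := enc_len a b n hal hbl w
    have h3 := hB γ hγ
    have h4 : w.length * n ≤ (B.card + 1) * n := Nat.mul_le_mul_right n hw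
    omega
  have hdom : ∀ w : List Bool, w.length ≤ B.card + 1 → ∃ z, sub u (enc a b w) = some z := by
    intro w
    induction w with
    | nil => exact fun _ => ⟨u, by simp [enc]⟩
    | cons c w ih =>
      intro hw
      have hw' : w.length ≤ B.card + 1 := by simp only [List.length_cons] at hw; omega
      obtain ⟨z, hz⟩ := ih hw'
      obtain ⟨z', hz', -⟩ := exists_sub_of_lab (hlab c _ (hshort w hw')) hz
      exact ⟨z', hz'⟩
  let f : List ℕ → ℕ := fun γ =>
    if h : ∃ w : List Bool, w.length = B.card + 1 ∧ enc a b w <+: γ then h.choose.count true
    else 0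
  obtain ⟨r, hr, hrB⟩ : ∃ r ∈ Finset.range (B.card + 1), r ∉ B.image f := by
    by_contra hcon
    push Not at hcon
    have h1 : Finset.range (B.card + 1) ⊆ B.image f := hcon
    have h2 := Finset.card_le_card h1
    have h3 := Finset.card_image_le (s := B) (f := f)
    rw [Finset.card_range] at h2
    omega
  rw [Finset.mem_range] at hr
  have hinc : ∀ w : List Bool, w.length = B.card + 1 → w.count true = r →
      ∀ γ ∈ B, ¬ enc a b w <+: γ := by
    intro w hw hc γ hγ h
    have hex : ∃ w : List Bool, w.length = B.card + 1 ∧ enc a b w <+: γ := ⟨w, hw, h⟩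
    have h1 : hex.choose = w :=
      enc_inj i j α β hij _ _ γ (hex.choose_spec.1.trans hw.symm) hex.choose_spec.2 h
    refine hrB (Finset.mem_image.2 ⟨γ, hγ, ?_⟩)
    simp only [f, dif_pos hex, h1, hc]
  have hstep : ∀ m : ℕ, ∃ (w : List Bool) (z : GT F ar), w.length = B.card + 1 ∧
      w.count true = r ∧ sub u (enc a b w) = some z ∧ m ≤ size z := by
    intro m
    induction m with
    | zero =>
      have hw : (List.replicate r true ++ List.replicate (B.card + 1 - r) false).length
          = B.card + 1 := by simp; omega
      obtain ⟨z, hz⟩ := hdom _ hw.le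
      exact ⟨_, z, hw, by simp [List.count_replicate], hz, Nat.zero_le _⟩
    | succ m ih =>
      obtain ⟨w, z, hw, hc, hz, hm⟩ := ih
      rcases List.eq_nil_or_concat' w with rfl | ⟨w', g, rfl⟩
      · simp at hw
      · have hw2 : (g :: w').length = B.card + 1 := by simpa using hw
        have hc2 : (g :: w').count true = r := by
          rw [← hc]; cases g <;> simp [List.count_append]
        obtain ⟨z', hz'⟩ := hdom _ hw2.le
        refine ⟨g :: w', z', hw2, hc2, hz', ?_⟩
        have h1 : sub u ((bif g then a else b) ++ enc a b (w' ++ [g]))
            = sub u (enc a b (w' ++ [g])) := by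
          refine sub_eq_of_lab fun ρ => ?_
          rw [List.append_assoc]
          refine hlab g _ fun γ hγ h => ?_
          rcases List.prefix_or_prefix_of_prefix h (List.prefix_append _ ρ) with h3 | h3
          · exact hshort _ hw.le γ hγ h3
          · exact hinc _ hw hc γ hγ h3
        rw [hz, enc_concat, ← List.append_assoc] at h1
        have h2 : sub z' (bif g then a else b) = some z := by
          rw [← h1]
          exact (sub_append_of hz' _).symm
        have h3 := size_sub_le h2
        have h4 : 0 < (bif g then a else b).length := by cases g <;> simp [ha, hb]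
        omega
  obtain ⟨w, z, -, -, hz, hm⟩ := hstep (size u + 1)
  have := size_sub_le hz
  omega

end Pool.Agent.Lib.MP_342291_lc.E
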