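import Pool.Agent.Lib.MP_342291_lc.E.Defs

/-!
Block G: walks in a finite deterministic graph.
-/

namespace Pool.Agent.Lib.MP_342291_lc.E

namespace Gr

variable {K : Type} {δ : K → ℕ → Option K}

theorem walk_append (Γ : K) (p q : List ℕ) :
    walk δ Γ (p ++ q) = (walk δ Γ p).bind fun Γ' => walk δ Γ' q := by
  induction p generalizing Γ with
  | nil => rfl
  | cons i p ih =>
    simp only [List.cons_append, walk]
    cases δ Γ i with
    | none => rfl
    | some u => simpa using ih u

theorem walk_app {Γ u v : K} {p q : List ℕ} (h : walk δ Γ p = some u) (h' : walk δ u q = some v) :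
    walk δ Γ (p ++ q) = some v := by
  rw [walk_append, h]; exact h'

theorem walk_split {Γ v : K} {p q : List ℕ} (h : walk δ Γ (p ++ q) = some v) :
    ∃ u, walk δ Γ p = some u ∧ walk δ u q = some v := by
  rw [walk_append] at h
  cases hu : walk δ Γ p with
  | none => simp [hu] at h
  | some u => exact ⟨u, rfl, by simpa [hu] using h⟩

theorem walk_cons {Γ v : K} {i : ℕ} {p : List ℕ} (h : walk δ Γ (i :: p) = some v) :
    ∃ u, δ Γ i = some u ∧ walk δ u p = some v := by
  simp only [walk] at h
  cases hu : δ Γ i with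
  | none => simp [hu] at h
  | some u => exact ⟨u, rfl, by simpa [hu] using h⟩

theorem walk_cons_of {Γ u v : K} {i : ℕ} {p : List ℕ} (h : δ Γ i = some u)
    (h' : walk δ u p = some v) : walk δ Γ (i :: p) = some v := by
  simp only [walk, h]; exact h'

/-- A long walk repeats a vertex. -/
theorem loop [Fintype K] {Γ w : K} {p : List ℕ} (h : walk δ Γ p = some w)
    (hl : Fintype.card K ≤ p.length) :
    ∃ a b c v, p = a ++ b ++ c ∧ b ≠ [] ∧ walk δ Γ a = some v ∧ walk δ v b = some v ∧
      walk δ v c = some w := by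
  have hx : ∀ m : ℕ, ∃ u, walk δ Γ (p.take m) = some u := fun m => by
    have h' : walk δ Γ (p.take m ++ p.drop m) = some w := by rw [List.take_append_drop]; exact h
    obtain ⟨u, hu, -⟩ := walk_split h'
    exact ⟨u, hu⟩
  choose f hf using hx
  have key : ∀ i j : ℕ, i < j → j ≤ p.length → f i = f j →
      ∃ a b c v, p = a ++ b ++ c ∧ b ≠ [] ∧ walk δ Γ a = some v ∧ walk δ v b = some v ∧
        walk δ v c = some w := by
    intro i j hij hj he
    have e1 : p.take i ++ (p.take j).drop i = p.take j := by
      have := List.take_append_drop i (p.take j)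
      rwa [List.take_take, min_eq_left hij.le] at this
    refine ⟨p.take i, (p.take j).drop i, p.drop j, f i, ?_, ?_, hf i, ?_, ?_⟩
    · rw [e1, List.take_append_drop]
    · intro h0
      have := congrArg List.length h0
      simp only [List.length_drop, List.length_take, List.length_nil] at this
      omega
    · have h1 := hf j
      rw [← e1, walk_append, hf i] at h1
      rw [he]; rw [he] at h1; exact h1
    · have h' : walk δ Γ (p.take j ++ p.drop j) = some w := by
        rw [List.take_append_drop]; exact h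
      rw [walk_append, hf j] at h'
      rw [he]; exact h'
  obtain ⟨i, j, hne, he⟩ := Fintype.exists_ne_map_eq_of_card_lt
    (fun m : Fin (p.length + 1) => f m) (by simp; omega)
  rcases lt_or_gt_of_ne hne with hlt | hlt
  · exact key i j hlt (by omega) he
  · exact key j i hlt (by omega) he.symm

/-- Every walk can be replaced by a short one. -/
theorem short [Fintype K] {Γ w : K} : ∀ (m : ℕ) (p : List ℕ), p.length ≤ m →
    walk δ Γ p = some w → ∃ q, walk δ Γ q = some w ∧ q.length < Fintype.card K := by
  intro m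
  induction m with
  | zero =>
    intro p hp h
    refine ⟨p, h, ?_⟩
    have : 0 < Fintype.card K := Fintype.card_pos_iff.2 ⟨Γ⟩
    omega
  | succ m ih =>
    intro p hp h
    by_cases hl : p.length < Fintype.card K
    · exact ⟨p, h, hl⟩
    obtain ⟨a, b, c, v, rfl, hb, h1, -, h3⟩ := loop h (by omega)
    refine ih (a ++ c) ?_ (walk_app h1 h3)
    have : 0 < b.length := List.length_pos_iff.2 hb
    simp only [List.length_append] at hp ⊢
    omega

/-- Two walks to a vertex from a vertex of the same component are comparable. -/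
theorem comp {Γ0 : K}
    (hU : ∀ Γ i j α β, walk δ Γ (i :: α) = some Γ → walk δ Γ (j :: β) = some Γ → i = j) :
    ∀ (a b c : List ℕ) (v : K), walk δ Γ0 c = some v → walk δ v a = some Γ0 →
      walk δ v b = some Γ0 → a <+: b ∨ b <+: a := by
  intro a
  induction a with
  | nil => intro b c v _ _ _; exact Or.inl (List.nil_prefix)
  | cons i a ih =>
    intro b c v hc ha hb
    cases b with
    | nil => exact Or.inr List.nil_prefix
    | cons j b =>
      obtain rfl : i = j := hU v i j (a ++ c) (b ++ c) (walk_app (p := i :: a) ha hc)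
        (walk_app (p := j :: b) hb hc)
      obtain ⟨u, hu, ha'⟩ := walk_cons ha
      obtain ⟨u', hu', hb'⟩ := walk_cons hb
      obtain rfl : u = u' := Option.some.inj (hu.symm.trans hu')
      have hc' : walk δ Γ0 (c ++ [i]) = some u := walk_app hc (walk_cons_of hu rfl)
      rcases ih b (c ++ [i]) u hc' ha' hb' with h | h
      · exact Or.inl (List.cons_prefix_cons.2 ⟨rfl, h⟩)
      · exact Or.inr (List.cons_prefix_cons.2 ⟨rfl, h⟩)

end Gr

open Gr in
theorem gStmt : GStmt := by
  intro K _ δ n hn H
  classical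
  have hU : ∀ Γ i j α β, walk δ Γ (i :: α) = some Γ → walk δ Γ (j :: β) = some Γ → i = j := by
    intro Γ i j α β h1 h2
    by_contra hij
    obtain ⟨u, hu, h1'⟩ := walk_cons h1
    obtain ⟨v, hv, h2'⟩ := walk_cons h2
    obtain ⟨α', ha, hla⟩ := short _ α le_rfl h1'
    obtain ⟨β', hb, hlb⟩ := short _ β le_rfl h2'
    exact H Γ i j α' β' hij (walk_cons_of hu ha) (walk_cons_of hv hb) (by omega) (by omega)
  by_cases hc : ∃ v b, b ≠ [] ∧ walk δ v b = some v
  swap
  · left
    intro Γ p Γ' h
    by_contra hl
    obtain ⟨a, b, c, v, -, hb, -, h2, -⟩ := loop h (by omega)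
    exact hc ⟨v, b, hb, h2⟩
  right
  let Re : K → Finset K := fun v => Finset.univ.filter fun w => ∃ p, walk δ v p = some w
  have hRe : ∀ v w, w ∈ Re v ↔ ∃ p, walk δ v p = some w := fun v w => by simp [Re]
  obtain ⟨Γ0, hΓ0, hmax⟩ := Finset.exists_max_image
    (Finset.univ.filter fun v : K => ∃ b, b ≠ [] ∧ walk δ v b = some v) (fun v => (Re v).card)
    (by obtain ⟨v, hv⟩ := hc; exact ⟨v, by simpa using hv⟩)
  have hcyc : ∃ m, ∃ b : List ℕ, b.length = m ∧ b ≠ [] ∧ walk δ Γ0 b = some Γ0 := by
    obtain ⟨b, hb⟩ := (Finset.mem_filter.1 hΓ0).2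
    exact ⟨_, b, rfl, hb⟩
  obtain ⟨s, hsl, hs0, hs⟩ := Nat.find_spec hcyc
  have hmin : ∀ q : List ℕ, q ≠ [] → walk δ Γ0 q = some Γ0 → s.length ≤ q.length := by
    intro q h0 hq
    rw [hsl]
    exact Nat.find_min' hcyc ⟨q, rfl, h0, hq⟩
  have hpre : ∀ q, q <+: s → q ≠ [] → q ≠ s → walk δ Γ0 q ≠ some Γ0 := by
    intro q hq h0 hne hw
    exact hne (hq.eq_of_length_le (hmin q h0 hw))
  refine ⟨Γ0, s, hs0, ?_, ⟨rfl, ?_⟩, hs, hpre, ?_, ?_⟩
  · cases s with
    | nil => exact absurd rfl hs0
    | cons i s' =>
      obtain ⟨u, hu, h'⟩ := walk_cons hs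
      obtain ⟨q, hq, hlq⟩ := short _ s' le_rfl h'
      have := hmin (i :: q) (by simp) (walk_cons_of hu hq)
      simp only [List.length_cons] at this ⊢
      omega
  · intro q hq hne
    exact absurd (List.prefix_nil.1 hq) hne
  · intro p hp h0
    rcases comp hU s p [] Γ0 rfl hs hp with h | h
    · exact h
    · by_cases he : p = s
      · rw [he]
      · exact absurd hp (hpre p h h0 he)
  · intro Γ p hF
    by_contra hl
    obtain ⟨a, b, c, v, rfl, hb, h1, h2, h3⟩ := loop hF.1 (by omega)
    have hsub : Re Γ0 ⊆ Re v := by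
      intro w hw
      obtain ⟨q, hq⟩ := (hRe _ _).1 hw
      exact (hRe _ _).2 ⟨c ++ q, walk_app h3 hq⟩
    have hle := hmax v (Finset.mem_filter.2 ⟨Finset.mem_univ _, b, hb, h2⟩)
    have heq : Re Γ0 = Re v := Finset.eq_of_subset_of_card_le hsub hle
    have hv : v ∈ Re Γ0 := by rw [heq]; exact (hRe _ _).2 ⟨[], rfl⟩
    obtain ⟨d, hd⟩ := (hRe _ _).1 hv
    have hbl : 0 < b.length := List.length_pos_iff.2 hb
    have hcb : c <+: b ++ c := by
      rcases comp hU c (b ++ c) d v hd h3 (walk_app h2 h3) with h | h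
      · exact h
      · have := h.length_le
        simp only [List.length_append] at this
        omega
    refine hF.2 (a ++ c) ?_ ?_ (walk_app h1 h3)
    · rw [List.append_assoc]
      exact (List.prefix_append_right_inj a).2 hcb
    · intro he
      have := congrArg List.length he
      simp only [List.length_append] at this
      omega

end Pool.Agent.Lib.MP_342291_lc.E
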