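import Pool.Agent.Lib.MP_342291_lc.E.Cls0
import Pool.Agent.Lib.MP_342291_lc.E.C
import Pool.Agent.Lib.MP_342291_lc.E.G

/-!
Block Cls, second part: the base class and the window.
-/

namespace Pool.Agent.Lib.MP_342291_lc.E

namespace Cls

open Classical

variable {F : Type} {ar : F → ℕ} {ι : Type} {E : Finset ι} {P : ι → List ℕ}
variable {k D : ℕ} {t : Fin k → GT F ar}
variable {K : Type} {δ : K → ℕ → Option K} {cl : GT F ar → K} {l0 : ℕ}

/-- Powers of a word. -/
def pw (s : List ℕ) : ℕ → List ℕ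
  | 0 => []
  | x + 1 => s ++ pw s x

theorem pw_add (s : List ℕ) (x y : ℕ) : pw s (x + y) = pw s x ++ pw s y := by
  induction x with
  | zero => simp [pw]
  | succ x ih => rw [Nat.add_right_comm, pw, pw, ih, List.append_assoc]

theorem pw_succ (s : List ℕ) (x : ℕ) : pw s (x + 1) = pw s x ++ s := by
  rw [pw_add]
  simp [pw]

theorem pw_comm (s : List ℕ) (x : ℕ) : s ++ pw s x = pw s x ++ s := (pw_succ s x)

theorem pw_len (s : List ℕ) (x : ℕ) : (pw s x).length = x * s.length := by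
  induction x with
  | zero => simp [pw]
  | succ x ih => rw [pw, List.length_append, ih]; ring

theorem pw_mono (s : List ℕ) (x y : ℕ) (h : x ≤ y) : pw s x <+: pw s y := by
  obtain ⟨z, rfl⟩ := Nat.exists_eq_add_of_le h
  rw [pw_add]
  exact List.prefix_append _ _

theorem walk_pw {Γ : K} {s : List ℕ} (h : walk δ Γ s = some Γ) (x : ℕ) :
    walk δ Γ (pw s x) = some Γ := by
  induction x with
  | zero => rfl
  | succ x ih => exact Gr.walk_app h ih

theorem stop : ∀ (p : List ℕ) (Γ : K), walk δ Γ p = none →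
    ∃ q i r Γ0, p = q ++ i :: r ∧ walk δ Γ q = some Γ0 ∧ δ Γ0 i = none := by
  intro p
  induction p with
  | nil => intro Γ h; cases h
  | cons i p ih =>
    intro Γ h
    cases hδ : δ Γ i with
    | none => exact ⟨[], i, p, Γ, rfl, rfl, hδ⟩
    | some Γ1 =>
      rw [walk_cons, hδ] at h
      obtain ⟨q, j, r, Γ0, rfl, h1, h2⟩ := ih Γ1 h
      exact ⟨i :: q, j, r, Γ0, rfl, Gr.walk_cons_of hδ h1, h2⟩

/-- The last level of the windows. -/
def top (n m D : ℕ) (w : ℕ → ℕ) : ℕ := mSeq D w (m * (n ^ 2 + 3 * n + 2) + 1)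

theorem lPar_ge (n m D : ℕ) (w : ℕ → ℕ) {x : ℕ} (hx : x ≤ top n m D w) :
    n ^ 2 + 5 * n + 2 + x * n + x < lPar n m D w := by
  have h1 : x * n ≤ top n m D w * n := Nat.mul_le_mul_right _ hx
  have h2 : (top n m D w + 2) * (n + 1) = top n m D w * n + top n m D w + 2 * n + 2 := by ring
  unfold lPar
  change _ < _ + _ + (top n m D w + 2) * (n + 1)
  omega

theorem CD.one (h : CD t D E P δ cl l0) {n m : ℕ} {w : ℕ → ℕ} (hm : E.card ≤ m)
    (hl0 : l0 ≤ n ^ 2) (hL : ∀ e ∈ E, lPar n m D w ≤ (P e).length) :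
    ∀ Γ i j α β, i ≠ j → walk δ Γ (i :: α) = some Γ → walk δ Γ (j :: β) = some Γ →
      α.length ≤ 2 * n → β.length ≤ 2 * n → False := by
  intro Γ i j α β hij ha hb hα hβ
  obtain ⟨u, hu, rfl⟩ := h.surj Γ
  have h0 := lPar_ge n m D w (Nat.zero_le _)
  obtain ⟨x, hx, hx'⟩ := h.go hL (i :: α) _ _ l0 u le_rfl
    (by rw [List.length_cons]; omega) (h.has hu) ha
  obtain ⟨y, hy, hy'⟩ := h.go hL (j :: β) _ _ l0 u le_rfl
    (by rw [List.length_cons]; omega) (h.has hu) hb
  rw [List.length_cons] at hx' hy'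
  refine cStmt F ar (Bl E P (l0 + 2 * n + 1)) u x y i j α β (2 * n + 1) hij (by omega) (by omega)
    hx hy ((hx' u hu rfl).mono (by omega)) ((hy' u hu rfl).mono (by omega)) fun b hb => ?_
  have h1 := len_Bl hL hb
  have h2 : (Bl E P (l0 + 2 * n + 1)).card ≤ m * (n ^ 2 + 3 * n + 2) :=
    (card_Bl _).trans (Nat.mul_le_mul hm (by omega))
  have h3 : ((Bl E P (l0 + 2 * n + 1)).card + 1) * (2 * n + 1) ≤
      (m * (n ^ 2 + 3 * n + 2) + 1) * (2 * n + 1) := Nat.mul_le_mul_right _ (by omega)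
  unfold lPar at h1
  omega

theorem CD.fin (h : CD t D E P δ cl l0) {n m : ℕ} {w : ℕ → ℕ} {ea eb : ι → Fin k} (hD : 0 < D)
    (hm : E.card ≤ m) (hl0 : l0 ≤ n ^ 2) (hE : ∀ e ∈ E, Agr (t (ea e)) (t (eb e)) (P e))
    (hL : ∀ e ∈ E, lPar n m D w ≤ (P e).length) {Γ0 : K} (Wt : ℕ → List ℕ)
    (hW : ∀ x y, x ≤ y → Wt x <+: Wt y) (hle : ∀ x, (Wt x).length ≤ x * n)
    (hlt : ∀ x y, x < y → y ≤ top n m D w → (Wt x).length < (Wt y).length)
    (hge : ∀ x, x ≤ top n m D w → x ≤ (Wt x).length)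
    (hfirst : ∀ Γ ρ, First δ Γ0 Γ ρ → ρ.length ≤ n)
    (hdom : ∀ y, y ≤ top n m D w → ∀ a ρ, First δ Γ0 (cl (t a)) ρ →
      ∃ x, sub (t a) (ρ ++ Wt y) = some x)
    (hcyc : ∀ M N i j, M ≤ i → i < j → j ≤ N → N + 1 ≤ top n m D w →
      (∀ β ∈ Bl E P (l0 + n), Wt M <+: β → Wt (N + 1) <+: β) → ∀ u, Uu t D u → cl u = Γ0 →
      ∃ s x y w, s ≠ [] ∧ walk δ Γ0 s = some Γ0 ∧
        (∀ q, q <+: s → q ≠ [] → q ≠ s → walk δ Γ0 q ≠ some Γ0) ∧
        (∀ q, walk δ Γ0 q = some Γ0 → q ≠ [] → s <+: q) ∧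
        s ++ Wt i = Wt i ++ s ∧ s ++ Wt j = Wt j ++ s ∧ sub u (Wt i) = some x ∧
        sub u (Wt j) = some y ∧ Agr x y s ∧ sub y s = some w) :
    ∃ (M : ℕ) (Wd : ℕ → List ℕ), (∀ i, (Wd i).length ≤ (M + i) * n) ∧
      ∀ i j, i < j → j ≤ w M → PD t D n δ Γ0 cl (Wd i) (Wd j) ∧
        ∀ e ∈ E, Lg n δ Γ0 cl (Wd i) (Wd j) (t (ea e)) (t (eb e)) (P e) := by
  obtain ⟨M, hM, hM', hwin⟩ := window D w Wt hW (Bl E P (l0 + n)) (m * (n ^ 2 + 3 * n + 2))
    ((card_Bl _).trans (Nat.mul_le_mul hm (by omega)))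
  change _ ≤ top n m D w at hM'
  refine ⟨M, fun i => Wt (M + i), fun i => hle _, fun i j hij hj => ⟨?_, fun e he => ?_⟩⟩
  · refine ⟨fun a p u i x h1 h2 h3 => h.dcl u i x ⟨a, p, h1, h2⟩ h3, hfirst,
      hdom _ (by omega), hW _ _ (by omega), fun he => ?_, hM.trans ?_, hD, h.ex Γ0,
      fun a p u h1 h2 h3 => hcyc M (M + w M) _ _ (by omega) (by omega) (by omega) (by omega) hwin
        u ⟨a, p, h1, h2⟩ h3⟩
    · have := hlt (M + i) (M + j) (by omega) (by omega)
      change Wt (M + i) = Wt (M + j) at he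
      rw [he] at this
      omega
    · exact (Nat.le_add_right M i).trans (hge _ (by omega))
  · refine ⟨(h.iff _ _ (nd_root _) (nd_root _)).2
      ((rl_of_agr he (hE e he)).mono (Nat.zero_le _)), ?_, fun ρ hρ hp => ?_⟩
    · have h1 := lPar_ge n m D w (x := M + j) (by omega)
      have h2 := hL e he
      have h3 := hle (M + j)
      change n + (Wt (M + j)).length < _
      omega
    · obtain ⟨r, hr⟩ := hp
      have h1 := hfirst _ _ hρ
      have h2 : Wt (M + i) ++ r ∈ Bl E P (l0 + n) :=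
        mem_Bl.2 ⟨e, he, ρ.length, by omega, by rw [← hr, List.append_assoc, List.drop_left]⟩
      have h3 := hwin _ h2 ((hW _ _ (by omega)).trans (List.prefix_append _ _))
      rw [← hr, List.append_assoc, List.prefix_append_right_inj]
      exact (hW _ _ (by omega)).trans h3

end Cls

open Cls in
theorem clsStmt : ClsStmt := by
  intro F ar A k D m w t ι E ea eb P hA hD hm hne hE
  obtain ⟨e0, he0⟩ := hne
  obtain ⟨K, _, δ, cl, l0, hK, hl0, h⟩ := classes hA t D (ea e0) E P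
  have hn : 0 < k * (A + 1) ^ D := Nat.mul_pos (ea e0).pos (by positivity)
  generalize k * (A + 1) ^ D = n at *
  have hL : ∀ e ∈ E, lPar n m D w ≤ (P e).length := fun e he => (hE e he).2.2
  have h0 := lPar_ge n m D w (Nat.zero_le _)
  have h1 := lPar_ge n m D w le_rfl
  rcases gStmt K δ n hK (h.one hm hl0 hL) with hac | ⟨Γ0, s, hs, hsn, -, hw, hs1, hs2, hfirst⟩
  · have hP := hL e0 he0
    obtain ⟨q, i, r, Γ0, hq, hq1, hq2⟩ := stop (δ := δ) (P e0) (cl (t (ea e0))) (by
      cases hw : walk δ (cl (t (ea e0))) (P e0) with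
      | none => rfl
      | some Γ =>
        have := hac _ _ _ hw
        omega)
    have hqn := hac _ _ _ hq1
    obtain ⟨x0, hx0, hx0'⟩ := h.go hL q _ _ l0 _ le_rfl (by omega) (h.has (nd_root (ea e0))) hq1
    obtain ⟨z, hz⟩ := (hE e0 he0).2.1
    rw [hq, sub_append_of hx0] at hz
    have hlen : (P e0).length = q.length + (i :: r).length := by rw [hq, List.length_append]
    have hlt : ∀ x, x ≤ top n m D w → ((i :: r).take x).length = x := fun x hx => by
      rw [List.length_take]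
      omega
    refine ⟨K, δ, Γ0, cl, h.fin hD hm hl0 (fun e he => (hE e he).1) hL (fun x => (i :: r).take x)
      (fun x y hxy => List.take_prefix_take_left hxy) (fun x => ?_) (fun x y hxy hy => ?_)
      (fun x hx => (hlt x hx).ge) (fun Γ ρ hρ => (hac _ _ _ hρ.1).le) (fun y hy a ρ hρ => ?_)
      (fun _ _ _ _ _ _ _ _ _ u hu hc => ?_)⟩
    · exact (List.length_take_le _ _).trans (Nat.le_mul_of_pos_right _ hn)
    · rw [hlt x (by omega), hlt y hy]
      exact hxy
    · have hρn := hac _ _ _ hρ.1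
      obtain ⟨x, hx, hx'⟩ := h.go hL ρ _ _ l0 _ le_rfl (by omega) (h.has (nd_root a)) hρ.1
      obtain ⟨ν, hν, hν'⟩ := h.surj Γ0
      have hR : Rl E P (l0 + n) x x0 :=
        ((hx' ν hν hν').mono (by omega)).trans ((hx0' ν hν hν').mono (by omega)).symm
      obtain ⟨y0, hy0⟩ := exists_sub_prefix hz (List.take_prefix y _)
      obtain ⟨y1, hy1, -⟩ := exists_sub_of_lab (hR.lab hL (by rw [hlt y hy]; omega)) hy0
      exact ⟨y1, by rwa [sub_append_of hx]⟩
    · exfalso
      have hh : hd u = hd x0 := by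
        have := (hx0' u hu.nd hc).lab hL (ρ := []) (by rw [List.length_nil]; omega)
        simpa using this.symm
      obtain ⟨c, hc', -⟩ := sub_split (p := [i]) hz
      rw [sub_single] at hc'
      obtain ⟨c', hc''⟩ := exists_child_of_hd hh hc'
      have := h.dcl u i c' hu hc''
      rw [hc, hq2] at this
      cases this
  · have hs0 : 0 < s.length := List.length_pos_iff.2 hs
    have hle : ∀ x, (pw s x).length ≤ x * n := fun x => by
      rw [pw_len]
      exact Nat.mul_le_mul_left _ hsn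
    refine ⟨K, δ, Γ0, cl, h.fin hD hm hl0 (fun e he => (hE e he).1) hL (pw s) (pw_mono s) hle
      (fun x y hxy _ => ?_) (fun x _ => ?_) hfirst (fun y hy a ρ hρ => ?_)
      (fun M N i j hi hij hj hN hwin u hu hc => ?_)⟩
    · rw [pw_len, pw_len]
      exact Nat.mul_lt_mul_of_pos_right hxy hs0
    · rw [pw_len]
      exact Nat.le_mul_of_pos_right _ hs0
    · have h2 := hfirst _ _ hρ
      have h3 := hle y
      have h4 := lPar_ge n m D w hy
      obtain ⟨x, hx, -⟩ := h.go hL (ρ ++ pw s y) _ _ l0 _ le_rfl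
        (by rw [List.length_append]; omega) (h.has (nd_root a)) (Gr.walk_app hρ.1 (walk_pw hw y))
      exact ⟨x, hx⟩
    · subst hc
      have hsub : ∀ z, z ≤ top n m D w → ∃ x, sub u (pw s z) = some x := fun z hz => by
        have h3 := hle z
        have h4 := lPar_ge n m D w hz
        obtain ⟨x, hx, -⟩ := h.go hL (pw s z) _ _ l0 _ le_rfl (by omega) (h.has hu.nd)
          (walk_pw hw z)
        exact ⟨x, hx⟩
      obtain ⟨u1, hu1, hu1'⟩ := h.go hL s _ _ l0 _ le_rfl (by omega) (h.has hu.nd) hw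
      have hR : Rl E P (l0 + n) u1 u := (hu1' u hu.nd rfl).mono (by omega)
      have step : ∀ z, M ≤ z → z ≤ N → ∀ ρ, ¬ s <+: ρ →
          lab u (pw s (z + 1) ++ ρ) = lab u (pw s z ++ ρ) := by
        intro z hz hz' ρ hρ
        rw [pw, List.append_assoc, lab_append_of hu1]
        refine hR _ fun β hβ hp => hρ ?_
        have h2 := len_Bl hL hβ
        have h3 := hle z
        have h4 := lPar_ge n m D w (x := z) (by omega)
        have h5 : pw s z <+: β :=
          List.prefix_of_prefix_length_le (List.prefix_append _ _) hp (by omega)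
        have h6 := ((pw_mono s (z + 1) _ (by omega)).trans
          (hwin β hβ ((pw_mono s _ _ hz).trans h5))).trans hp
        rwa [pw_succ, List.prefix_append_right_inj] at h6
      have chain : ∀ z, i ≤ z → z ≤ N → ∀ ρ, ¬ s <+: ρ →
          lab u (pw s i ++ ρ) = lab u (pw s z ++ ρ) := by
        intro z hz
        induction z, hz using Nat.le_induction with
        | base => intro _ _ _; rfl
        | succ z hz ih =>
          intro hz' ρ hρ
          rw [step z (by omega) (by omega) ρ hρ]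
          exact ih (by omega) ρ hρ
      obtain ⟨x, hx⟩ := hsub i (by omega)
      obtain ⟨y, hy⟩ := hsub j (by omega)
      obtain ⟨v, hv⟩ := hsub (j + 1) (by omega)
      refine ⟨s, x, y, v, hs, hw, hs1, hs2, pw_comm s i, pw_comm s j, hx, hy, fun ρ hρ => ?_, ?_⟩
      · rw [← lab_append_of hx, ← lab_append_of hy]
        exact chain j hij.le hj ρ hρ
      · rwa [pw_succ, sub_append_of hy] at hv

end Pool.Agent.Lib.MP_342291_lc.E
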