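import Pool.Agent.Lib.MP_342291_lc.E.Cut

/-!
Block Edg: every ordered pair of ground terms has a witness position.
-/

namespace Pool.Agent.Lib.MP_342291_lc.E

variable {F : Type} {ar : F → ℕ}

theorem exists_diff_pos (u : GT F ar) : ∀ v : GT F ar, u ≠ v → ∃ P x y, sub u P = some x ∧
    sub v P = some y ∧ Agr u v P ∧
    (hd x ≠ hd y ∨ ∃ i j, i ≠ j ∧ child x i ≠ child y i ∧ child x j ≠ child y j) := by
  induction u with
  | var e => exact e.elim
  | app f ts ih =>
    intro v hne
    by_cases h0 : hd (Tm.app f ts) ≠ hd v ∨ ∃ i j, i ≠ j ∧ child (Tm.app f ts) i ≠ child v i ∧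
        child (Tm.app f ts) j ≠ child v j
    · exact ⟨[], _, _, sub_nil _, sub_nil _, agr_nil _ _, h0⟩
    · obtain ⟨h1, h2⟩ := not_or.1 h0
      have h1' : hd (Tm.app f ts) = hd v := not_not.1 h1
      obtain ⟨i, hi⟩ : ∃ i, child (Tm.app f ts) i ≠ child v i := by
        by_contra hc
        exact hne (ext_child h1' fun i => not_not.1 fun h => hc ⟨i, h⟩)
      have hoth : ∀ j, j ≠ i → child (Tm.app f ts) j = child v j := fun j hj =>
        not_not.1 fun h => h2 ⟨j, i, hj, h, hi⟩
      have hlt : i < ar f := by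
        by_contra hlt
        have h3 := child_app_none f ts hlt
        cases hy : child v i with
        | none => exact hi (h3.trans hy.symm)
        | some y =>
          obtain ⟨x, hx⟩ := exists_child_of_hd h1' hy
          rw [h3] at hx
          cases hx
      have hx : child (Tm.app f ts) i = some (ts ⟨i, hlt⟩) := child_app f ts ⟨i, hlt⟩
      obtain ⟨y, hy⟩ := exists_child_of_hd h1'.symm hx
      obtain ⟨P, x', y', a1, a2, a3, a4⟩ := ih ⟨i, hlt⟩ y fun h => hi (by rw [hx, hy, h])
      refine ⟨i :: P, x', y', by rwa [sub_cons_of hx], by rwa [sub_cons_of hy],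
        agr_cons.2 ⟨h1', hoth, fun x2 y2 hx2 hy2 => ?_⟩, a4⟩
      rw [hx] at hx2
      rw [hy] at hy2
      cases hx2
      cases hy2
      exact a3

theorem edgStmt : EdgStmt := by
  intro F ar R u v
  by_cases hs : Step R u v
  · obtain ⟨P, x, y, hx, hy, hA, hR⟩ := step_iff.1 hs
    refine ⟨P, ⟨x, hx⟩, ⟨y, hy⟩, hA, fun _ x' y' hx' hy' => ?_, fun h => absurd hs h⟩
    rw [hx] at hx'
    rw [hy] at hy'
    cases hx'
    cases hy'
    exact hR
  · by_cases he : u = v
    · exact ⟨[], ⟨u, sub_nil _⟩, ⟨v, sub_nil _⟩, agr_nil _ _, fun h => absurd h hs,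
        fun _ h => absurd he h⟩
    · obtain ⟨P, x, y, hx, hy, hA, hd'⟩ := exists_diff_pos u v he
      refine ⟨P, ⟨x, hx⟩, ⟨y, hy⟩, hA, fun h => absurd h hs, fun _ _ x' y' hx' hy' => ?_⟩
      rw [hx] at hx'
      rw [hy] at hy'
      cases hx'
      cases hy'
      exact hd'

end Pool.Agent.Lib.MP_342291_lc.E
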