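import Pool.Agent.Lib.MP_342291_lc.E.Basic

/-!
Block T: transfer of a root step along a depth-indexed correspondence.
-/

namespace Pool.Agent.Lib.MP_342291_lc.E

variable {F : Type} {ar : F → ℕ}

theorem ht_child {V : Type} {f : F} {ts : Fin (ar f) → Tm F ar V} {d : ℕ}
    (h : Ht (Tm.app f ts) d) (i : Fin (ar f)) : ∃ d', d = d' + 1 ∧ Ht (ts i) d' := by
  have h1 := h [i] (ts i) (by rw [sub_single, child_app])
  obtain ⟨d', rfl⟩ : ∃ d', d = d' + 1 := ⟨d - 1, by simp at h1; omega⟩
  refine ⟨d', rfl, fun p u hp => ?_⟩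
  have h2 := h (i :: p) u (by rw [sub_cons_of (child_app f ts i)]; exact hp)
  simpa using h2

theorem transfer_pat (C : ℕ → GT F ar → GT F ar → Prop)
    (hm : ∀ d x y, C (d + 1) x y → C d x y)
    (hc : ∀ d x y, C (d + 1) x y → hd x = hd y ∧
      ∀ i x' y', child x i = some x' → child y i = some y' → C d x' y')
    (σ σ' : ℕ → GT F ar) (hσ : ∀ v x, C 0 x (σ v) → x = σ' v) (t : Tm F ar ℕ) :
    ∀ d x, Ht t d → C (d + 1) x (Tm.subst σ t) → x = Tm.subst σ' t := by
  have h0 : ∀ d x y, C d x y → C 0 x y := by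
    intro d
    induction d with
    | zero => exact fun _ _ h => h
    | succ d ih => exact fun x y h => ih x y (hm d x y h)
  induction t with
  | var v => exact fun d x _ h => hσ v x (h0 _ _ _ h)
  | app f ts ih =>
    intro d x ht h
    obtain ⟨h1, h2⟩ := hc d x _ h
    obtain ⟨g, us, rfl⟩ := exists_app x
    obtain rfl : g = f := by simpa [hd, Tm.subst] using h1
    simp only [Tm.subst]
    congr 1
    funext i
    obtain ⟨d', rfl, hd'⟩ := ht_child ht i
    exact ih i d' _ hd' (h2 i _ _ (child_app g us i) (child_app g _ i))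

/-- Transfer of a root step for pairs related one level above the height of the rules. -/
theorem tStmt1 (F : Type) (ar : F → ℕ) (R : Set (Tm F ar ℕ × Tm F ar ℕ)) (h : ℕ)
    (C : ℕ → GT F ar → GT F ar → Prop)
    (hR : ∀ p ∈ R, Ht p.1 h ∧ Ht p.2 h)
    (hm : ∀ d x y, C (d + 1) x y → C d x y)
    (hc : ∀ d x y, C (d + 1) x y → hd x = hd y ∧
      ∀ i x' y', child x i = some x' → child y i = some y' → C d x' y')
    (hu : ∀ x y x', C 0 x y → C 0 x' y → x = x') :
    ∀ x y x' y', C (h + 1) x y → C (h + 1) x' y' → Root R y y' → Root R x x' := by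
  classical
  rintro x y x' y' h1 h2 ⟨l, r, σ, hlr, rfl, rfl⟩
  let σ' : ℕ → GT F ar := fun v => if hv : ∃ z, C 0 z (σ v) then hv.choose else σ v
  have hσ : ∀ v z, C 0 z (σ v) → z = σ' v := by
    intro v z hz
    have hv : ∃ z, C 0 z (σ v) := ⟨z, hz⟩
    simp only [σ', dif_pos hv]
    exact hu _ _ _ hz hv.choose_spec
  exact ⟨l, r, σ', hlr, transfer_pat C hm hc σ σ' hσ l h x (hR _ hlr).1 h1,
    transfer_pat C hm hc σ σ' hσ r h x' (hR _ hlr).2 h2⟩

/-- Transfer of a root step when related terms have the same head symbol at level zero. -/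
theorem tStmt0 (F : Type) (ar : F → ℕ) (R : Set (Tm F ar ℕ × Tm F ar ℕ)) (h : ℕ)
    (C : ℕ → GT F ar → GT F ar → Prop)
    (hR : ∀ p ∈ R, Ht p.1 h ∧ Ht p.2 h)
    (hm : ∀ d x y, C (d + 1) x y → C d x y)
    (hc : ∀ d x y, C (d + 1) x y → hd x = hd y ∧
      ∀ i x' y', child x i = some x' → child y i = some y' → C d x' y')
    (hu : ∀ x y x', C 0 x y → C 0 x' y → x = x')
    (h0 : ∀ x y, C 0 x y → hd x = hd y) :
    ∀ x y x' y', C h x y → C h x' y' → Root R y y' → Root R x x' := by
  classical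
  rintro x y x' y' h1 h2 ⟨l, r, σ, hlr, rfl, rfl⟩
  let σ' : ℕ → GT F ar := fun v => if hv : ∃ z, C 0 z (σ v) then hv.choose else σ v
  have hσ : ∀ v z, C 0 z (σ v) → z = σ' v := by
    intro v z hz
    have hv : ∃ z, C 0 z (σ v) := ⟨z, hz⟩
    simp only [σ', dif_pos hv]
    exact hu _ _ _ hz hv.choose_spec
  have hd0 : ∀ d x y, C d x y → C 0 x y := by
    intro d
    induction d with
    | zero => exact fun _ _ h => h
    | succ d ih => exact fun x y h => ih x y (hm d x y h)
  have key : ∀ (t : Tm F ar ℕ) d x, Ht t d → C d x (Tm.subst σ t) → x = Tm.subst σ' t := by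
    intro t
    induction t with
    | var v => exact fun d x _ h => hσ v x (hd0 _ _ _ h)
    | app f ts ih =>
      intro d x ht h
      have h1 := h0 _ _ (hd0 _ _ _ h)
      obtain ⟨g, us, rfl⟩ := exists_app x
      obtain rfl : g = f := by simpa [hd, Tm.subst] using h1
      simp only [Tm.subst]
      congr 1
      funext i
      obtain ⟨d', rfl, hd'⟩ := ht_child ht i
      exact ih i d' _ hd' ((hc d' _ _ h).2 i _ _ (child_app g us i) (child_app g _ i))
  exact ⟨l, r, σ', hlr, key l h x (hR _ hlr).1 h1, key r h x' (hR _ hlr).2 h2⟩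

end Pool.Agent.Lib.MP_342291_lc.E
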