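import Pool.Agent.Lib.MP_342291_lc.E.Pump
import Pool.Agent.Lib.MP_342291_lc.E.T

/-!
Pumping at a good pair of cut points keeps the diagram of the tuple and lowers its size.
-/

namespace Pool.Agent.Lib.MP_342291_lc.E

variable {F : Type} {ar : F → ℕ} {K : Type} {δ : K → ℕ → Option K} {Γ0 : K} {Wi Wj : List ℕ}
  {z : GT F ar} {k D n h : ℕ} {t : Fin k → GT F ar} {cl : GT F ar → K}
  {R : Set (Tm F ar ℕ × Tm F ar ℕ)}

theorem PD.root_down (H : PD t D n δ Γ0 cl Wi Wj) (hR : ∀ p ∈ R, Ht p.1 h ∧ Ht p.2 h)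
    {a b : Fin k} {p q : List ℕ} {x y : GT F ar} (hx : sub (t a) p = some x)
    (hy : sub (t b) q = some y) (hp : p.length + h < D) (hq : q.length + h < D)
    (hr : Root R x y) : Root R (pump δ Γ0 Wi Wj z (cl x) x) (pump δ Γ0 Wi Wj z (cl y) y) := by
  refine tStmt0 F ar R h (fun d x y => ∃ a p, sub (t a) p = some y ∧ p.length + d < D ∧
    x = pump δ Γ0 Wi Wj z (cl y) y) hR ?_ ?_ ?_ ?_ _ _ _ _ ⟨a, p, hx, hp, rfl⟩
    ⟨b, q, hy, hq, rfl⟩ hr
  · rintro d x y ⟨a, p, h1, h2, h3⟩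
    exact ⟨a, p, h1, by omega, h3⟩
  · rintro d x y ⟨a, p, h1, h2, rfl⟩
    refine ⟨H.hd_pump _ _, fun i x' y' h3 h4 => ⟨a, p ++ [i], by rw [sub_concat_of h1, h4],
      by simp; omega, ?_⟩⟩
    rw [H.hom h1 (by omega), h4] at h3
    exact (Option.some.inj h3).symm
  · rintro x y x' ⟨_, _, _, _, rfl⟩ ⟨_, _, _, _, rfl⟩
    rfl
  · rintro x y ⟨_, _, _, _, rfl⟩
    exact H.hd_pump _ _

theorem PD.root_up (H : PD t D n δ Γ0 cl Wi Wj) (hR : ∀ p ∈ R, Ht p.1 h ∧ Ht p.2 h)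
    (hG : Good t n h δ Γ0 cl Wi Wj z) {a b : Fin k} {p : List ℕ} {x' y' : GT F ar}
    (hx : sub (pump δ Γ0 Wi Wj z (cl (t a)) (t a)) p = some x')
    (hy : sub (pump δ Γ0 Wi Wj z (cl (t b)) (t b)) p = some y')
    (hp : p.length ≤ n + Wi.length + 1) (ha : ¬ Mark δ Γ0 Wi (cl (t a)) p)
    (hb : ¬ Mark δ Γ0 Wi (cl (t b)) p) (hr : Root R x' y') :
    ∃ x y, sub (t a) p = some x ∧ sub (t b) p = some y ∧ Root R x y := by
  obtain ⟨x, hx0, -⟩ := exists_sub_of_lab (lab_pump (Wj := Wj) (z := z) (t a) ha).symm hx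
  obtain ⟨y, hy0, -⟩ := exists_sub_of_lab (lab_pump (Wj := Wj) (z := z) (t b) hb).symm hy
  have hhd : ∀ (d : ℕ) (a : Fin k) (p : List ℕ) (x y : GT F ar), sub (t a) p = some x →
      sub (pump δ Γ0 Wi Wj z (cl (t a)) (t a)) p = some y →
      (¬ Mark δ Γ0 Wi (cl (t a)) p ∨ ∃ ρ π, First δ Γ0 (cl (t a)) ρ ∧ p = ρ ++ Wi ++ π ∧
        π.length + d ≤ h) → hd x = hd y := by
    rintro d a p x y h1 h2 (h3 | ⟨ρ, π, h3, rfl, h4⟩)
    · rw [← lab_of_sub h1, ← lab_of_sub h2, lab_pump _ h3]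
    · obtain ⟨w, hw⟩ := H.dom a ρ h3
      rw [← lab_of_sub h1, ← lab_of_sub h2, lab_pump_mark H.pre h3 hw]
      exact hG.1 a ρ π h3 (by omega)
  refine ⟨x, y, hx0, hy0, tStmt0 F ar R h (fun d x y => ∃ a p, sub (t a) p = some x ∧
    sub (pump δ Γ0 Wi Wj z (cl (t a)) (t a)) p = some y ∧ d ≤ h ∧
    p.length + d ≤ n + Wi.length + 1 + h ∧
    (¬ Mark δ Γ0 Wi (cl (t a)) p ∨ ∃ ρ π, First δ Γ0 (cl (t a)) ρ ∧ p = ρ ++ Wi ++ π ∧
      π.length + d ≤ h)) hR ?_ ?_ ?_ ?_ _ _ _ _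
    ⟨a, p, hx0, hx, le_rfl, by omega, Or.inl ha⟩ ⟨b, p, hy0, hy, le_rfl, by omega, Or.inl hb⟩ hr⟩
  · rintro d x y ⟨a, p, h1, h2, h3, h4, h5⟩
    refine ⟨a, p, h1, h2, by omega, by omega, h5.imp_right ?_⟩
    rintro ⟨ρ, π, h6, h7, h8⟩
    exact ⟨ρ, π, h6, h7, by omega⟩
  · rintro d x y ⟨a, p, h1, h2, h3, h4, h5⟩
    refine ⟨hhd _ a p x y h1 h2 h5, fun i x' y' h6 h7 => ⟨a, p ++ [i],
      by rw [sub_concat_of h1, h6], by rw [sub_concat_of h2, h7], by omega, by simp; omega, ?_⟩⟩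
    rcases h5 with h5 | ⟨ρ, π, h5, rfl, h8⟩
    · by_cases hm : Mark δ Γ0 Wi (cl (t a)) (p ++ [i])
      · obtain ⟨ρ, h8, h9⟩ := hm
        rcases List.prefix_concat_iff.1 h9 with h10 | h10
        · exact Or.inr ⟨ρ, [], h8, by simp [h10], by simp; omega⟩
        · exact absurd ⟨ρ, h8, h10⟩ h5
      · exact Or.inl hm
    · exact Or.inr ⟨ρ, π ++ [i], h5, by simp, by simp; omega⟩
  · rintro x y x' ⟨a, p, h1, h2, -, h4, h5⟩ ⟨b, q, h6, h7, -, h8, h9⟩
    exact hG.2 a b p q x x' ⟨h4, h5⟩ ⟨h8, h9⟩ h1 h6 (h2.trans h7.symm)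
  · rintro x y ⟨a, p, h1, h2, -, -, h5⟩
    exact hhd _ a p x y h1 h2 h5

theorem PD.step_loop (H : PD t D n δ Γ0 cl Wi Wj) (hR : ∀ p ∈ R, Ht p.1 h ∧ Ht p.2 h)
    (hG : Good t n h δ Γ0 cl Wi Wj z) (a : Fin k)
    (hs : Step R (pump δ Γ0 Wi Wj z (cl (t a)) (t a)) (pump δ Γ0 Wi Wj z (cl (t a)) (t a))) :
    Step R (t a) (t a) := by
  obtain ⟨p, x, y, hx, hy, -, hr⟩ := step_iff.1 hs
  have old : ∀ q, sub (pump δ Γ0 Wi Wj z (cl (t a)) (t a)) p = sub (t a) q →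
      Step R (t a) (t a) := fun q hq =>
    step_iff.2 ⟨q, x, y, hq ▸ hx, hq ▸ hy, Agr.refl _ _, hr⟩
  by_cases hm : Mark δ Γ0 Wi (cl (t a)) p
  · obtain ⟨ρ, h1, r, rfl⟩ := hm
    obtain ⟨w, hw⟩ := H.dom a ρ h1
    exact old _ (sub_pump_mark H.pre h1 hw r)
  · by_cases hb : ∃ ρ, First δ Γ0 (cl (t a)) ρ ∧ p <+: ρ ++ Wi
    · obtain ⟨ρ, h1, h2⟩ := hb
      have h3 := h2.length_le
      have h4 := H.first _ _ h1
      rw [List.length_append] at h3
      obtain ⟨x0, y0, h5, h6, h7⟩ := H.root_up hR hG hx hy (by omega) hm hm hr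
      exact step_iff.2 ⟨p, x0, y0, h5, h6, Agr.refl _ _, h7⟩
    · exact old p (sub_pump_free _ hm fun ρ h1 h2 => hb ⟨ρ, h1, h2⟩)

theorem PD.step_long (H : PD t D n δ Γ0 cl Wi Wj) (hR : ∀ p ∈ R, Ht p.1 h ∧ Ht p.2 h)
    (hG : Good t n h δ Γ0 cl Wi Wj z) {a b : Fin k} {P : List ℕ} (hE : Edg R (t a) (t b) P)
    (hL : Lg n δ Γ0 cl Wi Wj (t a) (t b) P) (hne : t a ≠ t b) :
    Step R (t a) (t b) ↔
      Step R (pump δ Γ0 Wi Wj z (cl (t a)) (t a)) (pump δ Γ0 Wi Wj z (cl (t b)) (t b)) := by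
  obtain ⟨q, q', hq, hA, h1, h2, h3⟩ := H.long (z := z) hE.agr hL
  obtain ⟨x1, hx1⟩ := hE.du
  obtain ⟨y1, hy1⟩ := hE.dv
  obtain ⟨x, hx⟩ := exists_sub_prefix hx1 hq
  obtain ⟨y, hy⟩ := exists_sub_prefix hy1 hq
  rw [hx] at h1
  rw [hy] at h2
  constructor
  · intro hs
    obtain ⟨r, rfl⟩ := hq
    refine step_lift hA h1 h2 (step_iff.2 ⟨r, x1, y1, ?_, ?_, hE.agr.drop hx hy,
      hE.pos hs _ _ hx1 hy1⟩)
    · rwa [sub_append_of hx] at hx1
    · rwa [sub_append_of hy] at hy1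
  · intro hs
    obtain ⟨p, x', y', hx', hy', hA', hr⟩ := step_iff.1 hs
    by_cases c1 : q' <+: p
    · obtain ⟨r, rfl⟩ := c1
      refine step_lift (hE.agr.mono hq) hx hy (step_iff.2 ⟨r, x', y', ?_, ?_, hA'.drop h1 h2, hr⟩)
      · rwa [sub_append_of h1] at hx'
      · rwa [sub_append_of h2] at hy'
    · by_cases c2 : p <+: q'
      · obtain ⟨h4, h5, h6⟩ := h3 p c2 fun h => c1 (h ▸ List.prefix_refl _)
        obtain ⟨x0, y0, h7, h8, h9⟩ := H.root_up hR hG hx' hy' h5 h6 (hL.1 ▸ h6) hr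
        exact step_iff.2 ⟨p, x0, y0, h7, h8, hE.agr.mono h4, h9⟩
      · have h4 := hA'.sub_eq c2 c1
        rw [h1, h2] at h4
        exact absurd ((hE.agr.mono hq).eq_of_sub (hx.trans (h4.trans hy.symm))) hne

theorem PD.step_short (H : PD t D n δ Γ0 cl Wi Wj) (hR : ∀ p ∈ R, Ht p.1 h ∧ Ht p.2 h)
    (hG : Good t n h δ Γ0 cl Wi Wj z) {a b : Fin k} {P : List ℕ} (hE : Edg R (t a) (t b) P)
    (hS : P.length + h + 1 < D) (hne : t a ≠ t b)
    (hs : Step R (pump δ Γ0 Wi Wj z (cl (t a)) (t a)) (pump δ Γ0 Wi Wj z (cl (t b)) (t b))) :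
    Step R (t a) (t b) := by
  refine Classical.byContradiction fun hn => ?_
  obtain ⟨x, hx⟩ := hE.du
  obtain ⟨y, hy⟩ := hE.dv
  obtain ⟨p, x', y', hx', hy', hA', hr⟩ := step_iff.1 hs
  have hlen := H.len
  by_cases c : p <+: P
  · have h1 := c.length_le
    obtain ⟨x0, y0, h7, h8, h9⟩ := H.root_up hR hG hx' hy' (by omega)
      (not_mark_of_short (by omega)) (not_mark_of_short (by omega)) hr
    exact hn (step_iff.2 ⟨p, x0, y0, h7, h8, hE.agr.mono c, h9⟩)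
  · have hhd : hd x = hd y := by
      have h1 := hA' P c
      rwa [lab_pump _ (not_mark_of_short (by omega)), lab_pump _ (not_mark_of_short (by omega)),
        lab_of_sub hx, lab_of_sub hy] at h1
    have key : ∀ i, ¬ P ++ [i] <+: p → child x i = child y i := fun i hi => by
      have h1 := hA'.sub_eq (p := P ++ [i]) (fun h2 => by
        rcases List.prefix_concat_iff.1 h2 with h3 | h3
        · exact hi (h3 ▸ List.prefix_refl _)
        · exact c h3) hi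
      cases hxi : child x i with
      | none =>
        cases hyi : child y i with
        | none => rfl
        | some y1 =>
          obtain ⟨x1, hx1⟩ := exists_child_of_hd hhd hyi
          rw [hxi] at hx1
          cases hx1
      | some x1 =>
        obtain ⟨y1, hy1⟩ := exists_child_of_hd hhd.symm hxi
        have hl : (P ++ [i]).length < Wi.length := by simp; omega
        rw [hy1, hG.2 a b (P ++ [i]) (P ++ [i]) x1 y1 ⟨by omega, Or.inl (not_mark_of_short hl)⟩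
          ⟨by omega, Or.inl (not_mark_of_short hl)⟩ (by rw [sub_concat_of hx, hxi])
          (by rw [sub_concat_of hy, hy1]) h1]
    rcases hE.neg hn hne x y hx hy with h1 | ⟨i, j, hij, hi, hj⟩
    · exact h1 hhd
    · have h2 : P ++ [i] <+: p := Classical.byContradiction fun h => hi (key i h)
      have h3 : P ++ [j] <+: p := Classical.byContradiction fun h => hj (key j h)
      have h4 := List.prefix_of_prefix_length_le h2 h3 (by simp)
      exact hij (by simpa using h4)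

theorem finStmt : FinStmt := by
  intro F ar R h k D n K t δ Γ0 cl Wi Wj z P hR0 H hE hSL hG
  have hR : ∀ p ∈ R, Ht p.1 h ∧ Ht p.2 h := fun p hp => (hR0 p hp).2
  refine ⟨fun a b => ⟨fun h => by rw [h], fun h => ?_⟩, fun a b => ⟨fun hs => ?_, fun hs => ?_⟩, ?_⟩
  · exact hG.2 a b [] [] _ _ ⟨by simp, Or.inl (not_mark_of_short H.wpos)⟩
      ⟨by simp, Or.inl (not_mark_of_short H.wpos)⟩ (sub_nil _) (sub_nil _) (by simpa using h)
  · rcases hSL a b with hS | hL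
    · obtain ⟨x, hx⟩ := (hE a b).du
      obtain ⟨y, hy⟩ := (hE a b).dv
      exact step_iff.2 ⟨P a b, _, _, H.sub_hom a hx (by omega), H.sub_hom b hy (by omega),
        H.agr_short (p := []) (q := []) (sub_nil _) (sub_nil _) (by simp; omega) (by simp; omega)
          (hE a b).agr,
        H.root_down hR hx hy (by omega) (by omega) ((hE a b).pos hs _ _ hx hy)⟩
    · obtain ⟨q, q', hq, hA, h1, h2, -⟩ := H.long (z := z) (hE a b).agr hL
      obtain ⟨x1, hx1⟩ := (hE a b).du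
      obtain ⟨y1, hy1⟩ := (hE a b).dv
      obtain ⟨x, hx⟩ := exists_sub_prefix hx1 hq
      obtain ⟨y, hy⟩ := exists_sub_prefix hy1 hq
      obtain ⟨r, hr⟩ := hq
      have hA0 := (hE a b).agr
      have hr0 := (hE a b).pos hs _ _ hx1 hy1
      rw [← hr] at hx1 hy1 hA0
      refine step_lift hA (h1.trans hx) (h2.trans hy)
        (step_iff.2 ⟨r, x1, y1, ?_, ?_, hA0.drop hx hy, hr0⟩)
      · rwa [sub_append_of hx] at hx1
      · rwa [sub_append_of hy] at hy1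
  · by_cases hab : t a = t b
    · rw [← hab] at hs ⊢
      exact H.step_loop hR hG a hs
    · rcases hSL a b with hS | hL
      · exact H.step_short hR hG (hE a b) hS hab hs
      · exact (H.step_long hR hG (hE a b) hL hab).2 hs
  · obtain ⟨a, ha⟩ := H.ex
    exact Finset.sum_lt_sum (fun b _ => (size_pump H.pre H.ne _ _ (H.dom b)).1)
      ⟨a, Finset.mem_univ _, (size_pump H.pre H.ne _ _ (H.dom a)).2 ha⟩

end Pool.Agent.Lib.MP_342291_lc.E
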