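import Pool.Agent.Lib.MP_342291_lc.E.Cut

/-!
A good pair of cut points exists in every long enough window.
-/

namespace Pool.Agent.Lib.MP_342291_lc.E

open Classical

variable {F : Type} {ar : F → ℕ} {V W : Type} {K : Type}

/-- Words of length at most `n` with letters below `A`. -/
def words (A : ℕ) : ℕ → Finset (List ℕ)
  | 0 => {[]}
  | n + 1 => insert [] ((Finset.range A ×ˢ words A n).image fun x => x.1 :: x.2)

theorem card_words (A n : ℕ) : (words A n).card ≤ (A + 1) ^ n := by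
  induction n with
  | zero => simp [words]
  | succ n ih =>
    have h1 := Finset.card_insert_le ([] : List ℕ)
      ((Finset.range A ×ˢ words A n).image fun x => x.1 :: x.2)
    have h2 : ((Finset.range A ×ˢ words A n).image fun x => x.1 :: x.2).card ≤
        A * (words A n).card := by
      refine Finset.card_image_le.trans ?_
      rw [Finset.card_product, Finset.card_range]
    have h3 : 1 ≤ (A + 1) ^ n := Nat.one_le_pow _ _ (Nat.succ_pos A)
    have h4 : A * (words A n).card ≤ A * (A + 1) ^ n := Nat.mul_le_mul_left _ ih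
    have h5 : (A + 1) ^ (n + 1) = A * (A + 1) ^ n + (A + 1) ^ n := by ring
    simp only [words]
    omega

theorem mem_words {A n : ℕ} {p : List ℕ} (h1 : p.length ≤ n) (h2 : ∀ i ∈ p, i < A) :
    p ∈ words A n := by
  induction n generalizing p with
  | zero =>
    obtain rfl : p = [] := List.length_eq_zero_iff.1 (Nat.le_zero.1 h1)
    simp [words]
  | succ n ih =>
    cases p with
    | nil => simp [words]
    | cons i p =>
      simp only [words]
      refine Finset.mem_insert_of_mem (Finset.mem_image.2 ⟨(i, p), Finset.mem_product.2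
        ⟨Finset.mem_range.2 (h2 i (by simp)), ih (by simpa using h1) fun j hj => h2 j ?_⟩, rfl⟩)
      simp [hj]

theorem lt_of_sub {A : ℕ} (hA : ∀ f, ar f ≤ A) {t u : Tm F ar V} {p : List ℕ}
    (h : sub t p = some u) : ∀ i ∈ p, i < A := by
  induction p generalizing t with
  | nil => simp
  | cons j p ih =>
    obtain ⟨x, hx, hx'⟩ := sub_split (p := [j]) h
    rw [sub_single] at hx
    intro i hi
    rcases List.mem_cons.1 hi with rfl | hi
    · obtain ⟨f, ts, hf, -, -⟩ := child_eq_some hx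
      exact hf.trans_le (hA f)
    · exact ih hx' i hi

theorem cut_congr {δ : K → ℕ → Option K} {Γ0 : K} {Wi : List ℕ} {g g' : List ℕ → Tm F ar V}
    {Γ : K} (u : GT F ar) (h : ∀ ρ, First δ Γ0 Γ ρ → g ρ = g' ρ) :
    cut δ Γ0 Wi g Γ u = cut δ Γ0 Wi g' Γ u := by
  induction u generalizing g g' Γ with
  | var e => exact e.elim
  | app f ts ih =>
    by_cases hΓ : Γ = Γ0
    · subst hΓ
      rw [cut_self, cut_self, h [] (first_self _ _)]
    · simp only [cut, if_neg hΓ]
      congr 1
      funext i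
      cases hδ : δ Γ i with
      | none => rfl
      | some Γ' => exact ih i fun ρ hρ => h _ ((first_cons hΓ hδ).2 hρ)

theorem exists_sub_of_lab' {t : Tm F ar V} {u x : GT F ar} {p q : List ℕ}
    (h : lab t p = lab u q) (hx : sub u q = some x) : ∃ y, sub t p = some y := by
  cases hy : sub t p with
  | none =>
    have h1 : lab t p = none := by simp [lab, hy]
    rw [h, lab_eq_none, hx] at h1
    cases h1
  | some y => exact ⟨y, rfl⟩

theorem count_le (k A σ h n M i L : ℕ) (hL : L ≤ n + (M + i) * n + 1 + h) :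
    k * (A + 1) ^ L * (k * (A + 1) ^ L) ≤ 2 ^ (aPar k A σ h n M * (i + 1)) := by
  have h1 : k ≤ 2 ^ k := Nat.lt_two_pow_self.le
  have h2 : (A + 1) ^ L ≤ 2 ^ ((A + 1) * L) := by
    rw [pow_mul]
    exact Nat.pow_le_pow_left Nat.lt_two_pow_self.le _
  have h3 : k * (A + 1) ^ L ≤ 2 ^ (k + (A + 1) * L) := by
    rw [pow_add]
    exact Nat.mul_le_mul h1 h2
  refine (Nat.mul_le_mul h3 h3).trans ?_
  rw [← pow_add]
  refine Nat.pow_le_pow_right (by norm_num) ?_
  have h4 : L ≤ (2 * n + M * n + 1 + h) * (i + 1) := by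
    have : (2 * n + M * n + 1 + h) * (i + 1) =
        n + (M + i) * n + 1 + h + (n + (n + M * n + 1 + h) * i) := by ring
    omega
  have h5 : (A + 1) * L ≤ (A + 1) * ((2 * n + M * n + 1 + h) * (i + 1)) :=
    Nat.mul_le_mul_left _ h4
  have h6 : 2 * k + 2 * (A + 1) * (2 * n + M * n + 1 + h) ≤ aPar k A σ h n M := by
    unfold aPar
    omega
  have h7 := Nat.mul_le_mul_right (i + 1) h6
  have h8 : (2 * k + 2 * (A + 1) * (2 * n + M * n + 1 + h)) * (i + 1) =
      2 * k + 2 * k * i + 2 * ((A + 1) * ((2 * n + M * n + 1 + h) * (i + 1))) := by ring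
  omega

section

variable {k : ℕ} (t : Fin k → GT F ar) (δ : K → ℕ → Option K) (Γ0 : K) (cl : GT F ar → K)
  (Wd : ℕ → List ℕ) (z : GT F ar) (A n h : ℕ)

/-- The coordinates. -/
def coords (k A n h : ℕ) : Finset (Fin k × List ℕ × List ℕ) :=
  Finset.univ ×ˢ (words A n ×ˢ words A h)

theorem card_coords (k A n h : ℕ) : (coords k A n h).card ≤ k * (A + 1) ^ (n + h) := by
  unfold coords
  rw [Finset.card_product, Finset.card_product, Finset.card_univ, Fintype.card_fin, pow_add]
  exact Nat.mul_le_mul_left _ (Nat.mul_le_mul (card_words A n) (card_words A h))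

/-- The points. -/
noncomputable def pt (j : ℕ) (v : Fin k × List ℕ × List ℕ) : GT F ar :=
  if v ∈ coords k A n h then (sub (t v.1) (v.2.1 ++ Wd j ++ v.2.2)).getD z else z

/-- The open term attached to an upper position. -/
noncomputable def opn (i : ℕ) (a : Fin k) (p : List ℕ) : Tm F ar (Fin k × List ℕ × List ℕ) :=
  if H : ∃ w : List ℕ × List ℕ, First δ Γ0 (cl (t a)) w.1 ∧ p = w.1 ++ Wd i ++ w.2 ∧
      w.2.length ≤ h then .var (a, H.choose)
  else (sub (cut δ Γ0 (Wd i) (fun ρ => .var (a, ρ, [])) (cl (t a)) (t a)) p).getD (lift z)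

variable {t δ Γ0 cl Wd z A n h}

theorem mem_coords {D i j : ℕ} (hA : ∀ f, ar f ≤ A) (hP : PD t D n δ Γ0 cl (Wd i) (Wd j))
    {a : Fin k} {ρ π : List ℕ} (h1 : First δ Γ0 (cl (t a)) ρ) (h2 : π.length ≤ h)
    (h3 : ∀ x ∈ π, x < A) : (a, ρ, π) ∈ coords k A n h := by
  obtain ⟨x, hx⟩ := hP.dom a ρ h1
  refine Finset.mem_product.2 ⟨Finset.mem_univ _, Finset.mem_product.2
    ⟨mem_words (hP.first _ _ h1) fun y hy => lt_of_sub hA hx y (by simp [hy]), mem_words h2 h3⟩⟩

theorem opn_spec {D i j : ℕ} (hA : ∀ f, ar f ≤ A) (hP : PD t D n δ Γ0 cl (Wd i) (Wd j))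
    (hty : ∀ a ρ π, First δ Γ0 (cl (t a)) ρ → π.length ≤ h →
      lab (t a) (ρ ++ Wd i ++ π) = lab (t a) (ρ ++ Wd j ++ π))
    {a : Fin k} {p : List ℕ} {x : GT F ar} (hu : Up δ Γ0 (Wd i) n h (cl (t a)) p)
    (hx : sub (t a) p = some x) :
    Tm.subst (pt t Wd z A n h i) (opn t δ Γ0 cl Wd z h i a p) = x ∧
      sub (pump δ Γ0 (Wd i) (Wd j) z (cl (t a)) (t a)) p =
        some (Tm.subst (pt t Wd z A n h j) (opn t δ Γ0 cl Wd z h i a p)) := by
  have hdi : ∀ ρ, First δ Γ0 (cl (t a)) ρ → ∃ y, sub (t a) (ρ ++ Wd i) = some y := fun ρ hρ => by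
    obtain ⟨y, hy⟩ := hP.dom a ρ hρ
    exact exists_sub_prefix hy ((List.prefix_append_right_inj ρ).2 hP.pre)
  unfold opn
  split_ifs with H
  · obtain ⟨h1, h2, h3⟩ := H.choose_spec
    generalize H.choose = w at h1 h2 h3
    obtain ⟨ρ, π⟩ := w
    simp only at h1 h2 h3
    subst h2
    have hm : (a, ρ, π) ∈ coords k A n h :=
      mem_coords hA hP h1 h3 fun y hy => lt_of_sub hA hx y (by simp [hy])
    obtain ⟨y, hy, -⟩ := exists_sub_of_lab (hty a ρ π h1 h3).symm hx
    obtain ⟨y0, hy0, hy1⟩ := sub_split hy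
    obtain ⟨x0, hx0⟩ := hdi ρ h1
    refine ⟨by simp only [Tm.subst, pt, if_pos hm, hx, Option.getD_some], ?_⟩
    unfold pump
    rw [sub_append_of (sub_cut_mark _ h1 hx0), hy0]
    simp only [Tm.subst, pt, if_pos hm, hy, Option.getD_some, hy1]
  · have hm : ¬ Mark δ Γ0 (Wd i) (cl (t a)) p := by
      rcases hu.2 with h1 | ⟨ρ, π, h1, h2, h3⟩
      · exact h1
      · exact absurd ⟨(ρ, π), h1, h2, h3⟩ H
    obtain ⟨φ, hφ⟩ := exists_sub_of_lab'
      (lab_cut (fun ρ => (.var (a, ρ, []) : Tm F ar (Fin k × List ℕ × List ℕ))) (t a) hm) hx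
    have hc : ∀ ρ, First δ Γ0 (cl (t a)) ρ → (a, ρ, []) ∈ coords k A n h := fun ρ hρ =>
      mem_coords hA hP hρ (Nat.zero_le _) (by simp)
    rw [hφ, Option.getD_some]
    constructor
    · have h1 := sub_subst (pt t Wd z A n h i) hφ
      rw [subst_cut, cut_eq_self, hx] at h1
      · exact (Option.some.inj h1).symm
      · intro ρ hρ
        obtain ⟨y, hy⟩ := hdi ρ hρ
        simp only [Tm.subst, pt, if_pos (hc ρ hρ), List.append_nil, hy, Option.getD_some]
    · have h1 := sub_subst (pt t Wd z A n h j) hφ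
      rw [subst_cut] at h1
      rw [← h1]
      unfold pump
      congr 1
      refine cut_congr _ fun ρ hρ => ?_
      simp only [Tm.subst, pt, if_pos (hc ρ hρ), List.append_nil]

end

theorem goodStmt (hN : NStmt) : GoodStmt := by
  obtain ⟨Rb, hRb, hN⟩ := hN
  refine ⟨Rb, hRb, fun F _ ar A h k D n M K t δ Γ0 cl Wd z hA hW hP => ?_⟩
  let T : ℕ → Finset (Tm F ar (Fin k × List ℕ × List ℕ)) := fun i =>
    (Finset.univ ×ˢ words A (n + (Wd i).length + 1 + h)).image fun w : Fin k × List ℕ =>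
      opn t δ Γ0 cl Wd z h i w.1 w.2
  have hT : ∀ i, (T i).card ≤ k * (A + 1) ^ (n + (Wd i).length + 1 + h) := fun i => by
    refine Finset.card_image_le.trans ?_
    rw [Finset.card_product, Finset.card_univ, Fintype.card_fin]
    exact Nat.mul_le_mul_left _ (card_words _ _)
  obtain ⟨i, j, hij, hj, hty, hE⟩ := hN F ar (Fin k × List ℕ × List ℕ)
    ({v // v ∈ coords k A n h} → Option F) (aPar k A (Fintype.card F) h n M)
    (pt t Wd z A n h) (coords k A n h)
    (fun i v => lab (t v.1.1) (v.1.2.1 ++ Wd i ++ v.1.2.2))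
    (fun i => (T i ×ˢ T i).filter fun e =>
      Tm.subst (pt t Wd z A n h i) e.1 ≠ Tm.subst (pt t Wd z A n h i) e.2)
    ((card_coords k A n h).trans (by unfold aPar; omega))
    (by
      rw [Fintype.card_fun, Fintype.card_option, Fintype.card_coe]
      have := Nat.pow_le_pow_right (Nat.succ_pos (Fintype.card F)) (card_coords k A n h)
      unfold aPar
      simp only [Nat.succ_eq_add_one] at this
      omega)
    (fun v hv i j => by simp only [pt, if_neg hv])
    (fun i => by
      refine (Finset.card_filter_le _ _).trans ?_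
      rw [Finset.card_product]
      refine (Nat.mul_le_mul (hT i) (hT i)).trans (count_le _ _ _ _ _ _ _ _ ?_)
      have := hW i
      omega)
    (fun i e he => (Finset.mem_filter.1 he).2)
  have hp := hP i j hij hj
  have hty' : ∀ a ρ π, First δ Γ0 (cl (t a)) ρ → π.length ≤ h →
      lab (t a) (ρ ++ Wd i ++ π) = lab (t a) (ρ ++ Wd j ++ π) := fun a ρ π h1 h2 => by
    by_cases h3 : ∀ x ∈ π, x < A
    · exact congrFun hty ⟨(a, ρ, π), mem_coords hA hp h1 h2 h3⟩
    · have h4 : ∀ Q : List ℕ, lab (t a) (Q ++ π) = none := fun Q => by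
        rw [lab_eq_none]
        cases hs : sub (t a) (Q ++ π) with
        | none => rfl
        | some y => exact absurd (fun x hx => lt_of_sub hA hs x (by simp [hx])) h3
      rw [h4, h4]
  refine ⟨i, j, hij, hj, hty', fun a b p q x y hu hv hx hy hs => ?_⟩
  obtain ⟨h1, h2⟩ := opn_spec (z := z) hA hp hty' hu hx
  obtain ⟨h3, h4⟩ := opn_spec (z := z) hA hp hty' hv hy
  by_contra hne
  refine hE (opn t δ Γ0 cl Wd z h i a p, opn t δ Γ0 cl Wd z h i b q) (Finset.mem_filter.2
    ⟨Finset.mem_product.2 ⟨Finset.mem_image.2 ⟨(a, p), Finset.mem_product.2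
      ⟨Finset.mem_univ _, mem_words hu.1 (lt_of_sub hA hx)⟩, rfl⟩,
      Finset.mem_image.2 ⟨(b, q), Finset.mem_product.2
      ⟨Finset.mem_univ _, mem_words hv.1 (lt_of_sub hA hy)⟩, rfl⟩⟩, ?_⟩) ?_
  · rw [h1, h3]
    exact hne
  · rw [h2, h4] at hs
    exact Option.some.inj hs

end Pool.Agent.Lib.MP_342291_lc.E
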