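import Pool.Agent.Lib.MP_342291_lc.E.Basic

/-!
Block N: a good pair exists (dimension drop for term equations, Ackermann potential).
-/

namespace Pool.Agent.Lib.MP_342291_lc.E

namespace NB

section Pot

theorem ack_iter (k n y : ℕ) : (ack k)^[n] (ack (k + 1) y) = ack (k + 1) (y + n) := by
  induction n with
  | zero => rfl
  | succ n ih => rw [Function.iterate_succ_apply', ih, ← Nat.add_assoc, ack_succ_succ]

theorem iter_mono (k n : ℕ) : Monotone (ack k)^[n] := (ack_mono_right k).iterate n

theorem le_iter (k n y : ℕ) : y + n ≤ (ack k)^[n] y := by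
  induction n with
  | zero => simp
  | succ n ih =>
    rw [Function.iterate_succ_apply']
    have := lt_ack_right k ((ack k)^[n] y)
    omega

theorem iter_le_iter {k k' n n' y y' : ℕ} (hk : k ≤ k') (hn : n ≤ n') (hy : y ≤ y') :
    (ack k)^[n] y ≤ (ack k')^[n'] y' := by
  have h1 : (ack k)^[n] y ≤ (ack k')^[n] y' := by
    clear hn
    induction n with
    | zero => simpa
    | succ n ih =>
      rw [Function.iterate_succ_apply', Function.iterate_succ_apply']
      exact ack_le_ack hk ih
  obtain ⟨c, rfl⟩ := Nat.exists_eq_add_of_le hn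
  rw [Nat.add_comm, Function.iterate_add_apply]
  have := le_iter k' c ((ack k')^[n] y')
  omega

theorem iter_le_ack (k n y : ℕ) : (ack k)^[n] (y + 1) ≤ ack (k + 1) (y + n) := by
  rw [← ack_iter]
  exact iter_mono k n (lt_ack_right _ _)

/-- The potential of a list of labels, counting the labels below the level. -/
def pot (m : ℕ) (l : List ℕ) : ℕ → ℕ → ℕ
  | 0, z => z
  | n + 1, z => (ack (m + 3 * (n + 1)))^[l.count n] (pot m l n z)

theorem countP_succ (l : List ℕ) (n : ℕ) :
    l.countP (fun e => decide (e < n + 1)) = l.countP (fun e => decide (e < n)) + l.count n := by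
  induction l with
  | nil => simp
  | cons e l ih =>
    simp only [List.countP_cons, List.count_cons, ih, decide_eq_true_eq, beq_iff_eq]
    split_ifs <;> omega

theorem le_pot (m : ℕ) (l : List ℕ) (n z : ℕ) :
    z + l.countP (fun e => decide (e < n)) ≤ pot m l n z := by
  induction n with
  | zero => simp [pot]
  | succ n ih =>
    rw [countP_succ, pot]
    have := le_iter (m + 3 * (n + 1)) (l.count n) (pot m l n z)
    omega

theorem pot_le (m : ℕ) (l : List ℕ) (n z : ℕ) :
    pot m l n z ≤ (ack (m + 3 * n))^[l.countP (fun e => decide (e < n))] z := by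
  induction n with
  | zero => simp [pot]
  | succ n ih =>
    rw [countP_succ, pot, Nat.add_comm (List.countP _ _), Function.iterate_add_apply]
    exact iter_mono _ _ (ih.trans (iter_le_iter (by omega) le_rfl le_rfl))

theorem pot_step {m : ℕ} (hm : ∀ y, 2 * y + 2 ^ (y * y) < ack m y) (l₁ l₂ nw : List ℕ)
    (d z : ℕ) (h1 : ∀ e ∈ nw, e < d) (h2 : nw.length ≤ 2 ^ (z * z)) (n : ℕ) (hn : d < n) :
    pot m (nw ++ (l₁ ++ l₂)) n (z + 1) ≤ pot m (l₁ ++ d :: l₂) n z := by
  have h0 : ∀ e, d ≤ e → nw.count e = 0 := fun e he =>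
    List.count_eq_zero.2 fun h => by have := h1 e h; omega
  induction n, hn using Nat.le_induction with
  | base =>
    have hc : (l₁ ++ d :: l₂).count d = (nw ++ (l₁ ++ l₂)).count d + 1 := by
      simp [List.count_append, h0 d le_rfl]; omega
    rw [pot, pot, hc, Function.iterate_succ_apply]
    refine iter_mono _ _ ?_
    set y := pot m (l₁ ++ d :: l₂) d z with hy
    have h3 := le_pot m (l₁ ++ d :: l₂) d z
    rw [← hy] at h3
    have h4 : (nw ++ (l₁ ++ l₂)).countP (fun e => decide (e < d)) ≤ y + 2 ^ (y * y) := by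
      have h5 : 2 ^ (z * z) ≤ 2 ^ (y * y) :=
        Nat.pow_le_pow_right (by norm_num) (Nat.mul_le_mul (by omega) (by omega))
      have h6 := List.countP_le_length (p := fun e => decide (e < d)) (l := nw)
      simp only [List.countP_append, List.countP_cons] at h3 ⊢
      omega
    calc pot m (nw ++ (l₁ ++ l₂)) d (z + 1)
        ≤ (ack (m + 3 * d))^[y + 2 ^ (y * y)] (y + 1) :=
          (pot_le _ _ _ _).trans (iter_le_iter le_rfl h4 (by omega))
      _ ≤ ack (m + 3 * d + 1) (y + (y + 2 ^ (y * y))) := iter_le_ack _ _ _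
      _ ≤ ack (m + 3 * d + 1) (ack m y) := ack_le_ack le_rfl (by have := hm y; omega)
      _ ≤ ack (max (m + 3 * d + 1) m + 2) y := (ack_ack_lt_ack_max_add_two _ _ _).le
      _ ≤ ack (m + 3 * (d + 1)) y := ack_le_ack (by omega) le_rfl
  | succ n hn ih =>
    have hc : (l₁ ++ d :: l₂).count n = (nw ++ (l₁ ++ l₂)).count n := by
      have : ¬ d = n := by omega
      simp [List.count_append, h0 n (by omega), this]
    rw [pot, pot, hc]
    exact iter_mono _ _ ih

theorem exists_m : ∃ m, ∀ y, 2 * y + 2 ^ (y * y) < ack m y := by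
  refine exists_lt_ack_of_nat_primrec (Primrec.nat_iff.1 ?_)
  have hp : Primrec₂ fun a b : ℕ => a ^ b := Primrec₂.unpaired'.1 Nat.Primrec.pow
  exact Primrec.nat_add.comp (Primrec.nat_mul.comp (Primrec.const 2) Primrec.id)
    (hp.comp (Primrec.const 2) (Primrec.nat_mul.comp Primrec.id Primrec.id))

end Pot

section Dim

variable {F : Type} {ar : F → ℕ} {V W X : Type}

theorem subst_subst (ρ : W → Tm F ar X) (θ : V → Tm F ar W) (t : Tm F ar V) :
    Tm.subst ρ (Tm.subst θ t) = Tm.subst (fun v => Tm.subst ρ (θ v)) t := by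
  induction t with
  | var v => rfl
  | app f ts ih => simp only [Tm.subst, ih]

theorem subst_congr {ρ ρ' : V → Tm F ar W} {t : Tm F ar V}
    (h : ∀ v, Tm.Occurs v t → ρ v = ρ' v) : Tm.subst ρ t = Tm.subst ρ' t := by
  induction t with
  | var v => exact h v rfl
  | app f ts ih =>
    simp only [Tm.subst]
    congr 1
    funext i
    exact ih i fun v hv => h v ⟨i, hv⟩

theorem subst_ground (ρ : W → GT F ar) (u : GT F ar) :
    Tm.subst ρ (Tm.subst (fun v : Empty => v.elim) u) = u := by
  induction u with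
  | var v => exact v.elim
  | app f ts ih => simp only [Tm.subst, ih]

theorem size_occ {ρ : V → Tm F ar W} {v : V} {t : Tm F ar V} (h : Tm.Occurs v t) :
    size (ρ v) ≤ size (Tm.subst ρ t) := by
  induction t with
  | var w => obtain rfl : v = w := h; exact le_rfl
  | app f ts ih =>
    obtain ⟨i, hi⟩ := h
    exact (ih i hi).trans (size_child_lt (child_app f (fun i => Tm.subst ρ (ts i)) i)).le

/-- Every unifier of `s` and `t` binds one fixed variable to a term in the other variables. -/
def Binds (s t : Tm F ar W) : Prop :=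
  (∀ ρ : W → GT F ar, Tm.subst ρ s ≠ Tm.subst ρ t) ∨
    ∃ w r, ¬ Tm.Occurs w r ∧ ∀ ρ : W → GT F ar, Tm.subst ρ s = Tm.subst ρ t → ρ w = Tm.subst ρ r

theorem binds_var (w : W) (t : Tm F ar W) (h : Tm.var w ≠ t) : Binds (Tm.var w) t := by
  by_cases ho : Tm.Occurs w t
  · cases t with
    | var v => obtain rfl : w = v := ho; exact absurd rfl h
    | app f ts =>
      obtain ⟨i, hi⟩ := ho
      refine Or.inl fun ρ hρ => ?_
      have h1 := size_occ (ρ := ρ) hi
      have h2 := size_child_lt (child_app f (fun i => Tm.subst ρ (ts i)) i)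
      have h3 : size (ρ w) = size (Tm.app f fun i => Tm.subst ρ (ts i)) := congrArg size hρ
      omega
  · exact Or.inr ⟨w, t, ho, fun _ hρ => hρ⟩

theorem binds (s t : Tm F ar W) (h : s ≠ t) : Binds s t := by
  induction s generalizing t with
  | var w => exact binds_var w t h
  | app f ts ih =>
    cases t with
    | var w =>
      rcases binds_var w _ h.symm with h1 | ⟨v, r, h1, h2⟩
      · exact Or.inl fun ρ hρ => h1 ρ hρ.symm
      · exact Or.inr ⟨v, r, h1, fun ρ hρ => h2 ρ hρ.symm⟩
    | app g us =>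
      by_cases hfg : f = g
      · subst hfg
        obtain ⟨i, hi⟩ : ∃ i, ts i ≠ us i := by
          by_contra hcon
          push Not at hcon
          exact h (congrArg _ (funext hcon))
        have hinj : ∀ ρ : W → GT F ar, Tm.subst ρ (Tm.app f ts) = Tm.subst ρ (Tm.app f us) →
            Tm.subst ρ (ts i) = Tm.subst ρ (us i) := by
          intro ρ hρ
          simp only [Tm.subst, Tm.app.injEq, heq_eq_eq, true_and] at hρ
          exact congrFun hρ i
        rcases ih i (us i) hi with h1 | ⟨v, r, h1, h2⟩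
        · exact Or.inl fun ρ hρ => h1 ρ (hinj ρ hρ)
        · exact Or.inr ⟨v, r, h1, fun ρ hρ => h2 ρ (hinj ρ hρ)⟩
      · refine Or.inl fun ρ hρ => hfg ?_
        simp only [Tm.subst, Tm.app.injEq] at hρ
        exact hρ.1

/-- The points `c j`, `j ∈ S`, are values of one tuple of terms in at most `d` parameters. -/
def Dim (c : ℕ → V → GT F ar) (S : Set ℕ) (d : ℕ) : Prop :=
  ∃ (W : Type) (_ : Fintype W) (φ : V → Tm F ar W), Fintype.card W ≤ d ∧
    ∀ j ∈ S, ∃ ρ : W → GT F ar, ∀ v, c j v = Tm.subst ρ (φ v)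

theorem dim_drop {c : ℕ → V → GT F ar} {S : Set ℕ} {d i : ℕ} (h : Dim c S d) (hi : i ∈ S)
    {s t : Tm F ar V} (hne : Tm.subst (c i) s ≠ Tm.subst (c i) t)
    (hS : {j | j ∈ S ∧ Tm.subst (c j) s = Tm.subst (c j) t}.Nonempty) :
    0 < d ∧ Dim c {j | j ∈ S ∧ Tm.subst (c j) s = Tm.subst (c j) t} (d - 1) := by
  classical
  obtain ⟨W, _, φ, hW, hφ⟩ := h
  have hev : ∀ j (ρ : W → GT F ar), (∀ v, c j v = Tm.subst ρ (φ v)) → ∀ u : Tm F ar V,
      Tm.subst ρ (Tm.subst φ u) = Tm.subst (c j) u := by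
    intro j ρ hρ u
    rw [subst_subst]
    exact subst_congr fun v _ => (hρ v).symm
  have hst : Tm.subst φ s ≠ Tm.subst φ t := by
    intro h
    obtain ⟨ρ, hρ⟩ := hφ i hi
    exact hne (by rw [← hev i ρ hρ, ← hev i ρ hρ, h])
  obtain ⟨j0, hj0, hj0e⟩ := hS
  obtain ⟨ρ0, hρ0⟩ := hφ j0 hj0
  rcases binds _ _ hst with h1 | ⟨w, r, h1, h2⟩
  · exact absurd (by rw [hev j0 ρ0 hρ0, hev j0 ρ0 hρ0, hj0e]) (h1 ρ0)
  · have hlt : Fintype.card {x : W // x ≠ w} < Fintype.card W :=
      Fintype.card_subtype_lt (x := w) (by simp)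
    let θ0 : W → Tm F ar {x : W // x ≠ w} := fun x =>
      if hx : x = w then Tm.subst (fun v : Empty => v.elim) (ρ0 w) else Tm.var ⟨x, hx⟩
    let θ : W → Tm F ar {x : W // x ≠ w} := fun x =>
      if hx : x = w then Tm.subst θ0 r else Tm.var ⟨x, hx⟩
    refine ⟨by omega, {x : W // x ≠ w}, inferInstance, fun v => Tm.subst θ (φ v), by omega, ?_⟩
    rintro j ⟨hj, hje⟩
    obtain ⟨ρ, hρ⟩ := hφ j hj
    have h3 := h2 ρ (by rw [hev j ρ hρ, hev j ρ hρ, hje])
    refine ⟨fun x => ρ x.1, fun v => ?_⟩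
    rw [hρ v, subst_subst]
    refine subst_congr fun x _ => ?_
    by_cases hx : x = w
    · subst hx
      simp only [θ, dif_pos]
      rw [h3, subst_subst]
      refine subst_congr fun y hy => ?_
      have hyx : ¬ y = x := fun h => h1 (h ▸ hy)
      simp only [θ0, dif_neg hyx, Tm.subst]
    · simp only [θ, dif_neg hx, Tm.subst]

theorem dim_init {c : ℕ → V → GT F ar} (B0 : Finset V) {a : ℕ} (hB : B0.card ≤ a)
    (hc : ∀ v, v ∉ B0 → ∀ i j, c i v = c j v) (S : Set ℕ) : Dim c S a := by
  classical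
  refine ⟨B0, inferInstance, fun v => if hv : v ∈ B0 then Tm.var ⟨v, hv⟩
    else Tm.subst (fun v : Empty => v.elim) (c 0 v), by simpa using hB, fun j _ =>
    ⟨fun x => c j x.1, fun v => ?_⟩⟩
  by_cases hv : v ∈ B0
  · simp only [dif_pos hv, Tm.subst]
  · simp only [dif_neg hv]
    rw [subst_ground]
    exact hc v hv j 0

end Dim

end NB

open NB in
theorem nStmt : NStmt := by
  classical
  obtain ⟨m, hm⟩ := exists_m
  refine ⟨fun a => ack (m + 3 * (a + 1) + 1) (a + a), ?_, ?_⟩
  · exact computable₂_ack.comp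
      (Primrec.succ.comp (Primrec.nat_add.comp (Primrec.const m)
        (Primrec.nat_mul.comp (Primrec.const 3) Primrec.succ))).to_comp
      (Primrec.nat_add.comp Primrec.id Primrec.id).to_comp
  intro F ar V τ _ a c B0 ty E hB hτ hc hE hne
  set R := ack (m + 3 * (a + 1) + 1) (a + a) with hR
  by_contra hcon
  push Not at hcon
  have key : ∀ x, x ≤ R → ∃ l : List (ℕ × Set ℕ),
      (∀ g ∈ l, g.1 ≤ a ∧ Dim c g.2 g.1 ∧ ∀ j ∈ g.2, ∀ j' ∈ g.2, ty j = ty j') ∧
      (∀ j, x ≤ j → j ≤ R → ∃ g ∈ l, j ∈ g.2) ∧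
      pot m (l.map Prod.fst) (a + 1) (x + a + 1) ≤ R := by
    intro x
    induction x with
    | zero =>
      intro _
      refine ⟨(Finset.univ : Finset τ).toList.map fun t => (a, {j | ty j = t}), ?_, ?_, ?_⟩
      · intro g hg
        obtain ⟨t, -, rfl⟩ := List.mem_map.1 hg
        exact ⟨le_rfl, dim_init B0 hB hc _, fun j hj j' hj' => hj.trans hj'.symm⟩
      · exact fun j _ _ => ⟨_, List.mem_map.2 ⟨ty j, by simp, rfl⟩, rfl⟩
      · refine (pot_le _ _ _ _).trans ?_
        refine (iter_le_iter (n' := a) (y' := a + 1) le_rfl ?_ (by omega)).trans (iter_le_ack _ _ _)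
        refine List.countP_le_length.trans ?_
        simpa using hτ
    | succ x ih =>
      intro hx
      obtain ⟨l, h1, h2, h3⟩ := ih (by omega)
      obtain ⟨g, hg, hxg⟩ := h2 x le_rfl (by omega)
      obtain ⟨l₁, l₂, rfl⟩ := List.append_of_mem hg
      obtain ⟨g1, g2, g3⟩ := h1 g hg
      let Se : Tm F ar V × Tm F ar V → Set ℕ := fun e =>
        {j | j ∈ g.2 ∧ Tm.subst (c j) e.1 = Tm.subst (c j) e.2}
      let nw : List (ℕ × Set ℕ) :=
        ((E x).filter fun e => (Se e).Nonempty).toList.map fun e => (g.1 - 1, Se e)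
      have hnw : ∀ g' ∈ nw, g'.1 < g.1 ∧ Dim c g'.2 g'.1 ∧ g'.2 ⊆ g.2 := by
        intro g' hg'
        obtain ⟨e, he, rfl⟩ := List.mem_map.1 hg'
        obtain ⟨he1, he2⟩ := Finset.mem_filter.1 (Finset.mem_toList.1 he)
        obtain ⟨h4, h5⟩ := dim_drop g2 hxg (hne x e he1) he2
        exact ⟨by simp only; omega, h5, fun j hj => hj.1⟩
      refine ⟨nw ++ (l₁ ++ l₂), ?_, ?_, ?_⟩
      · intro g' hg'
        rcases List.mem_append.1 hg' with h | h
        · obtain ⟨h4, h5, h6⟩ := hnw g' h
          exact ⟨by omega, h5, fun j hj j' hj' => g3 j (h6 hj) j' (h6 hj')⟩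
        · refine h1 g' ?_
          simp only [List.mem_append, List.mem_cons] at h ⊢
          tauto
      · intro j hj hjR
        obtain ⟨g', hg', hjg⟩ := h2 j (by omega) hjR
        by_cases hgg : g' = g
        · subst hgg
          obtain ⟨e, he, hee⟩ := hcon x j (by omega) hjR (g3 x hxg j hjg)
          have hjS : j ∈ Se e := ⟨hjg, hee⟩
          exact ⟨(g'.1 - 1, Se e), List.mem_append_left _ (List.mem_map.2 ⟨e,
            Finset.mem_toList.2 (Finset.mem_filter.2 ⟨he, j, hjS⟩), rfl⟩), hjS⟩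
        · refine ⟨g', List.mem_append_right _ ?_, hjg⟩
          simp only [List.mem_append, List.mem_cons] at hg' ⊢
          tauto
      · refine le_trans ?_ h3
        simp only [List.map_append, List.map_cons]
        rw [show x + 1 + a + 1 = x + a + 1 + 1 by omega]
        refine pot_step hm _ _ _ _ _ ?_ ?_ _ (by omega)
        · intro e he
          obtain ⟨g', hg', rfl⟩ := List.mem_map.1 he
          exact (hnw g' hg').1
        · simp only [nw, List.length_map, Finset.length_toList]
          refine (Finset.card_filter_le _ _).trans ((hE x).trans ?_)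
          exact Nat.pow_le_pow_right (by norm_num) (Nat.mul_le_mul (by omega) (by omega))
  obtain ⟨l, -, -, h3⟩ := key R le_rfl
  have := le_pot m (l.map Prod.fst) (a + 1) (R + a + 1)
  omega

end Pool.Agent.Lib.MP_342291_lc.E
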