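import Pool.Agent.Lib.MP_342291_lc.E.Top
import Pool.Agent.Lib.MP_342291_lc.E.Edg
import Pool.Agent.Lib.MP_342291_lc.E.Fin
import Pool.Agent.Lib.MP_342291_lc.E.Good
import Pool.Agent.Lib.MP_342291_lc.E.N
import Pool.Agent.Lib.MP_342291_lc.E.Cls

/-!
The small model property, with all blocks plugged in.
-/

namespace Pool.Agent.Lib.MP_342291_lc.E

theorem smAll : SMStmt := smStmt edgStmt finStmt (goodStmt nStmt) clsStmt

end Pool.Agent.Lib.MP_342291_lc.E
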