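import Pool.Agent.Lib.MP_342291_lc.E.Defs

/-!
Basic facts on positions, labels, agreement off a position and one-step rewriting.
-/

namespace Pool.Agent.Lib.MP_342291_lc.E

variable {F : Type} {ar : F → ℕ} {V W : Type}

@[simp] theorem sub_nil (t : Tm F ar V) : sub t [] = some t := by cases t <;> rfl

theorem sub_cons (t : Tm F ar V) (i : ℕ) (p : List ℕ) :
    sub t (i :: p) = (child t i).bind fun u => sub u p := by cases t <;> rfl

theorem sub_append (t : Tm F ar V) (p q : List ℕ) :
    sub t (p ++ q) = (sub t p).bind fun u => sub u q := by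
  induction p generalizing t with
  | nil => simp
  | cons i p ih =>
    rw [List.cons_append, sub_cons, sub_cons]
    cases child t i with
    | none => rfl
    | some u => simpa using ih u

theorem sub_append_of {t u : Tm F ar V} {p : List ℕ} (h : sub t p = some u) (q : List ℕ) :
    sub t (p ++ q) = sub u q := by rw [sub_append, h]; rfl

theorem sub_single (t : Tm F ar V) (i : ℕ) : sub t [i] = child t i := by
  rw [sub_cons]; cases child t i <;> simp

theorem sub_cons_of {t u : Tm F ar V} {i : ℕ} (h : child t i = some u) (p : List ℕ) :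
    sub t (i :: p) = sub u p := by rw [sub_cons, h]; rfl

theorem sub_concat_of {t u : Tm F ar V} {p : List ℕ} (h : sub t p = some u) (i : ℕ) :
    sub t (p ++ [i]) = child u i := by rw [sub_append_of h, sub_single]

theorem exists_sub_prefix {t u : Tm F ar V} {p q : List ℕ} (h : sub t p = some u) (hq : q <+: p) :
    ∃ x, sub t q = some x := by
  obtain ⟨r, rfl⟩ := hq
  rw [sub_append] at h
  cases hx : sub t q with
  | none => simp [hx] at h
  | some x => exact ⟨x, rfl⟩

theorem sub_split {t u : Tm F ar V} {p q : List ℕ} (h : sub t (p ++ q) = some u) :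
    ∃ x, sub t p = some x ∧ sub x q = some u := by
  obtain ⟨x, hx⟩ := exists_sub_prefix h (List.prefix_append p q)
  exact ⟨x, hx, by rwa [sub_append_of hx] at h⟩

@[simp] theorem lab_nil (t : Tm F ar V) : lab t [] = hd t := by simp [lab]

theorem lab_of_sub {t u : Tm F ar V} {p : List ℕ} (h : sub t p = some u) : lab t p = hd u := by
  simp [lab, h]

theorem lab_append_of {t u : Tm F ar V} {p : List ℕ} (h : sub t p = some u) (q : List ℕ) :
    lab t (p ++ q) = lab u q := by simp [lab, sub_append_of h]

theorem lab_cons_of {t u : Tm F ar V} {i : ℕ} (h : child t i = some u) (q : List ℕ) :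
    lab t (i :: q) = lab u q := by simp [lab, sub_cons_of h]

theorem lab_cons_none {t : Tm F ar V} {i : ℕ} (h : child t i = none) (q : List ℕ) :
    lab t (i :: q) = none := by simp [lab, sub_cons, h]

theorem child_app (f : F) (ts : Fin (ar f) → Tm F ar V) (i : Fin (ar f)) :
    child (Tm.app f ts) i = some (ts i) := by simp [child]

theorem child_app_none (f : F) (ts : Fin (ar f) → Tm F ar V) {i : ℕ} (h : ¬ i < ar f) :
    child (Tm.app f ts) i = none := by simp [child, h]

theorem child_eq_some {t u : Tm F ar V} {i : ℕ} (h : child t i = some u) :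
    ∃ (f : F) (ts : Fin (ar f) → Tm F ar V) (hi : i < ar f), t = Tm.app f ts ∧ u = ts ⟨i, hi⟩ := by
  cases t with
  | var v => simp [child] at h
  | app f ts =>
    by_cases hi : i < ar f
    · refine ⟨f, ts, hi, rfl, ?_⟩
      simp [child, hi] at h
      exact h.symm
    · simp [child, hi] at h

theorem exists_app (u : GT F ar) : ∃ f ts, u = Tm.app f ts := by
  cases u with
  | var v => exact v.elim
  | app f ts => exact ⟨f, ts, rfl⟩

theorem lab_eq_none {t : GT F ar} {p : List ℕ} : lab t p = none ↔ sub t p = none := by
  cases h : sub t p with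
  | none => simp [lab, h]
  | some u =>
    obtain ⟨f, ts, rfl⟩ := exists_app u
    simp [lab, h, hd]

theorem exists_sub_of_lab {t u x : GT F ar} {p q : List ℕ} (h : lab t p = lab u q)
    (hx : sub u q = some x) : ∃ y, sub t p = some y ∧ hd y = hd x := by
  cases hy : sub t p with
  | none =>
    have h1 := lab_eq_none.2 hy
    rw [h, lab_eq_none, hx] at h1
    cases h1
  | some y => exact ⟨y, rfl, by rw [← lab_of_sub hy, h, lab_of_sub hx]⟩

theorem exists_child_of_hd {u v x : GT F ar} {i : ℕ} (h : hd u = hd v) (hx : child v i = some x) :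
    ∃ y, child u i = some y := by
  obtain ⟨f, ts, hi, rfl, -⟩ := child_eq_some hx
  obtain ⟨g, us, rfl⟩ := exists_app u
  obtain rfl : g = f := by simpa [hd] using h
  exact ⟨_, child_app g us ⟨i, hi⟩⟩

theorem ext_lab {u v : GT F ar} (h : ∀ ρ, lab u ρ = lab v ρ) : u = v := by
  induction u generalizing v with
  | var x => exact x.elim
  | app f ts ih =>
    obtain ⟨g, us, rfl⟩ := exists_app v
    obtain rfl : f = g := by simpa [hd] using h []
    congr 1
    funext i
    refine ih i fun ρ => ?_
    have := h (i :: ρ)
    rwa [lab_cons_of (child_app f ts i), lab_cons_of (child_app f us i)] at this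

theorem ext_child {u v : GT F ar} (h : hd u = hd v) (hc : ∀ i, child u i = child v i) : u = v := by
  obtain ⟨f, ts, rfl⟩ := exists_app u
  obtain ⟨g, us, rfl⟩ := exists_app v
  obtain rfl : f = g := by simpa [hd] using h
  congr 1
  funext i
  have := hc i
  rw [child_app, child_app] at this
  exact Option.some.inj this

theorem sub_eq_of_lab {u v : GT F ar} {p q : List ℕ}
    (h : ∀ r, lab u (p ++ r) = lab v (q ++ r)) : sub u p = sub v q := by
  have h0 := h []
  rw [List.append_nil, List.append_nil] at h0
  cases hx : sub v q with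
  | none => exact lab_eq_none.1 (h0.trans (lab_eq_none.2 hx))
  | some x =>
    obtain ⟨y, hy, -⟩ := exists_sub_of_lab h0 hx
    rw [hy]
    congr 1
    refine ext_lab fun r => ?_
    rw [← lab_append_of hy, h, lab_append_of hx]

theorem size_pos (t : Tm F ar V) : 0 < size t := by
  cases t <;> simp [size]

theorem size_child_lt {t u : Tm F ar V} {i : ℕ} (h : child t i = some u) : size u < size t := by
  obtain ⟨f, ts, hi, rfl, rfl⟩ := child_eq_some h
  have := Finset.single_le_sum (f := fun j => size (ts j)) (fun _ _ => Nat.zero_le _)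
    (Finset.mem_univ (⟨i, hi⟩ : Fin (ar f)))
  simp only [size]
  omega

theorem size_sub_le {t u : Tm F ar V} {p : List ℕ} (h : sub t p = some u) :
    size u + p.length ≤ size t := by
  induction p generalizing t with
  | nil => simp at h; simp [h]
  | cons i p ih =>
    rw [sub_cons] at h
    cases hc : child t i with
    | none => simp [hc] at h
    | some x =>
      rw [hc] at h
      have h1 := ih (t := x) h
      have h2 := size_child_lt hc
      simp only [List.length_cons]
      omega

theorem child_subst {t u : Tm F ar V} {i : ℕ} (c : V → Tm F ar W) (h : child t i = some u) :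
    child (Tm.subst c t) i = some (Tm.subst c u) := by
  obtain ⟨f, ts, hi, rfl, rfl⟩ := child_eq_some h
  simp [Tm.subst, child, hi]

theorem sub_subst {t u : Tm F ar V} {p : List ℕ} (c : V → Tm F ar W) (h : sub t p = some u) :
    sub (Tm.subst c t) p = some (Tm.subst c u) := by
  induction p generalizing t with
  | nil => simp at h; simp [h]
  | cons i p ih =>
    rw [sub_cons] at h
    cases hc : child t i with
    | none => simp [hc] at h
    | some x =>
      rw [hc] at h
      rw [sub_cons_of (child_subst c hc)]
      exact ih h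

theorem Agr.refl (u : GT F ar) (P : List ℕ) : Agr u u P := fun _ _ => rfl

theorem Agr.symm {u v : GT F ar} {P : List ℕ} (h : Agr u v P) : Agr v u P :=
  fun ρ hρ => (h ρ hρ).symm

theorem Agr.trans {u v w : GT F ar} {P : List ℕ} (h : Agr u v P) (h' : Agr v w P) : Agr u w P :=
  fun ρ hρ => (h ρ hρ).trans (h' ρ hρ)

theorem Agr.mono {u v : GT F ar} {P Q : List ℕ} (h : Agr u v P) (hQ : Q <+: P) : Agr u v Q :=
  fun ρ hρ => h ρ fun h' => hρ (hQ.trans h')

theorem agr_nil (u v : GT F ar) : Agr u v [] := fun _ h => absurd List.nil_prefix h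

theorem Agr.sub_eq {u v : GT F ar} {P p : List ℕ} (h : Agr u v P) (h1 : ¬ P <+: p)
    (h2 : ¬ p <+: P) : sub u p = sub v p :=
  sub_eq_of_lab fun r => h _ fun h' => by
    rcases List.prefix_or_prefix_of_prefix h' (List.prefix_append p r) with h3 | h3
    · exact h1 h3
    · exact h2 h3

theorem Agr.drop {u v x y : GT F ar} {q P : List ℕ} (h : Agr u v (q ++ P))
    (hx : sub u q = some x) (hy : sub v q = some y) : Agr x y P := fun ρ hρ => by
  rw [← lab_append_of hx, ← lab_append_of hy]
  exact h _ fun h' => hρ ((List.prefix_append_right_inj q).1 h')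

theorem Agr.lift {u v x y : GT F ar} {q P : List ℕ} (h : Agr u v q)
    (hx : sub u q = some x) (hy : sub v q = some y) (h' : Agr x y P) : Agr u v (q ++ P) :=
  fun ρ hρ => by
    by_cases hq : q <+: ρ
    · obtain ⟨r, rfl⟩ := hq
      rw [lab_append_of hx, lab_append_of hy]
      exact h' r fun h2 => hρ ((List.prefix_append_right_inj q).2 h2)
    · exact h ρ hq

theorem Agr.eq_of_sub {u v : GT F ar} {P : List ℕ} (h : Agr u v P) (h' : sub u P = sub v P) :
    u = v := ext_lab fun ρ => by
  by_cases hq : P <+: ρ
  · obtain ⟨r, rfl⟩ := hq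
    simp [lab, sub_append, h']
  · exact h ρ hq

theorem agr_cons {u v : GT F ar} {i : ℕ} {P : List ℕ} :
    Agr u v (i :: P) ↔ hd u = hd v ∧ (∀ j, j ≠ i → child u j = child v j) ∧
      ∀ x y, child u i = some x → child v i = some y → Agr x y P := by
  constructor
  · intro h
    refine ⟨by simpa using h [] (by simp), fun j hj => ?_, fun x y hx hy => ?_⟩
    · rw [← sub_single, ← sub_single]
      exact h.sub_eq (by simp [List.cons_prefix_cons, Ne.symm hj]) (by simp [List.cons_prefix_cons, hj])
    · exact Agr.drop (q := [i]) h (by rwa [sub_single]) (by rwa [sub_single])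
  · rintro ⟨h1, h2, h3⟩ ρ hρ
    cases ρ with
    | nil => simpa using h1
    | cons j ρ =>
      by_cases hj : j = i
      · subst hj
        cases hx : child u j with
        | none =>
          cases hy : child v j with
          | none => rw [lab_cons_none hx, lab_cons_none hy]
          | some y =>
            obtain ⟨x, hx'⟩ := exists_child_of_hd h1 hy
            rw [hx] at hx'
            cases hx'
        | some x =>
          obtain ⟨y, hy⟩ := exists_child_of_hd h1.symm hx
          rw [lab_cons_of hx, lab_cons_of hy]
          exact h3 x y hx hy ρ fun h' => hρ (by simpa [List.cons_prefix_cons] using h')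
      · simp [lab, sub_cons, h2 j hj]

theorem step_iff {R : Set (Tm F ar ℕ × Tm F ar ℕ)} {u v : GT F ar} :
    Step R u v ↔ ∃ P x y, sub u P = some x ∧ sub v P = some y ∧ Agr u v P ∧ Root R x y := by
  constructor
  · intro h
    induction h with
    | root l r σ h => exact ⟨[], _, _, sub_nil _, sub_nil _, agr_nil _ _, l, r, σ, h, rfl, rfl⟩
    | arg f ts i t _ ih =>
      obtain ⟨P, x, y, hx, hy, hA, hR⟩ := ih
      have hc : child (Tm.app f (Function.update ts i t)) i = some t := by
        rw [child_app]; simp
      refine ⟨i :: P, x, y, by rwa [sub_cons_of (child_app f ts i)], by rwa [sub_cons_of hc],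
        agr_cons.2 ⟨rfl, fun j hj => ?_, fun x' y' hx' hy' => ?_⟩, hR⟩
      · by_cases h : j < ar f
        · have h1 : (⟨j, h⟩ : Fin (ar f)) ≠ i := fun h' => hj (congrArg Fin.val h')
          have h2 := child_app f ts ⟨j, h⟩
          have h3 := child_app f (Function.update ts i t) ⟨j, h⟩
          rw [Function.update_of_ne h1] at h3
          exact h2.trans h3.symm
        · rw [child_app_none _ _ h, child_app_none _ _ h]
      · rw [child_app] at hx'
        rw [hc] at hy'
        cases hx'
        cases hy'
        exact hA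
  · rintro ⟨P, x, y, hx, hy, hA, l, r, σ, hlr, rfl, rfl⟩
    induction P generalizing u v with
    | nil =>
      simp only [sub_nil, Option.some.injEq] at hx hy
      subst hx hy
      exact Step.root l r σ hlr
    | cons i P ih =>
      obtain ⟨u', hu, hx'⟩ := sub_split (p := [i]) hx
      obtain ⟨v', hv, hy'⟩ := sub_split (p := [i]) hy
      rw [sub_single] at hu hv
      obtain ⟨h1, h2, h3⟩ := agr_cons.1 hA
      have hs := ih (h3 _ _ hu hv) hx' hy'
      obtain ⟨f, ts, hi, rfl, rfl⟩ := child_eq_some hu
      have hv' : v = Tm.app f (Function.update ts ⟨i, hi⟩ v') := by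
        refine ext_child h1.symm fun j => ?_
        by_cases hj : j = i
        · subst hj
          have := child_app f (Function.update ts ⟨j, hi⟩ v') ⟨j, hi⟩
          rw [Function.update_self] at this
          exact hv.trans this.symm
        · rw [← h2 j hj]
          by_cases h : j < ar f
          · have h4 : (⟨j, h⟩ : Fin (ar f)) ≠ ⟨i, hi⟩ := fun h' => hj (congrArg Fin.val h')
            have h5 := child_app f ts ⟨j, h⟩
            have h6 := child_app f (Function.update ts ⟨i, hi⟩ v') ⟨j, h⟩
            rw [Function.update_of_ne h4] at h6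
            exact h5.trans h6.symm
          · rw [child_app_none _ _ h, child_app_none _ _ h]
      rw [hv']
      exact Step.arg f ts ⟨i, hi⟩ v' hs

theorem Root.step {R : Set (Tm F ar ℕ × Tm F ar ℕ)} {u v : GT F ar} (h : Root R u v) :
    Step R u v := step_iff.2 ⟨[], u, v, sub_nil _, sub_nil _, agr_nil _ _, h⟩

theorem step_lift {R : Set (Tm F ar ℕ × Tm F ar ℕ)} {u v x y : GT F ar} {q : List ℕ}
    (h : Agr u v q) (hx : sub u q = some x) (hy : sub v q = some y) (hs : Step R x y) :
    Step R u v := by
  obtain ⟨P, x', y', hx', hy', hA, hR⟩ := step_iff.1 hs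
  exact step_iff.2 ⟨q ++ P, x', y', by rwa [sub_append_of hx], by rwa [sub_append_of hy],
    h.lift hx hy hA, hR⟩

@[simp] theorem walk_nil {K : Type} (δ : K → ℕ → Option K) (Γ : K) : walk δ Γ [] = some Γ := rfl

theorem walk_cons {K : Type} (δ : K → ℕ → Option K) (Γ : K) (i : ℕ) (p : List ℕ) :
    walk δ Γ (i :: p) = (δ Γ i).bind fun Γ' => walk δ Γ' p := rfl

theorem walk_append {K : Type} (δ : K → ℕ → Option K) (Γ : K) (p q : List ℕ) :
    walk δ Γ (p ++ q) = (walk δ Γ p).bind fun Γ' => walk δ Γ' q := by
  induction p generalizing Γ with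
  | nil => simp
  | cons i p ih =>
    rw [List.cons_append, walk_cons, walk_cons]
    cases δ Γ i with
    | none => rfl
    | some u => simpa using ih u

end Pool.Agent.Lib.MP_342291_lc.E
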