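import Pool.Agent.Lib.MP_342291_lc.E.Cut

/-!
Block Cls, first part: blocked words, the classes of upper subterms and the class graph.
-/

namespace Pool.Agent.Lib.MP_342291_lc.E

namespace Cls

open Classical

variable {F : Type} {ar : F → ℕ} {ι : Type}

/-- The blocked words of level `l`. -/
def Bl (E : Finset ι) (P : ι → List ℕ) (l : ℕ) : Finset (List ℕ) :=
  (E ×ˢ Finset.range (l + 1)).image fun x => (P x.1).drop x.2

variable {E : Finset ι} {P : ι → List ℕ}

theorem mem_Bl {l : ℕ} {β : List ℕ} : β ∈ Bl E P l ↔ ∃ e ∈ E, ∃ j, j ≤ l ∧ (P e).drop j = β := by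
  simp only [Bl, Finset.mem_image, Finset.mem_product, Finset.mem_range, Prod.exists]
  constructor
  · rintro ⟨e, j, ⟨he, hj⟩, h⟩
    exact ⟨e, he, j, by omega, h⟩
  · rintro ⟨e, he, j, hj, h⟩
    exact ⟨e, j, ⟨he, by omega⟩, h⟩

theorem card_Bl (l : ℕ) : (Bl E P l).card ≤ E.card * (l + 1) := by
  refine Finset.card_image_le.trans ?_
  rw [Finset.card_product, Finset.card_range]

theorem len_Bl {l L : ℕ} (hL : ∀ e ∈ E, L ≤ (P e).length) {β : List ℕ} (h : β ∈ Bl E P l) :
    L ≤ β.length + l := by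
  obtain ⟨e, he, j, hj, rfl⟩ := mem_Bl.1 h
  have := hL e he
  rw [List.length_drop]
  omega

/-- Similarity of level `l`. -/
def Rl (E : Finset ι) (P : ι → List ℕ) (l : ℕ) (u v : GT F ar) : Prop :=
  RB (Bl E P l : Set (List ℕ)) u v

theorem Rl.refl (l : ℕ) (u : GT F ar) : Rl E P l u u := fun _ _ => rfl

theorem Rl.symm {l : ℕ} {u v : GT F ar} (h : Rl E P l u v) : Rl E P l v u :=
  fun ρ hρ => (h ρ hρ).symm

theorem Rl.trans {l : ℕ} {u v w : GT F ar} (h : Rl E P l u v) (h' : Rl E P l v w) :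
    Rl E P l u w := fun ρ hρ => (h ρ hρ).trans (h' ρ hρ)

theorem Rl.mono {l l' : ℕ} {u v : GT F ar} (h : Rl E P l u v) (hl : l ≤ l') : Rl E P l' u v :=
  fun ρ hρ => h ρ fun β hβ => hρ β (by
    obtain ⟨e, he, j, hj, rfl⟩ := mem_Bl.1 hβ
    exact mem_Bl.2 ⟨e, he, j, hj.trans hl, rfl⟩)

theorem Rl.child {l i : ℕ} {u v x y : GT F ar} (h : Rl E P l u v) (hx : child u i = some x)
    (hy : child v i = some y) : Rl E P (l + 1) x y := fun ρ hρ => by
  rw [← lab_cons_of hx, ← lab_cons_of hy]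
  refine h _ fun β hβ hp => ?_
  obtain ⟨e, he, j, hj, rfl⟩ := mem_Bl.1 hβ
  refine hρ ((P e).drop (j + 1)) (mem_Bl.2 ⟨e, he, j + 1, by omega, rfl⟩) ?_
  rw [← List.tail_drop]
  generalize (P e).drop j = γ at hp
  cases γ with
  | nil => exact List.nil_prefix
  | cons a γ => exact (List.cons_prefix_cons.1 hp).2

theorem Rl.lab {l L : ℕ} {u v : GT F ar} (h : Rl E P l u v) (hL : ∀ e ∈ E, L ≤ (P e).length)
    {ρ : List ℕ} (hρ : ρ.length + l < L) : lab u ρ = lab v ρ :=
  h ρ fun β hβ hp => by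
    have h1 := len_Bl hL hβ
    have h2 := hp.length_le
    omega

theorem rl_of_agr {u v : GT F ar} {e : ι} (he : e ∈ E) (h : Agr u v (P e)) : Rl E P 0 u v :=
  fun ρ hρ => h ρ (hρ _ (mem_Bl.2 ⟨e, he, 0, le_rfl, rfl⟩))

theorem subs {A : ℕ} (hA : ∀ f, ar f ≤ A) (D : ℕ) : ∀ u : GT F ar, ∃ S : Finset (GT F ar),
    S.card ≤ (A + 1) ^ D ∧ ∀ x, x ∈ S ↔ ∃ p, sub u p = some x ∧ p.length ≤ D := by
  induction D with
  | zero =>
    intro u
    refine ⟨{u}, by simp, fun x => ?_⟩
    constructor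
    · intro h
      rw [Finset.mem_singleton.1 h]
      exact ⟨[], sub_nil _, le_rfl⟩
    · rintro ⟨p, hp, hl⟩
      obtain rfl : p = [] := List.length_eq_zero_iff.1 (by omega)
      simp only [sub_nil, Option.some.injEq] at hp
      simp [hp]
  | succ D ih =>
    intro u
    choose S hS hm using ih
    obtain ⟨f, ts, rfl⟩ := exists_app u
    refine ⟨insert (Tm.app f ts) (Finset.univ.biUnion fun i => S (ts i)), ?_, fun x => ?_⟩
    · refine (Finset.card_insert_le _ _).trans ?_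
      have h1 : (Finset.univ.biUnion fun i => S (ts i)).card ≤ ar f * (A + 1) ^ D := by
        refine Finset.card_biUnion_le.trans ?_
        have := Finset.sum_le_card_nsmul Finset.univ (fun i => (S (ts i)).card) _
          (fun i _ => hS (ts i))
        simpa using this
      have h2 : ar f * (A + 1) ^ D ≤ A * (A + 1) ^ D := Nat.mul_le_mul_right _ (hA f)
      have h3 : 0 < (A + 1) ^ D := Nat.pos_of_ne_zero (by positivity)
      have h4 : (A + 1) ^ (D + 1) = A * (A + 1) ^ D + (A + 1) ^ D := by ring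
      omega
    · rw [Finset.mem_insert, Finset.mem_biUnion]
      constructor
      · rintro (rfl | ⟨i, -, hi⟩)
        · exact ⟨[], sub_nil _, by simp⟩
        · obtain ⟨p, hp, hl⟩ := (hm _ _).1 hi
          exact ⟨i :: p, by rwa [sub_cons_of (child_app f ts i)], by simpa using hl⟩
      · rintro ⟨p, hp, hl⟩
        cases p with
        | nil =>
          simp only [sub_nil, Option.some.injEq] at hp
          exact Or.inl hp.symm
        | cons i p =>
          obtain ⟨y, hy, hy'⟩ := sub_split (p := [i]) hp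
          rw [sub_single] at hy
          obtain ⟨g, us, hi, he, rfl⟩ := child_eq_some hy
          cases he
          exact Or.inr ⟨⟨i, hi⟩, Finset.mem_univ _, (hm _ _).2 ⟨p, hy', by simpa using hl⟩⟩

/-- Subterms at depth at most `D`. -/
def Nd {k : ℕ} (t : Fin k → GT F ar) (D : ℕ) (u : GT F ar) : Prop :=
  ∃ a p, sub (t a) p = some u ∧ p.length ≤ D

/-- Subterms at depth less than `D`. -/
def Uu {k : ℕ} (t : Fin k → GT F ar) (D : ℕ) (u : GT F ar) : Prop :=
  ∃ a p, sub (t a) p = some u ∧ p.length < D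

variable {k D : ℕ} {t : Fin k → GT F ar}

theorem Uu.nd {u : GT F ar} (h : Uu t D u) : Nd t D u := by
  obtain ⟨a, p, hp, hl⟩ := h
  exact ⟨a, p, hp, hl.le⟩

theorem Uu.child {u x : GT F ar} {i : ℕ} (h : Uu t D u) (hx : child u i = some x) : Nd t D x := by
  obtain ⟨a, p, hp, hl⟩ := h
  exact ⟨a, p ++ [i], by rwa [sub_concat_of hp], by simpa using hl⟩

theorem nd_root (a : Fin k) : Nd t D (t a) := ⟨a, [], sub_nil _, by simp⟩

theorem nodes {A : ℕ} (hA : ∀ f, ar f ≤ A) (t : Fin k → GT F ar) (D : ℕ) :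
    ∃ S : Finset (GT F ar), S.card ≤ k * (A + 1) ^ D ∧ ∀ x, x ∈ S ↔ Nd t D x := by
  choose S hS hm using subs hA D
  refine ⟨Finset.univ.biUnion fun a => S (t a), ?_, fun x => ?_⟩
  · refine Finset.card_biUnion_le.trans ?_
    have := Finset.sum_le_card_nsmul Finset.univ (fun a => (S (t a)).card) _
      (fun a _ => hS (t a))
    simpa using this
  · simp only [Finset.mem_biUnion, Finset.mem_univ, true_and, hm, Nd]

theorem stable (S : Finset (GT F ar)) (E : Finset ι) (P : ι → List ℕ) :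
    ∃ l, l ≤ S.card ^ 2 ∧ ∀ u ∈ S, ∀ v ∈ S, Rl E P (l + 1) u v → Rl E P l u v := by
  by_contra hc
  push Not at hc
  let T : ℕ → Finset (GT F ar × GT F ar) := fun l => (S ×ˢ S).filter fun x => Rl E P l x.1 x.2
  have key : ∀ l, l ≤ S.card ^ 2 + 1 → l ≤ (T l).card := by
    intro l
    induction l with
    | zero => intro _; exact Nat.zero_le _
    | succ l ih =>
      intro hl
      obtain ⟨u, hu, v, hv, h1, h2⟩ := hc l (by omega)
      have hs : T l ⊂ T (l + 1) := by
        refine (Finset.ssubset_iff_of_subset fun x hx => ?_).2 ⟨(u, v), ?_, ?_⟩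
        · obtain ⟨hx1, hx2⟩ := Finset.mem_filter.1 hx
          exact Finset.mem_filter.2 ⟨hx1, hx2.mono (by omega)⟩
        · exact Finset.mem_filter.2 ⟨Finset.mem_product.2 ⟨hu, hv⟩, h1⟩
        · exact fun h => h2 (Finset.mem_filter.1 h).2
      have := Finset.card_lt_card hs
      have := ih (by omega)
      omega
  have h1 := key _ le_rfl
  have h2 : (T (S.card ^ 2 + 1)).card ≤ S.card * S.card := by
    rw [← Finset.card_product]
    exact Finset.card_filter_le _ _
  rw [pow_two] at h1 h2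
  omega

/-- The class graph. -/
structure CD (t : Fin k → GT F ar) (D : ℕ) (E : Finset ι) (P : ι → List ℕ) {K : Type}
    (δ : K → ℕ → Option K) (cl : GT F ar → K) (l0 : ℕ) : Prop where
  iff : ∀ u v, Nd t D u → Nd t D v → (cl u = cl v ↔ Rl E P l0 u v)
  surj : ∀ Γ, ∃ u, Nd t D u ∧ cl u = Γ
  dcl : ∀ u i x, Uu t D u → child u i = some x → δ (cl u) i = some (cl x)
  inv : ∀ Γ i Γ', δ Γ i = some Γ' → ∃ u x, Uu t D u ∧ cl u = Γ ∧ child u i = some x ∧ cl x = Γ'

theorem classes {A : ℕ} (hA : ∀ f, ar f ≤ A) (t : Fin k → GT F ar) (D : ℕ) (a0 : Fin k)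
    (E : Finset ι) (P : ι → List ℕ) :
    ∃ (K : Type) (_ : Fintype K) (δ : K → ℕ → Option K) (cl : GT F ar → K) (l0 : ℕ),
      Fintype.card K ≤ k * (A + 1) ^ D ∧ l0 ≤ (k * (A + 1) ^ D) ^ 2 ∧ CD t D E P δ cl l0 := by
  obtain ⟨S, hS, hm⟩ := nodes hA t D
  obtain ⟨l0, hl0, hst⟩ := stable S E P
  let q : GT F ar → GT F ar → Prop := fun u v => Rl E P l0 u v
  have hq : ∀ u v, q u = q v ↔ Rl E P l0 u v := fun u v =>
    ⟨fun h => (show q v v from Rl.refl _ _) |> (congrFun h v).mpr,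
      fun h => funext fun w => propext ⟨fun h' => h.symm.trans h', fun h' => h.trans h'⟩⟩
  let cl : GT F ar → {c // c ∈ S.image q} := fun u =>
    if h : u ∈ S then ⟨q u, Finset.mem_image_of_mem q h⟩
    else ⟨q (t a0), Finset.mem_image_of_mem q ((hm _).2 (nd_root a0))⟩
  have hcl : ∀ u, Nd t D u → (cl u).1 = q u := fun u hu => by
    simp only [cl, dif_pos ((hm u).2 hu)]
  have hiff : ∀ u v, Nd t D u → Nd t D v → (cl u = cl v ↔ Rl E P l0 u v) := fun u v hu hv => by
    rw [Subtype.ext_iff, hcl u hu, hcl v hv, hq]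
  let δ : {c // c ∈ S.image q} → ℕ → Option {c // c ∈ S.image q} := fun Γ i =>
    if h : ∃ y : GT F ar × GT F ar, Uu t D y.1 ∧ cl y.1 = Γ ∧ child y.1 i = some y.2
    then some (cl (choose h).2) else none
  refine ⟨{c // c ∈ S.image q}, inferInstance, δ, cl, l0, ?_, ?_, hiff, ?_, ?_, ?_⟩
  · rw [Fintype.card_coe]
    exact Finset.card_image_le.trans hS
  · exact hl0.trans (Nat.pow_le_pow_left hS 2)
  · rintro ⟨c, hc⟩
    obtain ⟨u, hu, rfl⟩ := Finset.mem_image.1 hc
    exact ⟨u, (hm u).1 hu, Subtype.ext (hcl u ((hm u).1 hu))⟩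
  · intro u i x hu hx
    have h : ∃ y : GT F ar × GT F ar, Uu t D y.1 ∧ cl y.1 = cl u ∧ child y.1 i = some y.2 :=
      ⟨(u, x), hu, rfl, hx⟩
    obtain ⟨h1, h2, h3⟩ := choose_spec h
    simp only [δ, dif_pos h]
    congr 1
    have h4 := (hiff _ _ h1.nd hu.nd).1 h2
    exact (hiff _ _ (h1.child h3) (hu.child hx)).2
      (hst _ ((hm _).2 (h1.child h3)) _ ((hm _).2 (hu.child hx)) (h4.child h3 hx))
  · intro Γ i Γ' h
    simp only [δ] at h
    split_ifs at h with h'
    obtain ⟨h1, h2, h3⟩ := choose_spec h'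
    exact ⟨_, _, h1, h2, h3, Option.some.inj h⟩

variable {K : Type} {δ : K → ℕ → Option K} {cl : GT F ar → K} {l0 L : ℕ}

/-- The term `u` is similar to all the nodes of the class `Γ`. -/
def Has (t : Fin k → GT F ar) (D : ℕ) (E : Finset ι) (P : ι → List ℕ) (cl : GT F ar → K) (Γ : K)
    (l : ℕ) (u : GT F ar) : Prop := ∀ ν, Nd t D ν → cl ν = Γ → Rl E P l u ν

theorem Has.mono {Γ : K} {l l' : ℕ} {u : GT F ar} (h : Has t D E P cl Γ l u) (hl : l ≤ l') :
    Has t D E P cl Γ l' u := fun ν h1 h2 => (h ν h1 h2).mono hl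

theorem CD.has (h : CD t D E P δ cl l0) {u : GT F ar} (hu : Nd t D u) :
    Has t D E P cl (cl u) l0 u := fun ν h1 h2 => (h.iff u ν hu h1).1 h2.symm

theorem CD.go (h : CD t D E P δ cl l0) (hL : ∀ e ∈ E, L ≤ (P e).length) :
    ∀ (p : List ℕ) (Γ Γ' : K) (l : ℕ) (u : GT F ar), l0 ≤ l → l + p.length ≤ L →
      Has t D E P cl Γ l u → walk δ Γ p = some Γ' →
      ∃ x, sub u p = some x ∧ Has t D E P cl Γ' (l + p.length) x := by
  intro p
  induction p with
  | nil =>
    intro Γ Γ' l u _ _ hu hw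
    obtain rfl : Γ = Γ' := Option.some.inj hw
    exact ⟨u, sub_nil _, hu⟩
  | cons i p ih =>
    intro Γ Γ' l u hl hp hu hw
    rw [List.length_cons] at hp
    rw [walk_cons] at hw
    cases hδ : δ Γ i with
    | none => rw [hδ] at hw; cases hw
    | some Γ1 =>
      rw [hδ] at hw
      obtain ⟨v, y, hv, rfl, hy, rfl⟩ := h.inv _ _ _ hδ
      have hR := hu v hv.nd rfl
      have hh : hd u = hd v := by
        have := hR.lab hL (ρ := []) (by simp; omega)
        simpa using this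
      obtain ⟨x, hx⟩ := exists_child_of_hd hh hy
      have hx' : Has t D E P cl (cl y) (l + 1) x := fun ν h1 h2 =>
        (hR.child hx hy).trans ((h.has (hv.child hy) ν h1 h2).mono (by omega))
      obtain ⟨z, hz, hz'⟩ := ih _ _ (l + 1) x (by omega) (by omega) hx' hw
      refine ⟨z, by rwa [sub_cons_of hx], ?_⟩
      rw [List.length_cons]
      exact hz'.mono (by omega)

theorem CD.reach (h : CD t D E P δ cl l0) (a : Fin k) : ∀ (p : List ℕ) (u : GT F ar),
    sub (t a) p = some u → p.length ≤ D → walk δ (cl (t a)) p = some (cl u) := by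
  intro p
  induction p using List.reverseRecOn with
  | nil =>
    intro u hu _
    simp only [sub_nil, Option.some.injEq] at hu
    rw [hu]
    rfl
  | append_singleton p i ih =>
    intro u hu hl
    obtain ⟨x, hx, hx'⟩ := sub_split hu
    rw [sub_single] at hx'
    simp only [List.length_append, List.length_singleton] at hl
    rw [walk_append, ih x hx (by omega)]
    simp only [Option.bind_some, walk_cons]
    rw [h.dcl x i u ⟨a, p, hx, by omega⟩ hx']
    rfl

theorem exists_first {Γ Γ0 : K} : ∀ (m : ℕ) (p : List ℕ), p.length ≤ m → walk δ Γ p = some Γ0 →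
    ∃ ρ, First δ Γ0 Γ ρ := by
  intro m
  induction m with
  | zero =>
    intro p hp hw
    refine ⟨p, hw, fun q hq hne => absurd (hq.eq_of_length_le (by omega)) hne⟩
  | succ m ih =>
    intro p hp hw
    by_cases h : ∃ q, q <+: p ∧ q ≠ p ∧ walk δ Γ q = some Γ0
    · obtain ⟨q, hq, hne, hq'⟩ := h
      refine ih q ?_ hq'
      have h1 := hq.length_le
      have h2 : q.length ≠ p.length := fun h' => hne (hq.eq_of_length h')
      omega
    · exact ⟨p, hw, fun q hq hne hq' => h ⟨q, hq, hne, hq'⟩⟩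

theorem CD.ex (h : CD t D E P δ cl l0) (Γ0 : K) : ∃ a ρ, First δ Γ0 (cl (t a)) ρ := by
  obtain ⟨u, ⟨a, p, hp, hl⟩, rfl⟩ := h.surj Γ0
  exact ⟨a, exists_first _ p le_rfl (h.reach a p u hp hl)⟩

theorem mSeq_mono (D : ℕ) (w : ℕ → ℕ) : Monotone (mSeq D w) :=
  monotone_nat_of_le_succ fun r => by simp only [mSeq]; omega

/-- Some window is left by no blocked word. -/
theorem window (D : ℕ) (w : ℕ → ℕ) (Wt : ℕ → List ℕ) (hW : ∀ x y, x ≤ y → Wt x <+: Wt y)
    (B : Finset (List ℕ)) (c : ℕ) (hc : B.card ≤ c) :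
    ∃ M, D ≤ M ∧ M + w M + 2 ≤ mSeq D w (c + 1) ∧
      ∀ β ∈ B, Wt M <+: β → Wt (M + w M + 1) <+: β := by
  by_contra hn
  have hb : ∀ r : ℕ, r ≤ c → ∃ β ∈ B, Wt (mSeq D w r) <+: β ∧
      ¬ Wt (mSeq D w r + w (mSeq D w r) + 1) <+: β := by
    intro r hr
    by_contra h
    push Not at h
    exact hn ⟨mSeq D w r, mSeq_mono D w (Nat.zero_le r), mSeq_mono D w (Nat.succ_le_succ hr), h⟩
  choose! f hf h1 h2 using hb
  have key : ∀ r r', r < r' → r' ≤ c → f r ≠ f r' := by
    intro r r' hlt hr' he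
    refine h2 r (by omega) ((hW _ _ ?_).trans (he ▸ h1 r' hr'))
    have : mSeq D w (r + 1) ≤ mSeq D w r' := mSeq_mono D w hlt
    simp only [mSeq] at this
    omega
  obtain ⟨r, hr, r', hr', hne, he⟩ := Finset.exists_ne_map_eq_of_card_lt_of_maps_to
    (s := Finset.range (c + 1)) (t := B) (f := f) (by simp; omega)
    (fun r hr => hf r (by simpa [Nat.lt_succ_iff] using hr))
  simp only [Finset.mem_range] at hr hr'
  rcases lt_or_gt_of_ne hne with h | h
  · exact key r r' h (by omega) he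
  · exact key r' r h (by omega) he.symm

end Cls

end Pool.Agent.Lib.MP_342291_lc.E
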