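import Mathlib

/-!
Quantifier-free formulas in the language with equality and one binary relation symbol.
-/

namespace Pool.Agent.Lib.MP_342291_lc

/-- Quantifier-free formulas: atoms `x_i = x_j` and `x_i → x_j`, connectives `¬`, `∧`, `∨`. -/
inductive QF : Type
  | eq : ℕ → ℕ → QF
  | rel : ℕ → ℕ → QF
  | not : QF → QF
  | and : QF → QF → QF
  | or : QF → QF → QF

/-- Tarski semantics in the structure `(M, r)` under the assignment `v`. -/
def QF.Holds {M : Type} (r : M → M → Prop) (v : ℕ → M) : QF → Prop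
  | .eq i j => v i = v j
  | .rel i j => r (v i) (v j)
  | .not φ => ¬ QF.Holds r v φ
  | .and φ ψ => QF.Holds r v φ ∧ QF.Holds r v ψ
  | .or φ ψ => QF.Holds r v φ ∨ QF.Holds r v ψ

/-- Goedel number of a formula, built with the pairing function `Nat.pair`. -/
def QF.code : QF → ℕ
  | .eq i j => Nat.pair 0 (Nat.pair i j)
  | .rel i j => Nat.pair 1 (Nat.pair i j)
  | .not φ => Nat.pair 2 (QF.code φ)
  | .and φ ψ => Nat.pair 3 (Nat.pair (QF.code φ) (QF.code ψ))
  | .or φ ψ => Nat.pair 4 (Nat.pair (QF.code φ) (QF.code ψ))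

end Pool.Agent.Lib.MP_342291_lc
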