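import Pool.Agent.Lib.MP_342291_lc.E.Basic
import Pool.Agent.Lib.MP_342291_lc.E.QF

/-!
From the small model property to a decision procedure: brute force over codes of ground terms
of bounded height.
-/

namespace Pool.Agent.Lib.MP_342291_lc.E.Cp

variable {F : Type} {ar : F → ℕ}

def mk (a : ℕ) (l : List ℕ) : ℕ := Nat.pair a (Encodable.encode l)

lemma mk_inj {a b : ℕ} {l m : List ℕ} (h : mk a l = mk b m) : a = b ∧ l = m := by
  have := Nat.pair_eq_pair.1 h
  exact ⟨this.1, Encodable.encode_injective this.2⟩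

lemma pr_mk : Primrec₂ mk :=
  Primrec₂.natPair.comp Primrec.fst (Primrec.encode.comp Primrec.snd)

def cd (e : F → ℕ) : GT F ar → ℕ
  | .var x => x.elim
  | .app f ts => mk (e f) (List.ofFn fun i => cd e (ts i))

lemma cd_inj {e : F → ℕ} (he : Function.Injective e) (s : GT F ar) :
    ∀ t, cd e s = cd e t → s = t := by
  induction s with
  | var x => exact x.elim
  | app f ts ih =>
    intro t h
    cases t with
    | var x => exact x.elim
    | app g us =>
      obtain ⟨h1, h2⟩ := mk_inj h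
      obtain rfl := he h1
      have h3 := List.ofFn_injective h2
      congr 1
      funext i
      exact ih i _ (congrFun h3 i)

def cs (e : F → ℕ) : Tm F ar ℕ → List ℕ → ℕ
  | .var x, ρ => ρ.getD x 0
  | .app f ts, ρ => mk (e f) (List.ofFn fun i => cs e (ts i) ρ)

lemma pr_cs (e : F → ℕ) (t : Tm F ar ℕ) : Primrec (cs e t) := by
  induction t with
  | var x => exact (Primrec.list_getD 0).comp Primrec.id (Primrec.const x)
  | app f ts ih => exact pr_mk.comp (Primrec.const _) (Primrec.list_ofFn ih)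

lemma cs_eq (e : F → ℕ) (σ : ℕ → GT F ar) (ρ : List ℕ) (t : Tm F ar ℕ)
    (h : ∀ x, t.Occurs x → ρ.getD x 0 = cd e (σ x)) : cs e t ρ = cd e (t.subst σ) := by
  induction t with
  | var x => exact h x rfl
  | app f ts ih =>
    simp only [cs, Tm.subst, cd]
    congr 2
    funext i
    exact ih i fun x hx => h x ⟨i, hx⟩

lemma subst_congr {σ τ : ℕ → GT F ar} (t : Tm F ar ℕ) (h : ∀ x, t.Occurs x → σ x = τ x) :
    t.subst σ = t.subst τ := by
  induction t with
  | var x => exact h x rfl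
  | app f ts ih =>
    simp only [Tm.subst]
    congr 1
    funext i
    exact ih i fun x hx => h x ⟨i, hx⟩

lemma exists_nv (t : Tm F ar ℕ) : ∃ n, ∀ x, t.Occurs x → x < n := by
  induction t with
  | var y => exact ⟨y + 1, fun x hx => by obtain rfl : x = y := hx; omega⟩
  | app f ts ih =>
    choose n hn using ih
    refine ⟨∑ i, n i, ?_⟩
    rintro x ⟨i, hx⟩
    exact (hn i x hx).trans_le
      (Finset.single_le_sum (f := n) (fun _ _ => Nat.zero_le _) (Finset.mem_univ i))

/-! ### tuples and tables -/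

def tup : ℕ → List ℕ → List (List ℕ)
  | 0, _ => [[]]
  | n + 1, l => l.flatMap fun a => (tup n l).map (a :: ·)

lemma mem_tup {l : List ℕ} : ∀ {n : ℕ} {x : List ℕ},
    x ∈ tup n l ↔ x.length = n ∧ ∀ a ∈ x, a ∈ l
  | 0, x => by
    simp only [tup, List.mem_singleton, List.length_eq_zero_iff]
    exact ⟨fun h => by simp [h], fun h => h.1⟩
  | n + 1, x => by
    simp only [tup, List.mem_flatMap, List.mem_map, mem_tup (n := n)]
    constructor
    · rintro ⟨a, ha, y, ⟨h1, h2⟩, rfl⟩
      refine ⟨by simp [h1], fun b hb => ?_⟩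
      rcases List.mem_cons.1 hb with rfl | hb
      exacts [ha, h2 b hb]
    · rintro ⟨h1, h2⟩
      cases x with
      | nil => simp at h1
      | cons a y =>
        exact ⟨a, h2 a (by simp), y, ⟨by simpa using h1, fun b hb => h2 b (by simp [hb])⟩, rfl⟩

lemma pr_tup : Primrec₂ tup := by
  have h : Primrec fun p : ℕ × List ℕ => (Nat.rec [[]]
      (fun _ ih => p.2.flatMap fun a => ih.map (a :: ·)) p.1 : List (List ℕ)) := by
    refine Primrec.nat_rec'
      (h := fun (p : ℕ × List ℕ) (w : ℕ × List (List ℕ)) => p.2.flatMap fun a => w.2.map (a :: ·))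
      Primrec.fst (Primrec.const _) ?_
    refine Primrec.list_flatMap (Primrec.snd.comp Primrec.fst) ?_
    refine Primrec.list_map (Primrec.snd.comp (Primrec.snd.comp Primrec.fst)) ?_
    exact Primrec.list_cons.comp (Primrec.snd.comp Primrec.fst) Primrec.snd
  refine h.of_eq ?_
  rintro ⟨n, l⟩
  induction n with
  | zero => rfl
  | succ n ih => simp only [tup, ← ih]

def tb (Fs : List (ℕ × ℕ)) : ℕ → List ℕ
  | 0 => []
  | n + 1 => Fs.flatMap fun f => (tup f.2 (tb Fs n)).map (mk f.1)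

lemma pr_tb (Fs : List (ℕ × ℕ)) : Primrec (tb Fs) := by
  have h : Primrec fun n : ℕ => (Nat.rec []
      (fun _ ih => Fs.flatMap fun f => (tup f.2 ih).map (mk f.1)) n : List ℕ) := by
    refine Primrec.nat_rec' (h := fun _ w => Fs.flatMap fun f => (tup f.2 w.2).map (mk f.1))
      Primrec.id (Primrec.const _) ?_
    refine Primrec.list_flatMap (Primrec.const _) ?_
    refine Primrec.list_map
      (pr_tup.comp (Primrec.snd.comp Primrec.snd) (Primrec.snd.comp (Primrec.snd.comp Primrec.fst))) ?_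
    exact pr_mk.comp (Primrec.fst.comp (Primrec.snd.comp Primrec.fst)) Primrec.snd
  refine h.of_eq fun n => ?_
  induction n with
  | zero => rfl
  | succ n ih => simp only [tb, ← ih]

def rt (e : F → ℕ) (Rl : List (Tm F ar ℕ × Tm F ar ℕ)) (nv : ℕ) (T : List ℕ) : List (ℕ × ℕ) :=
  (tup nv T).flatMap fun ρ => Rl.map fun p => (cs e p.1 ρ, cs e p.2 ρ)

lemma pr_rt (e : F → ℕ) (Rl : List (Tm F ar ℕ × Tm F ar ℕ)) (nv : ℕ) : Primrec (rt e Rl nv) := by
  have h : Primrec fun ρ : List ℕ => Rl.map fun p => (cs e p.1 ρ, cs e p.2 ρ) := by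
    induction Rl with
    | nil => exact Primrec.const _
    | cons p Rl ih => exact Primrec.list_cons.comp ((pr_cs e p.1).pair (pr_cs e p.2)) ih
  exact Primrec.list_flatMap (pr_tup.comp (Primrec.const _) Primrec.id) (h.comp Primrec.snd)

def up (Fs : List (ℕ × ℕ)) (T : List ℕ) (S : List (ℕ × ℕ)) : List (ℕ × ℕ) :=
  Fs.flatMap fun f => (tup f.2 T).flatMap fun zs => (List.range f.2).flatMap fun d =>
    S.map fun p => (mk f.1 (zs.set d p.1), mk f.1 (zs.set d p.2))

lemma pr_up (Fs : List (ℕ × ℕ)) : Primrec₂ (up Fs) := by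
  have hs : ∀ {α : Type} [Primcodable α] {l : α → List ℕ} {d a : α → ℕ}, Primrec l → Primrec d →
      Primrec a → Primrec fun x => (l x).set (d x) (a x) := fun hl hd ha =>
    Primrec.list_set.comp hl (hd.pair ha)
  refine Primrec.list_flatMap (Primrec.const _) ?_
  refine Primrec.list_flatMap
    (pr_tup.comp (Primrec.snd.comp Primrec.snd) (Primrec.fst.comp Primrec.fst)) ?_
  refine Primrec.list_flatMap
    (Primrec.list_range.comp (Primrec.snd.comp (Primrec.snd.comp Primrec.fst))) ?_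
  refine Primrec.list_map
    (Primrec.snd.comp (Primrec.fst.comp (Primrec.fst.comp Primrec.fst))) ?_
  have hf : Primrec fun x : ((((List ℕ × List (ℕ × ℕ)) × ℕ × ℕ) × List ℕ) × ℕ) × ℕ × ℕ =>
      x.1.1.1.2.1 :=
    Primrec.fst.comp (Primrec.snd.comp (Primrec.fst.comp (Primrec.fst.comp Primrec.fst)))
  have hz : Primrec fun x : ((((List ℕ × List (ℕ × ℕ)) × ℕ × ℕ) × List ℕ) × ℕ) × ℕ × ℕ =>
      x.1.1.2 := Primrec.snd.comp (Primrec.fst.comp Primrec.fst)
  have hd : Primrec fun x : ((((List ℕ × List (ℕ × ℕ)) × ℕ × ℕ) × List ℕ) × ℕ) × ℕ × ℕ =>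
      x.1.2 := Primrec.snd.comp Primrec.fst
  exact (pr_mk.comp hf (hs hz hd (Primrec.fst.comp Primrec.snd))).pair
    (pr_mk.comp hf (hs hz hd (Primrec.snd.comp Primrec.snd)))

def sp (Fs : List (ℕ × ℕ)) (T : List ℕ) (S0 : List (ℕ × ℕ)) : ℕ → List (ℕ × ℕ)
  | 0 => S0
  | j + 1 => S0 ++ up Fs T (sp Fs T S0 j)

lemma pr_sp (Fs : List (ℕ × ℕ)) {α : Type} [Primcodable α] {T : α → List ℕ}
    {S : α → List (ℕ × ℕ)} {j : α → ℕ} (hT : Primrec T) (hS : Primrec S) (hj : Primrec j) :
    Primrec fun a => sp Fs (T a) (S a) (j a) := by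
  have h : Primrec fun a : α => (Nat.rec (S a)
      (fun _ ih => S a ++ up Fs (T a) ih) (j a) : List (ℕ × ℕ)) := by
    refine Primrec.nat_rec' (h := fun a w => S a ++ up Fs (T a) w.2) hj hS ?_
    exact Primrec.list_append.comp (hS.comp Primrec.fst)
      ((pr_up Fs).comp (hT.comp Primrec.fst) (Primrec.snd.comp Primrec.snd))
  refine h.of_eq fun a => ?_
  induction j a with
  | zero => rfl
  | succ n ih => simp only [sp, ← ih]

/-! ### heights -/

lemma ht_child {f : F} {ts : Fin (ar f) → GT F ar} {n : ℕ} (h : Ht (Tm.app f ts) n)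
    (i : Fin (ar f)) : ∃ m, n = m + 1 ∧ Ht (ts i) m := by
  have h1 : ∀ p u, sub (ts i) p = some u → p.length + 1 ≤ n := fun p u hp =>
    h (i.1 :: p) u (by simp [sub, child, hp])
  have h2 := h1 [] _ rfl
  refine ⟨n - 1, by simp at h2; omega, fun p u hp => ?_⟩
  have := h1 p u hp
  omega

lemma ht_mono {t : GT F ar} {n m : ℕ} (h : Ht t n) (hm : n ≤ m) : Ht t m :=
  fun p u hp => (h p u hp).trans hm

lemma ht_var {σ : ℕ → GT F ar} {x n : ℕ} (t : Tm F ar ℕ) (hx : t.Occurs x)
    (h : Ht (t.subst σ) n) : Ht (σ x) n := by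
  induction t with
  | var y => obtain rfl : x = y := hx; exact h
  | app f ts ih =>
    obtain ⟨i, hi⟩ := hx
    obtain ⟨m, rfl, hm⟩ := ht_child (ts := fun i => (ts i).subst σ) h i
    exact ih i hi (ht_mono hm (Nat.le_succ m))

section tables
variable {e : F → ℕ} {Fs : List (ℕ × ℕ)} (hF : ∀ p, p ∈ Fs ↔ ∃ f, p = (e f, ar f))
include hF

lemma tb_complete (t : GT F ar) : ∀ n, Ht t n → cd e t ∈ tb Fs (n + 1) := by
  induction t with
  | var x => exact x.elim
  | app f ts ih =>
    intro n h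
    simp only [tb, List.mem_flatMap, List.mem_map]
    refine ⟨(e f, ar f), (hF _).2 ⟨f, rfl⟩, _, mem_tup.2 ⟨by simp, fun a ha => ?_⟩, rfl⟩
    obtain ⟨i, rfl⟩ := List.mem_ofFn.1 ha
    obtain ⟨m, rfl, hm⟩ := ht_child h i
    exact ih i m hm

omit hF in
lemma tup_terms {T : List ℕ} (hT : ∀ a ∈ T, ∃ t : GT F ar, a = cd e t) {n : ℕ} {x : List ℕ}
    (hx : x ∈ tup n T) : ∃ ts : Fin n → GT F ar, x = List.ofFn fun i => cd e (ts i) := by
  obtain ⟨rfl, h2⟩ := mem_tup.1 hx
  choose ts hts using fun i : Fin x.length => hT _ (h2 _ (List.get_mem x i))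
  exact ⟨ts, by simp only [← hts]; exact (List.ofFn_get x).symm⟩

lemma tb_sound : ∀ n, ∀ a ∈ tb Fs n, ∃ t : GT F ar, a = cd e t
  | 0 => by simp [tb]
  | n + 1 => by
    intro a ha
    simp only [tb, List.mem_flatMap, List.mem_map] at ha
    obtain ⟨p, hp, x, hx, rfl⟩ := ha
    obtain ⟨f, rfl⟩ := (hF p).1 hp
    obtain ⟨ts, rfl⟩ := tup_terms (tb_sound n) hx
    exact ⟨.app f ts, rfl⟩

omit hF in
lemma tb_ht (t : GT F ar) :
    ∀ n, cd e t ∈ tb Fs (n + 1) → Ht t n := by
  induction t with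
  | var x => exact x.elim
  | app f ts ih =>
    intro n h
    rw [tb] at h
    simp only [List.mem_flatMap, List.mem_map] at h
    obtain ⟨g, -, x, hx, h⟩ := h
    obtain ⟨-, rfl⟩ := mk_inj h
    have h2 := (mem_tup.1 hx).2
    intro p u hp
    cases p with
    | nil => simp
    | cons i p =>
      by_cases hi : i < ar f
      · have h3 := h2 _ (List.mem_ofFn.2 ⟨⟨i, hi⟩, rfl⟩)
        cases n with
        | zero => simp [tb] at h3
        | succ n =>
          have := ih _ n h3 p u (by simpa [sub, child, hi] using hp)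
          simpa using this
      · simp [sub, child, hi] at hp

omit hF in
lemma set_ofFn {n : ℕ} (ts : Fin n → GT F ar) (i : Fin n) (u : GT F ar) :
    (List.ofFn fun j => cd e (ts j)).set i (cd e u) =
      List.ofFn fun j => cd e (Function.update ts i u j) := by
  apply List.ext_getElem (by simp)
  intro j h1 h2
  simp only [List.getElem_set, List.getElem_ofFn]
  split_ifs with h
  · subst h; simp
  · rw [Function.update_of_ne (fun h' => h (by rw [← h']))]

variable {R : Set (Tm F ar ℕ × Tm F ar ℕ)} {Rl : List (Tm F ar ℕ × Tm F ar ℕ)} {nv : ℕ}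
  (hR : ∀ p, p ∈ Rl ↔ p ∈ R) (hrule : ∀ p ∈ R, IsRule p.1 p.2)
  (hnv : ∀ p ∈ R, ∀ x, p.1.Occurs x → x < nv)
include hR hrule hnv

lemma sp_sound {T : List ℕ} (hT : ∀ a ∈ T, ∃ t : GT F ar, a = cd e t) :
    ∀ j, ∀ p ∈ sp Fs T (rt e Rl nv T) j,
      ∃ s t : GT F ar, p = (cd e s, cd e t) ∧ Step R s t := by
  have h0 : ∀ p ∈ rt e Rl nv T, ∃ s t : GT F ar, p = (cd e s, cd e t) ∧ Step R s t := by
    intro p hp
    simp only [rt, List.mem_flatMap, List.mem_map] at hp
    obtain ⟨ρ, hρ, q, hq, rfl⟩ := hp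
    have hq' := (hR q).1 hq
    obtain ⟨ts, rfl⟩ := tup_terms hT hρ
    obtain ⟨l, r⟩ := q
    obtain ⟨u⟩ : Nonempty (GT F ar) := by
      rcases Nat.eq_zero_or_pos nv with h | h
      · have hno : ∀ x, ¬ l.Occurs x := fun x hx => by have := hnv _ hq' x hx; omega
        clear hq hq' hρ
        induction l with
        | var y => exact (hno y rfl).elim
        | app f us ih =>
          exact ⟨.app f fun i => (ih i fun x hx => hno x ⟨i, hx⟩).some⟩
      · exact ⟨ts ⟨0, h⟩⟩
    let σ : ℕ → GT F ar := fun x => if h : x < nv then ts ⟨x, h⟩ else u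
    have hσ : ∀ x, l.Occurs x → (List.ofFn fun i => cd e (ts i)).getD x 0 = cd e (σ x) := by
      intro x hx
      have h := hnv _ hq' x hx
      simp [σ, h, List.getD_eq_getElem?_getD]
    refine ⟨l.subst σ, r.subst σ, ?_, Step.root l r σ hq'⟩
    rw [cs_eq e σ _ l hσ, cs_eq e σ _ r fun x hx => hσ x ((hrule _ hq').2 x hx)]
  intro j
  induction j with
  | zero => exact h0
  | succ j ih =>
    intro p hp
    rcases List.mem_append.1 hp with hp | hp
    · exact h0 p hp
    simp only [up, List.mem_flatMap, List.mem_map, List.mem_range] at hp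
    obtain ⟨g, hg, zs, hz, d, hd, q, hq, rfl⟩ := hp
    obtain ⟨f, rfl⟩ := (hF g).1 hg
    obtain ⟨ts, rfl⟩ := tup_terms hT hz
    obtain ⟨s, t, rfl, hst⟩ := ih q hq
    refine ⟨.app f (Function.update ts ⟨d, hd⟩ s), .app f (Function.update ts ⟨d, hd⟩ t), ?_, ?_⟩
    · simp only [cd]
      rw [← set_ofFn, ← set_ofFn]
    · have := Step.arg (R := R) f (Function.update ts ⟨d, hd⟩ s) ⟨d, hd⟩ t (by simpa using hst)
      simpa using this

lemma sp_complete {N : ℕ} {s t : GT F ar} (h : Step R s t) :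
    ∀ n, n ≤ N → Ht s n →
      (cd e s, cd e t) ∈ sp Fs (tb Fs (N + 1)) (rt e Rl nv (tb Fs (N + 1))) n := by
  classical
  induction h with
  | root l r σ hlr =>
    intro n hn hs
    have h0 : (cd e (l.subst σ), cd e (r.subst σ)) ∈ rt e Rl nv (tb Fs (N + 1)) := by
      simp only [rt, List.mem_flatMap, List.mem_map]
      let τ : ℕ → GT F ar := fun x => if l.Occurs x then σ x else l.subst σ
      have hσ : ∀ x, l.Occurs x →
          (List.ofFn fun i : Fin nv => cd e (τ i)).getD x 0 = cd e (σ x) := by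
        intro x hx
        have h := hnv _ hlr x hx
        simp [τ, h, hx, List.getD_eq_getElem?_getD]
      refine ⟨List.ofFn fun i : Fin nv => cd e (τ i), mem_tup.2 ⟨by simp, fun a ha => ?_⟩,
        (l, r), (hR _).2 hlr, ?_⟩
      · obtain ⟨i, rfl⟩ := List.mem_ofFn.1 ha
        refine tb_complete hF _ _ (ht_mono (n := n) ?_ hn)
        simp only [τ]
        split_ifs with hx
        exacts [ht_var l hx hs, hs]
      · rw [cs_eq e σ _ l hσ, cs_eq e σ _ r fun x hx => hσ x ((hrule _ hlr).2 x hx)]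
    cases n with
    | zero => exact h0
    | succ n => exact List.mem_append_left _ h0
  | arg f ts i t _ ih =>
    intro n hn hs
    obtain ⟨m, rfl, hm⟩ := ht_child hs i
    refine List.mem_append_right _ ?_
    simp only [up, List.mem_flatMap, List.mem_map, List.mem_range]
    refine ⟨(e f, ar f), (hF _).2 ⟨f, rfl⟩, List.ofFn fun j => cd e (ts j),
      mem_tup.2 ⟨by simp, fun a ha => ?_⟩, i, i.2, _, ih m (by omega) hm, ?_⟩
    · obtain ⟨j, rfl⟩ := List.mem_ofFn.1 ha
      obtain ⟨m', h1, h2⟩ := ht_child hs j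
      exact tb_complete hF _ _ (ht_mono h2 (by omega))
    · simp only [cd, set_ofFn, Function.update_eq_self]

end tables

/-! ### truth tables of formulas -/

def stp (S : List (ℕ × ℕ)) (π : List ℕ) (b : List Bool) (n : ℕ) : Bool :=
  if n.unpair.1 = 0 then decide (π.getD n.unpair.2.unpair.1 0 = π.getD n.unpair.2.unpair.2 0)
  else if n.unpair.1 = 1 then
    decide ((π.getD n.unpair.2.unpair.1 0, π.getD n.unpair.2.unpair.2 0) ∈ S)
  else if n.unpair.1 = 2 then !b.getD n.unpair.2 false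
  else if n.unpair.1 = 3 then b.getD n.unpair.2.unpair.1 false && b.getD n.unpair.2.unpair.2 false
  else b.getD n.unpair.2.unpair.1 false || b.getD n.unpair.2.unpair.2 false

def tv (S : List (ℕ × ℕ)) (π : List ℕ) : ℕ → List Bool
  | 0 => []
  | n + 1 => tv S π n ++ [stp S π (tv S π n) n]

lemma pr_tv {α : Type} [Primcodable α] {S : α → List (ℕ × ℕ)} {π : α → List ℕ} {n : α → ℕ}
    (hS : Primrec S) (hπ : Primrec π) (hn : Primrec n) : Primrec fun a => tv (S a) (π a) (n a) := by
  have hst : Primrec fun x : α × ℕ × List Bool => stp (S x.1) (π x.1) x.2.2 x.2.1 := by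
    have h0 : Primrec fun x : α × ℕ × List Bool => x.2.1.unpair :=
      Primrec.unpair.comp (Primrec.fst.comp Primrec.snd)
    have h1 := Primrec.fst.comp h0
    have h2 := Primrec.snd.comp h0
    have h3 := Primrec.fst.comp (Primrec.unpair.comp h2)
    have h4 := Primrec.snd.comp (Primrec.unpair.comp h2)
    have hb : Primrec fun x : α × ℕ × List Bool => x.2.2 := Primrec.snd.comp Primrec.snd
    have p3 := (Primrec.list_getD 0).comp (hπ.comp Primrec.fst) h3
    have p4 := (Primrec.list_getD 0).comp (hπ.comp Primrec.fst) h4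
    have b2 := (Primrec.list_getD false).comp hb h2
    have b3 := (Primrec.list_getD false).comp hb h3
    have b4 := (Primrec.list_getD false).comp hb h4
    have hm : PrimrecPred fun x : α × ℕ × List Bool =>
        ((π x.1).getD x.2.1.unpair.2.unpair.1 0, (π x.1).getD x.2.1.unpair.2.unpair.2 0) ∈ S x.1 :=
      ((Primrec.eq (α := ℕ × ℕ)).exists_mem_list.comp (hS.comp Primrec.fst) (p3.pair p4)).of_eq
        (by simp)
    refine Primrec.ite (Primrec.eq.comp h1 (Primrec.const 0)) (Primrec.eq.comp p3 p4).decide ?_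
    refine Primrec.ite (Primrec.eq.comp h1 (Primrec.const 1)) hm.decide ?_
    refine Primrec.ite (Primrec.eq.comp h1 (Primrec.const 2)) (Primrec.not.comp b2) ?_
    exact Primrec.ite (Primrec.eq.comp h1 (Primrec.const 3)) (Primrec.and.comp b3 b4)
      (Primrec.or.comp b3 b4)
  have h : Primrec fun a : α => (Nat.rec []
      (fun k ih => ih ++ [stp (S a) (π a) ih k]) (n a) : List Bool) := by
    refine Primrec.nat_rec' (h := fun a w => w.2 ++ [stp (S a) (π a) w.2 w.1]) hn
      (Primrec.const _) ?_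
    exact Primrec.list_concat.comp (Primrec.snd.comp Primrec.snd) hst
  refine h.of_eq fun a => ?_
  induction n a with
  | zero => rfl
  | succ n ih => simp only [tv, ← ih]

lemma tv_length (S : List (ℕ × ℕ)) (π : List ℕ) : ∀ n, (tv S π n).length = n
  | 0 => rfl
  | n + 1 => by simp [tv, tv_length S π n]

lemma tv_getD (S : List (ℕ × ℕ)) (π : List ℕ) {m : ℕ} :
    ∀ n, m < n → (tv S π n).getD m false = stp S π (tv S π m) m
  | 0, h => by omega
  | n + 1, h => by
    rcases Nat.lt_succ_iff_lt_or_eq.1 h with h | rfl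
    · rw [tv, List.getD_append _ _ _ _ (by rwa [tv_length]), tv_getD S π n h]
    · rw [tv, List.getD_append_right _ _ _ _ (by rw [tv_length]), tv_length]
      simp

lemma lt_pair {a : ℕ} (ha : 0 < a) (b : ℕ) : b < Nat.pair a b := by
  unfold Nat.pair
  split_ifs <;> nlinarith

lemma tv_spec (S : List (ℕ × ℕ)) (π : List ℕ) (φ : QF) : ∀ n, φ.code < n →
    ((tv S π n).getD φ.code false = true ↔
      φ.Holds (fun a b => (a, b) ∈ S) fun i => π.getD i 0) := by
  induction φ with
  | eq i j => intro n hn; rw [tv_getD S π n hn]; simp [stp, QF.code, QF.Holds]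
  | rel i j => intro n hn; rw [tv_getD S π n hn]; simp [stp, QF.code, QF.Holds]
  | not φ ih =>
    intro n hn
    have h := ih _ (lt_pair (a := 2) (by omega) φ.code)
    rw [tv_getD S π n hn]
    simp only [QF.Holds, ← h]
    simp [stp, QF.code]
  | and φ ψ ih1 ih2 =>
    intro n hn
    have h0 := lt_pair (a := 3) (by omega) (Nat.pair φ.code ψ.code)
    have h1 := ih1 _ ((Nat.left_le_pair _ _).trans_lt h0)
    have h2 := ih2 _ ((Nat.right_le_pair _ _).trans_lt h0)
    rw [tv_getD S π n hn]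
    simp only [QF.Holds, ← h1, ← h2]
    simp [stp, QF.code]
  | or φ ψ ih1 ih2 =>
    intro n hn
    have h0 := lt_pair (a := 4) (by omega) (Nat.pair φ.code ψ.code)
    have h1 := ih1 _ ((Nat.left_le_pair _ _).trans_lt h0)
    have h2 := ih2 _ ((Nat.right_le_pair _ _).trans_lt h0)
    rw [tv_getD S π n hn]
    simp only [QF.Holds, ← h1, ← h2]
    simp [stp, QF.code]

lemma holds_congr {M M' : Type} {r : M → M → Prop} {r' : M' → M' → Prop} {v : ℕ → M}
    {v' : ℕ → M'} {k : ℕ} (h1 : ∀ a < k, ∀ b < k, v a = v b ↔ v' a = v' b)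
    (h2 : ∀ a < k, ∀ b < k, r (v a) (v b) ↔ r' (v' a) (v' b)) (φ : QF) :
    φ.code < k → (φ.Holds r v ↔ φ.Holds r' v') := by
  have hl : ∀ {c a b : ℕ}, Nat.pair c (Nat.pair a b) < k → a < k ∧ b < k := fun h =>
    ⟨((Nat.left_le_pair _ _).trans (Nat.right_le_pair _ _)).trans_lt h,
      ((Nat.right_le_pair _ _).trans (Nat.right_le_pair _ _)).trans_lt h⟩
  induction φ with
  | eq i j => exact fun h => h1 i (hl h).1 j (hl h).2
  | rel i j => exact fun h => h2 i (hl h).1 j (hl h).2
  | not φ ih => exact fun h => not_congr (ih ((Nat.right_le_pair _ _).trans_lt h))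
  | and φ ψ ih1 ih2 => exact fun h => and_congr (ih1 (hl h).1) (ih2 (hl h).2)
  | or φ ψ ih1 ih2 => exact fun h => or_congr (ih1 (hl h).1) (ih2 (hl h).2)

/-- The small model property gives a decision procedure for satisfiability. -/
theorem comp (F : Type) [Finite F] (ar : F → ℕ) (R : Set (Tm F ar ℕ × Tm F ar ℕ))
    (hfin : R.Finite) (hrule : ∀ p ∈ R, IsRule p.1 p.2) (hSM : SM F ar R) :
    ∃ D : ℕ → Bool, Computable D ∧ ∀ φ : QF,
      (D φ.code = true ↔ ∃ v : ℕ → Tm F ar Empty, φ.Holds (Step R) v) := by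
  classical
  obtain ⟨B, hB, hSM⟩ := hSM
  obtain ⟨e, he⟩ := exists_injective_nat F
  have := Fintype.ofFinite F
  let Fs : List (ℕ × ℕ) := (Finset.univ : Finset F).toList.map fun f => (e f, ar f)
  have hF : ∀ p, p ∈ Fs ↔ ∃ f, p = (e f, ar f) := fun p => by simp [Fs, eq_comm]
  let Rl := hfin.toFinset.toList
  have hR : ∀ p, p ∈ Rl ↔ p ∈ R := fun p => by simp [Rl]
  obtain ⟨nv, hnv⟩ : ∃ nv, ∀ p ∈ R, ∀ x, p.1.Occurs x → x < nv := by
    choose n hn using fun t : Tm F ar ℕ => exists_nv t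
    obtain ⟨m, hm⟩ := (hfin.image fun p => n p.1).bddAbove
    exact ⟨m, fun p hp x hx => (hn _ x hx).trans_le (hm ⟨p, hp, rfl⟩)⟩
  let S : ℕ → List (ℕ × ℕ) := fun N => sp Fs (tb Fs (N + 1)) (rt e Rl nv (tb Fs (N + 1))) N
  have hT : Primrec fun N => tb Fs (N + 1) := (pr_tb Fs).comp Primrec.succ
  have hS : Primrec S := pr_sp Fs hT ((pr_rt e Rl nv).comp hT) Primrec.id
  let P : ℕ × ℕ → Prop := fun w =>
    ∃ π ∈ tup (w.1 + 1) (tb Fs (w.2 + 1)), (tv (S w.2) π (w.1 + 1)).getD w.1 false = true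
  have hP : PrimrecPred P := by
    have h1 : PrimrecRel fun (π : List ℕ) (w : ℕ × ℕ) =>
        (tv (S w.2) π (w.1 + 1)).getD w.1 false = true :=
      Primrec.eq.comp ((Primrec.list_getD false).comp
        (pr_tv (hS.comp (Primrec.snd.comp Primrec.snd)) Primrec.fst
          (Primrec.succ.comp (Primrec.fst.comp Primrec.snd)))
        (Primrec.fst.comp Primrec.snd)) (Primrec.const true)
    exact h1.exists_mem_list.comp
      (pr_tup.comp (Primrec.succ.comp Primrec.fst) (hT.comp Primrec.snd)) Primrec.id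
  refine ⟨fun n => decide (P (n, B (n + 1))),
    hP.decide.to_comp.comp (Computable.id.pair (hB.comp Computable.succ)), fun φ => ?_⟩
  simp only [decide_eq_true_eq, P]
  set k := φ.code + 1 with hk
  have hlt : φ.code < k := Nat.lt_succ_self _
  have hsound : ∀ s t : GT F ar, (cd e s, cd e t) ∈ S (B k) → Step R s t := by
    intro s t h
    obtain ⟨s', t', h1, h2⟩ := sp_sound hF hR hrule hnv (tb_sound hF _) _ _ h
    obtain ⟨h3, h4⟩ := Prod.mk.inj h1
    rwa [cd_inj he _ _ h3, cd_inj he _ _ h4]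
  have hget : ∀ (ts : Fin k → GT F ar) a (ha : a < k),
      (List.ofFn fun i => cd e (ts i)).getD a 0 = cd e (ts ⟨a, ha⟩) := by
    intro ts a ha
    rw [List.getD_eq_getElem _ _ (by rw [List.length_ofFn]; exact ha), List.getElem_ofFn]
  constructor
  · rintro ⟨π, hπ, h⟩
    obtain ⟨ts, rfl⟩ := tup_terms (tb_sound hF _) hπ
    have h1 : ∀ i, Ht (ts i) (B k) := fun i =>
      tb_ht _ _ ((mem_tup.1 hπ).2 _ (List.mem_ofFn.2 ⟨i, rfl⟩))
    rw [tv_spec _ _ φ k hlt] at h
    refine ⟨fun a => if h : a < k then ts ⟨a, h⟩ else ts ⟨_, hlt⟩, ?_⟩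
    refine (holds_congr (k := k) ?_ ?_ φ hlt).2 h
    · intro a ha b hb
      rw [hget ts a ha, hget ts b hb, dif_pos ha, dif_pos hb]
      exact ⟨fun h => by rw [h], cd_inj he _ _⟩
    · intro a ha b hb
      rw [hget ts a ha, hget ts b hb, dif_pos ha, dif_pos hb]
      exact ⟨fun h => sp_complete hF hR hrule hnv h _ le_rfl (h1 _), hsound _ _⟩
  · rintro ⟨v, hv⟩
    obtain ⟨t', h1, h2, h3⟩ := hSM k fun a => v a
    refine ⟨List.ofFn fun i => cd e (t' i), mem_tup.2 ⟨List.length_ofFn, fun a ha => ?_⟩, ?_⟩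
    · obtain ⟨i, rfl⟩ := List.mem_ofFn.1 ha
      exact tb_complete hF _ _ (h1 i)
    · rw [tv_spec _ _ φ k hlt]
      refine (holds_congr (k := k) ?_ ?_ φ hlt).1 hv
      · intro a ha b hb
        rw [hget t' a ha, hget t' b hb, h2 ⟨a, ha⟩ ⟨b, hb⟩]
        exact ⟨fun h => by rw [h], cd_inj he _ _⟩
      · intro a ha b hb
        rw [hget t' a ha, hget t' b hb, h3 ⟨a, ha⟩ ⟨b, hb⟩]
        exact ⟨fun h => sp_complete hF hR hrule hnv h _ le_rfl (h1 _), hsound _ _⟩

end Pool.Agent.Lib.MP_342291_lc.E.Cp
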