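import Pool.Agent.Lib.MP_342291_lc.E.Basic

/-!
Replacement of a subterm, the cut of a term at the first entries into a class, and the
statements of the remaining blocks.
-/

namespace Pool.Agent.Lib.MP_342291_lc.E

open Classical

variable {F : Type} {ar : F → ℕ} {V W : Type} {K : Type}

/-- Replacement of the subterm at a position. -/
def rep : Tm F ar V → List ℕ → Tm F ar V → Tm F ar V
  | _, [], s => s
  | .var v, _ :: _, _ => .var v
  | .app f ts, i :: p, s => .app f fun j => if (j : ℕ) = i then rep (ts j) p s else ts j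

/-- A ground term as a term with variables. -/
def lift (u : GT F ar) : Tm F ar V := Tm.subst (fun e => Empty.elim e) u

/-- Replace the subterm at `ρ ++ Wi` by `g ρ`, for each first entry `ρ` into `Γ0`. -/
noncomputable def cut (δ : K → ℕ → Option K) (Γ0 : K) (Wi : List ℕ) :
    (List ℕ → Tm F ar V) → K → GT F ar → Tm F ar V
  | _, _, .var e => Empty.elim e
  | g, Γ, .app f ts =>
    if Γ = Γ0 then rep (lift (.app f ts)) Wi (g [])
    else .app f fun i => match δ Γ i with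
      | none => lift (ts i)
      | some Γ' => cut δ Γ0 Wi (fun ρ => g (i :: ρ)) Γ' (ts i)

/-- Delete the segment between `Wi` and `Wj` below each first entry into `Γ0`. -/
noncomputable def pump (δ : K → ℕ → Option K) (Γ0 : K) (Wi Wj : List ℕ) (z : GT F ar) (Γ : K)
    (u : GT F ar) : GT F ar :=
  cut δ Γ0 Wi (fun ρ => (sub u (ρ ++ Wj)).getD z) Γ u

/-- The position `p` lies at or below a mark. -/
def Mark (δ : K → ℕ → Option K) (Γ0 : K) (Wi : List ℕ) (Γ : K) (p : List ℕ) : Prop :=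
  ∃ ρ, First δ Γ0 Γ ρ ∧ ρ ++ Wi <+: p

/-- Upper positions: short, and not below a mark by more than `h`. -/
def Up (δ : K → ℕ → Option K) (Γ0 : K) (Wi : List ℕ) (n h : ℕ) (Γ : K) (p : List ℕ) : Prop :=
  p.length ≤ n + Wi.length + 1 + h ∧
    (¬ Mark δ Γ0 Wi Γ p ∨ ∃ ρ π, First δ Γ0 Γ ρ ∧ p = ρ ++ Wi ++ π ∧ π.length ≤ h)

/-- The witness position of an ordered pair of terms. -/
structure Edg (R : Set (Tm F ar ℕ × Tm F ar ℕ)) (u v : GT F ar) (P : List ℕ) : Prop where
  du : ∃ x, sub u P = some x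
  dv : ∃ y, sub v P = some y
  agr : Agr u v P
  pos : Step R u v → ∀ x y, sub u P = some x → sub v P = some y → Root R x y
  neg : ¬ Step R u v → u ≠ v → ∀ x y, sub u P = some x → sub v P = some y →
    hd x ≠ hd y ∨ ∃ i j, i ≠ j ∧ child x i ≠ child y i ∧ child x j ≠ child y j

/-- Pumping data. -/
structure PD {k : ℕ} (t : Fin k → GT F ar) (D n : ℕ) (δ : K → ℕ → Option K) (Γ0 : K)
    (cl : GT F ar → K) (Wi Wj : List ℕ) : Prop where
  dcl : ∀ a p u i x, sub (t a) p = some u → p.length < D → child u i = some x →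
    δ (cl u) i = some (cl x)
  first : ∀ Γ ρ, First δ Γ0 Γ ρ → ρ.length ≤ n
  dom : ∀ a ρ, First δ Γ0 (cl (t a)) ρ → ∃ x, sub (t a) (ρ ++ Wj) = some x
  pre : Wi <+: Wj
  ne : Wi ≠ Wj
  len : D ≤ Wi.length
  pos : 0 < D
  ex : ∃ a ρ, First δ Γ0 (cl (t a)) ρ
  cyc : ∀ a p u, sub (t a) p = some u → p.length < D → cl u = Γ0 →
    ∃ s x y w, s ≠ [] ∧ walk δ Γ0 s = some Γ0 ∧
      (∀ q, q <+: s → q ≠ [] → q ≠ s → walk δ Γ0 q ≠ some Γ0) ∧
      (∀ q, walk δ Γ0 q = some Γ0 → q ≠ [] → s <+: q) ∧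
      s ++ Wi = Wi ++ s ∧ s ++ Wj = Wj ++ s ∧ sub u Wi = some x ∧ sub u Wj = some y ∧
      Agr x y s ∧ sub y s = some w

/-- A long edge that is compatible with the window. -/
def Lg (n : ℕ) (δ : K → ℕ → Option K) (Γ0 : K) (cl : GT F ar → K) (Wi Wj : List ℕ)
    (u v : GT F ar) (P : List ℕ) : Prop :=
  cl u = cl v ∧ n + Wj.length < P.length ∧
    ∀ ρ, First δ Γ0 (cl u) ρ → ρ ++ Wi <+: P → ρ ++ Wj <+: P

/-- The pair of cut points is good. -/
def Good {k : ℕ} (t : Fin k → GT F ar) (n h : ℕ) (δ : K → ℕ → Option K) (Γ0 : K)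
    (cl : GT F ar → K) (Wi Wj : List ℕ) (z : GT F ar) : Prop :=
  (∀ a ρ π, First δ Γ0 (cl (t a)) ρ → π.length ≤ h →
    lab (t a) (ρ ++ Wi ++ π) = lab (t a) (ρ ++ Wj ++ π)) ∧
  ∀ a b p q x y, Up δ Γ0 Wi n h (cl (t a)) p → Up δ Γ0 Wi n h (cl (t b)) q →
    sub (t a) p = some x → sub (t b) q = some y →
    sub (pump δ Γ0 Wi Wj z (cl (t a)) (t a)) p = sub (pump δ Γ0 Wi Wj z (cl (t b)) (t b)) q →
    x = y

/-- Block Edg: every ordered pair has a witness position. -/
def EdgStmt : Prop :=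
  ∀ (F : Type) (ar : F → ℕ) (R : Set (Tm F ar ℕ × Tm F ar ℕ)) (u v : GT F ar), ∃ P, Edg R u v P

/-- Block Fin: pumping at a good pair keeps the diagram and lowers the total size. -/
def FinStmt : Prop :=
  ∀ (F : Type) (ar : F → ℕ) (R : Set (Tm F ar ℕ × Tm F ar ℕ)) (h k D n : ℕ) (K : Type)
    (t : Fin k → GT F ar) (δ : K → ℕ → Option K) (Γ0 : K) (cl : GT F ar → K) (Wi Wj : List ℕ)
    (z : GT F ar) (P : Fin k → Fin k → List ℕ),
    (∀ p ∈ R, IsRule p.1 p.2 ∧ Ht p.1 h ∧ Ht p.2 h) → PD t D n δ Γ0 cl Wi Wj →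
    (∀ a b, Edg R (t a) (t b) (P a b)) →
    (∀ a b, (P a b).length + h + 1 < D ∨ Lg n δ Γ0 cl Wi Wj (t a) (t b) (P a b)) →
    Good t n h δ Γ0 cl Wi Wj z →
    (∀ a b, t a = t b ↔ pump δ Γ0 Wi Wj z (cl (t a)) (t a) = pump δ Γ0 Wi Wj z (cl (t b)) (t b)) ∧
    (∀ a b, Step R (t a) (t b) ↔
      Step R (pump δ Γ0 Wi Wj z (cl (t a)) (t a)) (pump δ Γ0 Wi Wj z (cl (t b)) (t b))) ∧
    ∑ a, size (pump δ Γ0 Wi Wj z (cl (t a)) (t a)) < ∑ a, size (t a)

/-- The parameter fed into the bound of block N. -/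
def aPar (k A σ h n M : ℕ) : ℕ :=
  k * (A + 1) ^ (n + h) + (σ + 1) ^ (k * (A + 1) ^ (n + h)) + 2 * k +
    2 * (A + 1) * (2 * n + M * n + 1 + h)

/-- Block Good: a good pair exists in a long enough window. -/
def GoodStmt : Prop :=
  ∃ Rb : ℕ → ℕ, Computable Rb ∧
    ∀ (F : Type) [Fintype F] (ar : F → ℕ) (A h k D n M : ℕ) (K : Type) (t : Fin k → GT F ar)
      (δ : K → ℕ → Option K) (Γ0 : K) (cl : GT F ar → K) (Wd : ℕ → List ℕ) (z : GT F ar),
      (∀ f, ar f ≤ A) → (∀ i, (Wd i).length ≤ (M + i) * n) →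
      (∀ i j, i < j → j ≤ Rb (aPar k A (Fintype.card F) h n M) →
        PD t D n δ Γ0 cl (Wd i) (Wd j)) →
      ∃ i j, i < j ∧ j ≤ Rb (aPar k A (Fintype.card F) h n M) ∧
        Good t n h δ Γ0 cl (Wd i) (Wd j) z

/-- Starting levels of the successive windows. -/
def mSeq (D : ℕ) (w : ℕ → ℕ) : ℕ → ℕ
  | 0 => D
  | r + 1 => mSeq D w r + w (mSeq D w r) + 2

/-- The length above which an edge counts as long (`n` nodes, `m` edges). -/
def lPar (n m D : ℕ) (w : ℕ → ℕ) : ℕ :=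
  (n ^ 2 + 3 * n + 2) + (m * (n ^ 2 + 3 * n + 2) + 1) * (2 * n + 1) +
    (mSeq D w (m * (n ^ 2 + 3 * n + 2) + 1) + 2) * (n + 1)

/-- Block Cls: classes, base class and window. -/
def ClsStmt : Prop :=
  ∀ (F : Type) (ar : F → ℕ) (A k D m : ℕ) (w : ℕ → ℕ) (t : Fin k → GT F ar) (ι : Type)
    (E : Finset ι) (ea eb : ι → Fin k) (P : ι → List ℕ),
    (∀ f, ar f ≤ A) → 0 < D → E.card ≤ m → E.Nonempty →
    (∀ e ∈ E, Agr (t (ea e)) (t (eb e)) (P e) ∧ (∃ x, sub (t (ea e)) (P e) = some x) ∧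
      lPar (k * (A + 1) ^ D) m D w ≤ (P e).length) →
    ∃ (K : Type) (δ : K → ℕ → Option K) (Γ0 : K) (cl : GT F ar → K) (M : ℕ) (Wd : ℕ → List ℕ),
      (∀ i, (Wd i).length ≤ (M + i) * (k * (A + 1) ^ D)) ∧
      ∀ i j, i < j → j ≤ w M → PD t D (k * (A + 1) ^ D) δ Γ0 cl (Wd i) (Wd j) ∧
        ∀ e ∈ E, Lg (k * (A + 1) ^ D) δ Γ0 cl (Wd i) (Wd j) (t (ea e)) (t (eb e)) (P e)

theorem hd_lift (u : GT F ar) : hd (lift u : Tm F ar V) = hd u := by
  obtain ⟨f, ts, rfl⟩ := exists_app u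
  rfl

theorem child_lift (u : GT F ar) (i : ℕ) :
    child (lift u : Tm F ar V) i = (child u i).map lift := by
  obtain ⟨f, ts, rfl⟩ := exists_app u
  by_cases h : i < ar f <;> simp [lift, Tm.subst, child, h]

theorem sub_lift (u : GT F ar) (p : List ℕ) :
    sub (lift u : Tm F ar V) p = (sub u p).map lift := by
  induction p generalizing u with
  | nil => simp
  | cons i p ih =>
    rw [sub_cons, sub_cons, child_lift]
    cases child u i with
    | none => rfl
    | some x => simpa using ih x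

theorem lab_lift (u : GT F ar) (p : List ℕ) : lab (lift u : Tm F ar V) p = lab u p := by
  unfold lab
  rw [sub_lift]
  cases sub u p with
  | none => rfl
  | some x => simpa using hd_lift x

theorem subst_lift (c : V → Tm F ar W) (u : GT F ar) : Tm.subst c (lift u) = lift u := by
  induction u with
  | var e => exact e.elim
  | app f ts ih =>
    simp only [lift, Tm.subst] at ih ⊢
    congr 1
    funext i
    exact ih i

theorem lift_self (u : GT F ar) : (lift u : GT F ar) = u := ext_lab fun ρ => lab_lift u ρ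

theorem child_rep_self {t u : Tm F ar V} {i : ℕ} (h : child t i = some u) (p : List ℕ)
    (s : Tm F ar V) : child (rep t (i :: p) s) i = some (rep u p s) := by
  obtain ⟨f, ts, hi, rfl, rfl⟩ := child_eq_some h
  simp [rep, child, hi]

theorem sub_rep {t u : Tm F ar V} {p : List ℕ} (h : sub t p = some u) (s : Tm F ar V) :
    sub (rep t p s) p = some s := by
  induction p generalizing t with
  | nil => simp [rep]
  | cons i p ih =>
    obtain ⟨x, hx, hx'⟩ := sub_split (p := [i]) h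
    rw [sub_single] at hx
    rw [sub_cons_of (child_rep_self hx p s)]
    exact ih hx'

theorem lab_rep (t s : Tm F ar V) {p ρ : List ℕ} (h : ¬ p <+: ρ) :
    lab (rep t p s) ρ = lab t ρ := by
  induction p generalizing t ρ with
  | nil => exact absurd List.nil_prefix h
  | cons i p ih =>
    cases t with
    | var v => rfl
    | app f ts =>
      cases ρ with
      | nil => rfl
      | cons j ρ =>
        by_cases hj : j < ar f
        · have h1 := child_app f ts ⟨j, hj⟩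
          have h2 := child_app f (fun j : Fin (ar f) =>
            if (j : ℕ) = i then rep (ts j) p s else ts j) ⟨j, hj⟩
          simp only [rep]
          rw [lab_cons_of h1, lab_cons_of h2]
          by_cases hji : j = i
          · rw [if_pos hji]
            exact ih _ fun h' => h (by simpa [List.cons_prefix_cons, hji] using h')
          · rw [if_neg hji]
        · simp only [rep]
          rw [lab_cons_none (child_app_none _ _ hj), lab_cons_none (child_app_none _ _ hj)]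

theorem size_rep {t u : Tm F ar V} {p : List ℕ} (h : sub t p = some u) (s : Tm F ar V) :
    size (rep t p s) + size u = size t + size s := by
  induction p generalizing t with
  | nil =>
    simp only [sub_nil, Option.some.injEq] at h
    simp [rep, h, add_comm]
  | cons i p ih =>
    obtain ⟨x, hx, hx'⟩ := sub_split (p := [i]) h
    rw [sub_single] at hx
    obtain ⟨f, ts, hi, rfl, rfl⟩ := child_eq_some hx
    have h1 := ih hx'
    simp only [rep, size]
    rw [← Finset.add_sum_erase _ _ (Finset.mem_univ (⟨i, hi⟩ : Fin (ar f))),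
      ← Finset.add_sum_erase _ (fun j => size (ts j)) (Finset.mem_univ (⟨i, hi⟩ : Fin (ar f)))]
    have h2 : ∑ j ∈ Finset.univ.erase (⟨i, hi⟩ : Fin (ar f)),
        size (if (j : ℕ) = i then rep (ts j) p s else ts j) =
        ∑ j ∈ Finset.univ.erase (⟨i, hi⟩ : Fin (ar f)), size (ts j) :=
      Finset.sum_congr rfl fun j hj => by
        rw [if_neg fun h' => (Finset.mem_erase.1 hj).1 (Fin.ext h')]
    rw [h2]
    simp only [if_true]
    omega

theorem subst_rep_lift (c : V → Tm F ar W) (u : GT F ar) (p : List ℕ) (s : Tm F ar V) :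
    Tm.subst c (rep (lift u) p s) = rep (lift u) p (Tm.subst c s) := by
  induction p generalizing u with
  | nil => simp [rep]
  | cons i p ih =>
    obtain ⟨f, ts, rfl⟩ := exists_app u
    simp only [lift, Tm.subst, rep]
    congr 1
    funext j
    split_ifs
    · exact ih (ts j)
    · exact subst_lift c (ts j)

variable {δ : K → ℕ → Option K} {Γ0 : K} {Wi : List ℕ}

theorem first_self (δ : K → ℕ → Option K) (Γ0 : K) : First δ Γ0 Γ0 [] :=
  ⟨rfl, fun _ hq hq' => absurd (List.prefix_nil.1 hq) hq'⟩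

theorem First.eq_nil {ρ : List ℕ} (h : First δ Γ0 Γ0 ρ) : ρ = [] :=
  Classical.byContradiction fun h' => h.2 [] List.nil_prefix (Ne.symm h') rfl

theorem first_cons {Γ Γ' : K} {i : ℕ} (hΓ : Γ ≠ Γ0) (hδ : δ Γ i = some Γ') {ρ : List ℕ} :
    First δ Γ0 Γ (i :: ρ) ↔ First δ Γ0 Γ' ρ := by
  have hw : ∀ q, walk δ Γ (i :: q) = walk δ Γ' q := fun q => by rw [walk_cons, hδ]; rfl
  constructor
  · rintro ⟨h1, h2⟩
    refine ⟨by rwa [hw] at h1, fun q hq hq' => ?_⟩
    rw [← hw]
    exact h2 _ (by simpa [List.cons_prefix_cons] using hq) (by simpa using hq')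
  · rintro ⟨h1, h2⟩
    refine ⟨by rwa [hw], fun q hq hq' => ?_⟩
    cases q with
    | nil => simpa using hΓ
    | cons j q =>
      obtain ⟨rfl, hq2⟩ := List.cons_prefix_cons.1 hq
      rw [hw]
      exact h2 q hq2 (by simpa using hq')

theorem First.unique {Γ : K} {ρ ρ' p : List ℕ} (h : First δ Γ0 Γ ρ) (h' : First δ Γ0 Γ ρ')
    (hp : ρ <+: p) (hp' : ρ' <+: p) : ρ = ρ' := by
  rcases List.prefix_or_prefix_of_prefix hp hp' with h1 | h1
  · exact Classical.byContradiction fun h2 => h'.2 ρ h1 h2 h.1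
  · exact Classical.byContradiction fun h2 => h.2 ρ' h1 (Ne.symm h2) h'.1

theorem First.cases {Γ : K} {ρ : List ℕ} (h : First δ Γ0 Γ ρ) (hΓ : Γ ≠ Γ0) :
    ∃ i ρ' Γ', ρ = i :: ρ' ∧ δ Γ i = some Γ' ∧ First δ Γ0 Γ' ρ' := by
  cases ρ with
  | nil => exact absurd (Option.some.inj h.1) hΓ
  | cons i ρ =>
    cases hδ : δ Γ i with
    | none =>
      have := h.1
      rw [walk_cons, hδ] at this
      cases this
    | some Γ' => exact ⟨i, ρ, Γ', rfl, hδ, (first_cons hΓ hδ).1 h⟩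

theorem cut_self (g : List ℕ → Tm F ar V) (u : GT F ar) :
    cut δ Γ0 Wi g Γ0 u = rep (lift u) Wi (g []) := by
  obtain ⟨f, ts, rfl⟩ := exists_app u
  simp [cut]

theorem hd_cut_of_ne (g : List ℕ → Tm F ar V) {Γ : K} (hΓ : Γ ≠ Γ0) (u : GT F ar) :
    hd (cut δ Γ0 Wi g Γ u) = hd u := by
  obtain ⟨f, ts, rfl⟩ := exists_app u
  simp [cut, hΓ, hd]

theorem child_cut_some (g : List ℕ → Tm F ar V) {Γ Γ' : K} (hΓ : Γ ≠ Γ0) {u x : GT F ar} {i : ℕ}
    (hx : child u i = some x) (hδ : δ Γ i = some Γ') :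
    child (cut δ Γ0 Wi g Γ u) i = some (cut δ Γ0 Wi (fun ρ => g (i :: ρ)) Γ' x) := by
  obtain ⟨f, ts, hi, rfl, rfl⟩ := child_eq_some hx
  simp [cut, hΓ, child, hi, hδ]

theorem child_cut_none (g : List ℕ → Tm F ar V) {Γ : K} (hΓ : Γ ≠ Γ0) (u : GT F ar) {i : ℕ}
    (hδ : δ Γ i = none ∨ child u i = none) :
    child (cut δ Γ0 Wi g Γ u) i = child (lift u) i := by
  obtain ⟨f, ts, rfl⟩ := exists_app u
  by_cases hi : i < ar f
  · rcases hδ with hδ | hδ
    · simp [cut, hΓ, child, hi, hδ, lift, Tm.subst]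
    · simp [child, hi] at hδ
  · simp [cut, hΓ, child, hi, lift, Tm.subst]

theorem lab_cut (g : List ℕ → Tm F ar V) {Γ : K} (u : GT F ar) {p : List ℕ}
    (h : ¬ Mark δ Γ0 Wi Γ p) : lab (cut δ Γ0 Wi g Γ u) p = lab u p := by
  induction p generalizing g Γ u with
  | nil =>
    by_cases hΓ : Γ = Γ0
    · subst hΓ
      rw [cut_self, lab_rep (p := Wi) _ _ fun h' => h ⟨[], first_self δ Γ, h'⟩, lab_lift]
    · simpa using hd_cut_of_ne g hΓ u
  | cons i p ih =>
    by_cases hΓ : Γ = Γ0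
    · subst hΓ
      rw [cut_self, lab_rep (p := Wi) _ _ fun h' => h ⟨[], first_self δ Γ, h'⟩, lab_lift]
    · by_cases hn : δ Γ i = none ∨ child u i = none
      · rw [← lab_lift (V := V) u]
        simp only [lab, sub_cons, child_cut_none g hΓ u hn]
      · obtain ⟨h1, h2⟩ := not_or.1 hn
        obtain ⟨Γ', hδ⟩ := Option.ne_none_iff_exists'.1 h1
        obtain ⟨x, hx⟩ := Option.ne_none_iff_exists'.1 h2
        rw [lab_cons_of (child_cut_some g hΓ hx hδ), lab_cons_of hx]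
        refine ih _ x fun ⟨ρ, h3, h4⟩ => h ⟨i :: ρ, (first_cons hΓ hδ).2 h3, ?_⟩
        simpa [List.cons_prefix_cons] using h4

theorem sub_cut_mark (g : List ℕ → Tm F ar V) {Γ : K} {u x : GT F ar} {ρ : List ℕ}
    (h : First δ Γ0 Γ ρ) (hx : sub u (ρ ++ Wi) = some x) :
    sub (cut δ Γ0 Wi g Γ u) (ρ ++ Wi) = some (g ρ) := by
  induction ρ generalizing g Γ u with
  | nil =>
    obtain rfl : Γ = Γ0 := Option.some.inj h.1
    rw [cut_self]
    exact sub_rep (u := lift x) (by rw [sub_lift]; simpa using ⟨x, hx, rfl⟩) _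
  | cons i ρ ih =>
    have hΓ : Γ ≠ Γ0 := fun h' => by
      subst h'
      cases h.eq_nil
    obtain ⟨i', ρ', Γ', h1, hδ, h2⟩ := h.cases hΓ
    cases h1
    obtain ⟨y, hy, hy'⟩ := sub_split (p := [i]) (q := ρ ++ Wi) hx
    rw [sub_single] at hy
    rw [List.cons_append, sub_cons_of (child_cut_some g hΓ hy hδ)]
    exact ih _ h2 hy'

theorem subst_cut (c : V → Tm F ar W) (g : List ℕ → Tm F ar V) (Γ : K) (u : GT F ar) :
    Tm.subst c (cut δ Γ0 Wi g Γ u) = cut δ Γ0 Wi (fun ρ => Tm.subst c (g ρ)) Γ u := by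
  induction u generalizing g Γ with
  | var e => exact e.elim
  | app f ts ih =>
    by_cases hΓ : Γ = Γ0
    · subst hΓ
      rw [cut_self, cut_self, subst_rep_lift]
    · simp only [cut, if_neg hΓ, Tm.subst]
      congr 1
      funext i
      cases δ Γ i with
      | none => exact subst_lift c _
      | some Γ' => exact ih i _ Γ'

theorem cut_eq_self (g : List ℕ → GT F ar) {Γ : K} {u : GT F ar}
    (h : ∀ ρ, First δ Γ0 Γ ρ → sub u (ρ ++ Wi) = some (g ρ)) : cut δ Γ0 Wi g Γ u = u :=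
  ext_lab fun p => by
    by_cases hp : Mark δ Γ0 Wi Γ p
    · obtain ⟨ρ, h1, r, rfl⟩ := hp
      rw [lab_append_of (sub_cut_mark g h1 (h ρ h1)), lab_append_of (h ρ h1)]
    · exact lab_cut g u hp

end Pool.Agent.Lib.MP_342291_lc.E
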