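import Pool.Agent.Lib.MP_342291_lc.Defs

/-!
Small model property for the existential theory of one-step rewriting: positions, labels,
agreement off a position, and the statements of the independent blocks of the proof.
-/

namespace Pool.Agent.Lib.MP_342291_lc.E

variable {F : Type} {ar : F → ℕ} {V : Type}

/-- Ground terms. -/
abbrev GT (F : Type) (ar : F → ℕ) : Type := Tm F ar Empty

/-- The `i`-th argument of a term. -/
def child : Tm F ar V → ℕ → Option (Tm F ar V)
  | .var _, _ => none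
  | .app f ts, i => if h : i < ar f then some (ts ⟨i, h⟩) else none

/-- The subterm at a position. -/
def sub : Tm F ar V → List ℕ → Option (Tm F ar V)
  | t, [] => some t
  | t, i :: p => (child t i).bind fun u => sub u p

/-- The head symbol. -/
def hd : Tm F ar V → Option F
  | .var _ => none
  | .app f _ => some f

/-- The symbol at a position. -/
def lab (t : Tm F ar V) (p : List ℕ) : Option F := (sub t p).bind hd

/-- Number of nodes. -/
def size : Tm F ar V → ℕ
  | .var _ => 1
  | .app _ ts => 1 + ∑ i, size (ts i)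

/-- All positions of `t` have length at most `n`. -/
def Ht (t : Tm F ar V) (n : ℕ) : Prop := ∀ p u, sub t p = some u → p.length ≤ n

/-- A rewrite step at the root. -/
def Root (R : Set (Tm F ar ℕ × Tm F ar ℕ)) (u v : GT F ar) : Prop :=
  ∃ l r σ, (l, r) ∈ R ∧ u = Tm.subst σ l ∧ v = Tm.subst σ r

/-- The labels agree at all positions that extend no word of `B`. -/
def RB (B : Set (List ℕ)) (u v : GT F ar) : Prop :=
  ∀ ρ, (∀ β ∈ B, ¬ β <+: ρ) → lab u ρ = lab v ρ

/-- The two terms agree off the position `P`. -/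
def Agr (u v : GT F ar) (P : List ℕ) : Prop := ∀ ρ, ¬ P <+: ρ → lab u ρ = lab v ρ

/-- Walks in a deterministic labelled graph. -/
def walk {K : Type} (δ : K → ℕ → Option K) : K → List ℕ → Option K
  | Γ, [] => some Γ
  | Γ, i :: p => (δ Γ i).bind fun Γ' => walk δ Γ' p

/-- The walk `p` from `Γ` reaches `Γ0` at its end and not earlier. -/
def First {K : Type} (δ : K → ℕ → Option K) (Γ0 Γ : K) (p : List ℕ) : Prop :=
  walk δ Γ p = some Γ0 ∧ ∀ q, q <+: p → q ≠ p → walk δ Γ q ≠ some Γ0

/-- Block N: a good pair exists (dimension drop for term equations, Ackermann potential). -/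
def NStmt : Prop :=
  ∃ Rb : ℕ → ℕ, Computable Rb ∧
    ∀ (F : Type) (ar : F → ℕ) (V τ : Type) [Fintype τ] (a : ℕ) (c : ℕ → V → GT F ar)
      (B0 : Finset V) (ty : ℕ → τ) (E : ℕ → Finset (Tm F ar V × Tm F ar V)),
      B0.card ≤ a → Fintype.card τ ≤ a → (∀ v, v ∉ B0 → ∀ i j, c i v = c j v) →
      (∀ i, (E i).card ≤ 2 ^ (a * (i + 1))) →
      (∀ i, ∀ e ∈ E i, Tm.subst (c i) e.1 ≠ Tm.subst (c i) e.2) →
      ∃ i j, i < j ∧ j ≤ Rb a ∧ ty i = ty j ∧
        ∀ e ∈ E i, Tm.subst (c j) e.1 ≠ Tm.subst (c j) e.2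

/-- Block G: a finite deterministic graph in which no vertex has two short return words with
different first letters is acyclic or has a topmost simple cycle. -/
def GStmt : Prop :=
  ∀ (K : Type) [Fintype K] (δ : K → ℕ → Option K) (n : ℕ), Fintype.card K ≤ n →
    (∀ Γ i j α β, i ≠ j → walk δ Γ (i :: α) = some Γ → walk δ Γ (j :: β) = some Γ →
      α.length ≤ 2 * n → β.length ≤ 2 * n → False) →
    (∀ Γ p Γ', walk δ Γ p = some Γ' → p.length < n) ∨
    ∃ Γ0 s, s ≠ [] ∧ s.length ≤ n ∧ First δ Γ0 Γ0 [] ∧ walk δ Γ0 s = some Γ0 ∧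
      (∀ q, q <+: s → q ≠ [] → q ≠ s → walk δ Γ0 q ≠ some Γ0) ∧
      (∀ p, walk δ Γ0 p = some Γ0 → p ≠ [] → s <+: p) ∧
      (∀ Γ p, First δ Γ0 Γ p → p.length ≤ n)

/-- Block C: a ground term is not similar to two of its subterms in different directions when
the exceptional words are long. -/
def CStmt : Prop :=
  ∀ (F : Type) (ar : F → ℕ) (B : Finset (List ℕ)) (u x y : GT F ar) (i j : ℕ) (α β : List ℕ)
    (n : ℕ), i ≠ j → α.length < n → β.length < n →
    sub u (i :: α) = some x → sub u (j :: β) = some y →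
    RB (B : Set (List ℕ)) x u → RB (B : Set (List ℕ)) y u →
    (∀ b ∈ B, (B.card + 1) * n < b.length) → False

/-- Block T: transfer of a root step along a depth-indexed correspondence. -/
def TStmt : Prop :=
  ∀ (F : Type) (ar : F → ℕ) (R : Set (Tm F ar ℕ × Tm F ar ℕ)) (h : ℕ)
    (C : ℕ → GT F ar → GT F ar → Prop),
    (∀ p ∈ R, IsRule p.1 p.2 ∧ Ht p.1 h ∧ Ht p.2 h) →
    (∀ d x y, C (d + 1) x y → C d x y) →
    (∀ d x y, C (d + 1) x y → hd x = hd y ∧
      ∀ i x' y', child x i = some x' → child y i = some y' → C d x' y') →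
    (∀ x y x', C 0 x y → C 0 x' y → x = x') →
    ∀ x y x' y', C h x y → C h x' y' → Root R y y' → Root R x x'

/-- The small model property. -/
def SM (F : Type) (ar : F → ℕ) (R : Set (Tm F ar ℕ × Tm F ar ℕ)) : Prop :=
  ∃ B : ℕ → ℕ, Computable B ∧ ∀ (k : ℕ) (t : Fin k → GT F ar), ∃ t' : Fin k → GT F ar,
    (∀ a, Ht (t' a) (B k)) ∧ (∀ a b, t a = t b ↔ t' a = t' b) ∧
    ∀ a b, Step R (t a) (t b) ↔ Step R (t' a) (t' b)

/-- The small model property for every finite signature and rewrite system. -/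
def SMStmt : Prop :=
  ∀ (F : Type) [Finite F] (ar : F → ℕ) (R : Set (Tm F ar ℕ × Tm F ar ℕ)),
    R.Finite → (∀ p ∈ R, IsRule p.1 p.2) → SM F ar R

end Pool.Agent.Lib.MP_342291_lc.E
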