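import Mathlib

/-!
The counting part of block N: groups of indices are split into groups of smaller rank, and an
Ackermann potential bounds the length of the process.
-/

namespace Pool.Agent.Lib.MP_342291_lc.E

namespace Gm

/-- The growth function of level `e`. -/
def G (e : ℕ) : ℕ → ℕ := ack (4 + 3 * e)

/-- The number of new groups allowed at shifted time `y`. -/
def Fy (y : ℕ) : ℕ := 2 ^ (y * (y + 1))

/-- The potential of the counts `c` on the levels below `d` at shifted time `y`. -/
def P (c : ℕ → ℕ) (y : ℕ) : ℕ → ℕ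
  | 0 => y
  | d + 1 => (G d)^[c d] (P c y d)

theorem G_mono (e : ℕ) : Monotone (G e) := ack_mono_right _

theorem G_gt (e x : ℕ) : x < G e x := lt_ack_right _ _

theorem G_le {e e' : ℕ} (h : e ≤ e') (x : ℕ) : G e x ≤ G e' x :=
  ack_le_ack (by omega) le_rfl

theorem it_ge (e k x : ℕ) : x + k ≤ (G e)^[k] x := by
  induction k with
  | zero => simp
  | succ k ih =>
    rw [Function.iterate_succ_apply']
    have := G_gt e ((G e)^[k] x)
    omega

theorem it_mono (e k : ℕ) : Monotone (G e)^[k] := (G_mono e).iterate k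

theorem it_mono_k (e x : ℕ) {k l : ℕ} (h : k ≤ l) : (G e)^[k] x ≤ (G e)^[l] x := by
  obtain ⟨r, rfl⟩ := Nat.exists_eq_add_of_le h
  rw [add_comm, Function.iterate_add_apply]
  have := it_ge e r ((G e)^[k] x)
  omega

theorem it_le {e e' : ℕ} (h : e ≤ e') (k x : ℕ) : (G e)^[k] x ≤ (G e')^[k] x := by
  induction k with
  | zero => simp
  | succ k ih =>
    rw [Function.iterate_succ_apply', Function.iterate_succ_apply']
    exact (G_mono e ih).trans (G_le h _)

theorem it_ack (m k x : ℕ) : (ack m)^[k] x ≤ ack (m + 1) (x + k) := by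
  induction k with
  | zero => simpa using (lt_ack_right (m + 1) x).le
  | succ k ih =>
    rw [Function.iterate_succ_apply', ← add_assoc, ack_succ_succ]
    exact ack_mono_right m ih

theorem Fy_mono : Monotone Fy := fun _ _ h =>
  Nat.pow_le_pow_right (by norm_num) (Nat.mul_le_mul h (by omega))

theorem sq_lt (y : ℕ) : y * (y + 1) + 2 * y + 3 ≤ 2 ^ (y + 3) := by
  induction y with
  | zero => norm_num
  | succ y ih =>
    have h : y < 2 ^ y := Nat.lt_two_pow_self
    have h2 : 2 ^ (y + 1 + 3) = 2 * 2 ^ (y + 3) := by ring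
    have h3 : 2 ^ (y + 3) = 8 * 2 ^ y := by ring
    nlinarith

theorem Fy_le (y : ℕ) : y + 1 + (Fy y + y) ≤ ack 5 y := by
  have h1 : ack 3 (ack 3 y) < ack 5 y := by
    simpa using ack_ack_lt_ack_max_add_two 3 3 y
  have h2 : y * (y + 1) + 2 * y ≤ ack 3 y := by
    rw [ack_three]
    have := sq_lt y
    omega
  have h3 : ack 3 (y * (y + 1) + 2 * y) ≤ ack 3 (ack 3 y) := ack_mono_right 3 h2
  rw [ack_three] at h3
  have h4 : 2 ^ (y * (y + 1) + 2 * y + 3) = Fy y * (8 * 2 ^ (2 * y)) := by
    unfold Fy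
    ring
  have h5 : 2 * y < 2 ^ (2 * y) := Nat.lt_two_pow_self
  have h6 : 0 < Fy y := by unfold Fy; positivity
  have h7 : Fy y + 2 * y + 4 ≤ Fy y * (8 * 2 ^ (2 * y)) := by nlinarith
  omega

theorem G_succ (e y : ℕ) : (G e)^[Fy y + y] (y + 1) ≤ G (e + 1) y := by
  have h1 := it_ack (4 + 3 * e) (Fy y + y) (y + 1)
  have h2 := ack_mono_right (4 + 3 * e + 1) (Fy_le y)
  have h3 := ack_ack_lt_ack_max_add_two (4 + 3 * e + 1) 5 y
  have h4 : max (4 + 3 * e + 1) 5 + 2 = 4 + 3 * (e + 1) := by omega
  rw [h4] at h3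
  exact h1.trans (h2.trans h3.le)

theorem P_ge (c : ℕ → ℕ) (y d : ℕ) : y + ∑ i ∈ Finset.range d, c i ≤ P c y d := by
  induction d with
  | zero => simp [P]
  | succ d ih =>
    rw [Finset.sum_range_succ, P]
    have := it_ge d (c d) (P c y d)
    omega

theorem P_le (c : ℕ → ℕ) (y e d : ℕ) (h : d ≤ e + 1) :
    P c y d ≤ (G e)^[∑ i ∈ Finset.range d, c i] y := by
  induction d with
  | zero => simp [P]
  | succ d ih =>
    rw [Finset.sum_range_succ, P, add_comm _ (c d), Function.iterate_add_apply]
    exact (it_le (by omega) _ _).trans (it_mono e _ (ih (by omega)))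

theorem P_congr {c c' : ℕ → ℕ} (y d : ℕ) (h : ∀ i, i < d → c' i ≤ c i) : P c' y d ≤ P c y d := by
  induction d with
  | zero => simp [P]
  | succ d ih =>
    rw [P, P]
    exact (it_mono_k d _ (h d (by omega))).trans (it_mono d _ (ih fun i hi => h i (by omega)))

theorem P_up {c c' : ℕ → ℕ} {y y' e : ℕ} (h0 : P c' y' e ≤ P c y e)
    (h : ∀ i, e ≤ i → c' i ≤ c i) (d : ℕ) (hd : e ≤ d) : P c' y' d ≤ P c y d := by
  induction d, hd using Nat.le_induction with
  | base => exact h0
  | succ d hd ih =>
    rw [P, P]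
    exact (it_mono_k d _ (h d hd)).trans (it_mono d _ ih)

theorem P_step {c c' : ℕ → ℕ} {y e : ℕ} (h1 : c' e + 1 ≤ c e)
    (h2 : ∀ i, i + 1 = e → c' i ≤ c i + Fy y) (h3 : ∀ i, i + 1 ≠ e → c' i ≤ c i)
    (d : ℕ) (hd : e < d) : P c' (y + 1) d ≤ P c y d := by
  refine P_up (e := e + 1) ?_ (fun i hi => h3 i (by omega)) d hd
  have key : P c' (y + 1) e ≤ G e (P c y e) := by
    cases e with
    | zero => exact G_gt 0 y
    | succ e =>
      have a1 : P c' (y + 1) e ≤ P c (y + 1) e := P_congr _ _ fun i hi => h3 i (by omega)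
      have a2 := P_ge c y (e + 1)
      have a3 := P_le c (y + 1) e (e + 1) le_rfl
      have a4 : P c' (y + 1) (e + 1) ≤ (G e)^[Fy y] (P c (y + 1) (e + 1)) := by
        rw [P, P, ← Function.iterate_add_apply]
        exact (it_mono_k e _ (by have := h2 e rfl; omega)).trans (it_mono e _ a1)
      set z := P c y (e + 1) with hz
      have a5 : P c (y + 1) (e + 1) ≤ (G e)^[z] (z + 1) :=
        a3.trans ((it_mono_k e _ (by omega)).trans (it_mono e z (by omega)))
      have a6 : (G e)^[Fy y] (P c (y + 1) (e + 1)) ≤ (G e)^[Fy z + z] (z + 1) := by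
        rw [Function.iterate_add_apply]
        exact (it_mono_k e _ (Fy_mono (by omega))).trans (it_mono e _ a5)
      exact a4.trans (a6.trans (G_succ e z))
  rw [P, P]
  refine (it_mono e _ key).trans ?_
  rw [← Function.iterate_succ_apply]
  exact it_mono_k e _ h1

theorem P_zero (c : ℕ → ℕ) (y d : ℕ) (h : ∀ i, i < d → c i = 0) : P c y d = y := by
  induction d with
  | zero => rfl
  | succ d ih => rw [P, h d (by omega), ih fun i hi => h i (by omega)]; rfl

/-- The bound on the length of the process. -/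
def Rb (a : ℕ) : ℕ := ack (4 + 3 * a + 1) (a + a)

theorem Rb_computable : Computable Rb := by
  have h1 : Primrec fun a : ℕ => 4 + 3 * a + 1 :=
    Primrec.nat_add.comp (Primrec.nat_add.comp (Primrec.const 4)
      (Primrec.nat_mul.comp (Primrec.const 3) Primrec.id)) (Primrec.const 1)
  have h2 : Primrec fun a : ℕ => a + a := Primrec.nat_add.comp Primrec.id Primrec.id
  exact computable₂_ack.comp h1.to_comp h2.to_comp

end Gm

open Gm in
theorem game : ∃ Rb : ℕ → ℕ, Computable Rb ∧
    ∀ (τ ε : Type) [Fintype τ] (a : ℕ) (dim : Set ℕ → ℕ) (ty : ℕ → τ) (E : ℕ → Finset ε)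
      (H : ε → ℕ → Prop), Fintype.card τ ≤ a → (∀ S, dim S ≤ a) →
      (∀ i, (E i).card ≤ 2 ^ (a * (i + 1))) → (∀ i, ∀ e ∈ E i, ¬ H e i) →
      (∀ (S S2 : Set ℕ) e i, S2 ⊆ S → S2.Nonempty → (∀ j ∈ S2, H e j) → i ∈ S → ¬ H e i →
        dim S2 < dim S) →
      ∃ i j, i < j ∧ j ≤ Rb a ∧ ty i = ty j ∧ ∀ e ∈ E i, ¬ H e j := by
  classical
  refine ⟨Gm.Rb, Rb_computable, ?_⟩
  intro τ ε _ a dim ty E H hτ hdim hE hE' hdrop
  by_contra hno
  have hno' : ∀ i j, i < j → j ≤ Gm.Rb a → ty i = ty j → ∃ e ∈ E i, H e j := by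
    intro i j hij hj hty
    by_contra hc
    exact hno ⟨i, j, hij, hj, hty, fun e he hh => hc ⟨e, he, hh⟩⟩
  have inv : ∀ t, t ≤ Gm.Rb a + 1 → ∃ gr : ℕ → Finset (Set ℕ),
      (∀ l, ∀ S ∈ gr l, dim S ≤ l ∧ ∀ i ∈ S, ∀ j ∈ S, ty i = ty j) ∧
      (∀ j, t ≤ j → j ≤ Gm.Rb a → ∃ l, l ≤ a ∧ ∃ S ∈ gr l, j ∈ S) ∧
      P (fun l => (gr l).card) (t + a) (a + 1) ≤ Gm.Rb a := by
    intro t
    induction t with
    | zero =>
      intro _
      refine ⟨fun l => if l = a then Finset.univ.image fun x : τ => {i | ty i = x} else ∅,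
        ?_, ?_, ?_⟩
      · intro l S hS
        by_cases hl : l = a
        · simp only [hl, if_true, Finset.mem_image] at hS
          obtain ⟨x, -, rfl⟩ := hS
          exact ⟨hl ▸ hdim _, fun i hi j hj => hi.trans hj.symm⟩
        · simp [hl] at hS
      · intro j _ _
        refine ⟨a, le_rfl, {i | ty i = ty j}, ?_, rfl⟩
        simp only [if_true, Finset.mem_image]
        exact ⟨ty j, Finset.mem_univ _, rfl⟩
      · rw [P, P_zero _ _ _ (fun i hi => by simp [hi.ne])]
        simp only [if_true, zero_add]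
        refine (it_mono_k a a ?_).trans (it_ack (4 + 3 * a) a a)
        exact Finset.card_image_le.trans (by simpa using hτ)
    | succ t ih =>
      intro ht
      obtain ⟨gr, h1, h2, h3⟩ := ih (by omega)
      obtain ⟨e, hea, S, hS, htS⟩ := h2 t le_rfl (by omega)
      let nw : Finset (Set ℕ) :=
        ((E t).image fun x => {j | j ∈ S ∧ H x j}).filter fun S2 => S2.Nonempty
      have hnw : ∀ S2 ∈ nw, S2 ⊆ S ∧ dim S2 < e := by
        intro S2 hS2
        obtain ⟨hm, hne⟩ := Finset.mem_filter.1 hS2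
        obtain ⟨x, hx, rfl⟩ := Finset.mem_image.1 hm
        refine ⟨fun j hj => hj.1, ?_⟩
        exact (hdrop S _ x t (fun j hj => hj.1) hne (fun j hj => hj.2) htS
          (hE' t x hx)).trans_le (h1 e S hS).1
      have hcard : nw.card ≤ Fy (t + a) := by
        refine (Finset.card_filter_le _ _).trans (Finset.card_image_le.trans ((hE t).trans ?_))
        exact Nat.pow_le_pow_right (by norm_num) (Nat.mul_le_mul (by omega) (by omega))
      refine ⟨fun l => if l = e then (gr l).erase S else if l + 1 = e then gr l ∪ nw else gr l,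
        ?_, ?_, ?_⟩
      · intro l S' hS'
        by_cases hl : l = e
        · simp only [hl, if_true] at hS'
          exact hl ▸ h1 e S' (Finset.mem_of_mem_erase hS')
        · by_cases hl' : l + 1 = e
          · simp only [hl, hl', if_true, if_false, Finset.mem_union] at hS'
            rcases hS' with hS' | hS'
            · exact h1 l S' hS'
            · obtain ⟨b1, b2⟩ := hnw S' hS'
              exact ⟨by omega, fun i hi j hj => (h1 e S hS).2 i (b1 hi) j (b1 hj)⟩
          · simp only [hl, hl', if_false] at hS'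
            exact h1 l S' hS'
      · intro j hj hjR
        by_cases hjS : j ∈ S
        · obtain ⟨x, hx, hxj⟩ := hno' t j (by omega) hjR ((h1 e S hS).2 t htS j hjS)
          have hm : {j | j ∈ S ∧ H x j} ∈ nw :=
            Finset.mem_filter.2 ⟨Finset.mem_image.2 ⟨x, hx, rfl⟩, j, hjS, hxj⟩
          have he := (hnw _ hm).2
          refine ⟨e - 1, by omega, {j | j ∈ S ∧ H x j}, ?_, hjS, hxj⟩
          have n1 : ¬ e - 1 = e := by omega
          have n2 : e - 1 + 1 = e := by omega
          simp only [n1, n2, if_true, if_false, Finset.mem_union]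
          exact Or.inr hm
        · obtain ⟨l, hl, S', hS', hjS'⟩ := h2 j (by omega) hjR
          refine ⟨l, hl, S', ?_, hjS'⟩
          by_cases hle : l = e
          · simp only [hle, if_true]
            exact Finset.mem_erase.2 ⟨fun h => hjS (h ▸ hjS'), hle ▸ hS'⟩
          · by_cases hl' : l + 1 = e
            · simp only [hle, hl', if_true, if_false, Finset.mem_union]
              exact Or.inl hS'
            · simp only [hle, hl', if_false]
              exact hS'
      · refine le_trans ?_ h3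
        rw [show t + 1 + a = t + a + 1 by omega]
        refine P_step (e := e) ?_ ?_ ?_ _ (by omega)
        · simp only [if_true]
          exact (Finset.card_erase_lt_of_mem hS)
        · intro i hi
          have n1 : ¬ i = e := by omega
          simp only [n1, hi, if_true, if_false]
          exact (Finset.card_union_le _ _).trans (by omega)
        · intro i hi
          by_cases hie : i = e
          · simp only [hie, if_true]
            exact Finset.card_erase_le
          · simp only [hie, hi, if_false]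
            exact le_rfl
  obtain ⟨gr, -, -, h3⟩ := inv (Gm.Rb a + 1) le_rfl
  have := P_ge (fun l => (gr l).card) (Gm.Rb a + 1 + a) (a + 1)
  omega

end Pool.Agent.Lib.MP_342291_lc.E
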