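import Pool.Agent.Lib.MP_342291_lc.E.Cut

/-!
Properties of the pumping operation.
-/

namespace Pool.Agent.Lib.MP_342291_lc.E

variable {F : Type} {ar : F → ℕ} {K : Type} {δ : K → ℕ → Option K} {Γ0 : K} {Wi Wj : List ℕ}
  {z : GT F ar}

theorem lab_pump {Γ : K} (u : GT F ar) {p : List ℕ} (h : ¬ Mark δ Γ0 Wi Γ p) :
    lab (pump δ Γ0 Wi Wj z Γ u) p = lab u p := lab_cut _ u h

theorem sub_pump_mark (hW : Wi <+: Wj) {Γ : K} {u y : GT F ar} {ρ : List ℕ}
    (h : First δ Γ0 Γ ρ) (hy : sub u (ρ ++ Wj) = some y) (r : List ℕ) :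
    sub (pump δ Γ0 Wi Wj z Γ u) (ρ ++ Wi ++ r) = sub u (ρ ++ Wj ++ r) := by
  obtain ⟨x, hx⟩ := exists_sub_prefix hy ((List.prefix_append_right_inj ρ).2 hW)
  have h1 := sub_cut_mark (fun ρ => (sub u (ρ ++ Wj)).getD z) h hx
  simp only [hy, Option.getD_some] at h1
  rw [sub_append_of hy]
  exact sub_append_of h1 r

theorem lab_pump_mark (hW : Wi <+: Wj) {Γ : K} {u y : GT F ar} {ρ : List ℕ}
    (h : First δ Γ0 Γ ρ) (hy : sub u (ρ ++ Wj) = some y) (r : List ℕ) :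
    lab (pump δ Γ0 Wi Wj z Γ u) (ρ ++ Wi ++ r) = lab u (ρ ++ Wj ++ r) := by
  unfold lab
  rw [sub_pump_mark hW h hy]

theorem sub_pump_free {Γ : K} (u : GT F ar) {p : List ℕ} (h : ¬ Mark δ Γ0 Wi Γ p)
    (h' : ∀ ρ, First δ Γ0 Γ ρ → ¬ p <+: ρ ++ Wi) :
    sub (pump δ Γ0 Wi Wj z Γ u) p = sub u p :=
  sub_eq_of_lab fun r => lab_pump u fun ⟨ρ, h1, h2⟩ => by
    rcases List.prefix_or_prefix_of_prefix h2 (List.prefix_append p r) with h3 | h3
    · exact h ⟨ρ, h1, h3⟩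
    · exact h' ρ h1 h3

theorem not_mark_of_short {Γ : K} {p : List ℕ} (h : p.length < Wi.length) :
    ¬ Mark δ Γ0 Wi Γ p := fun ⟨ρ, _, h2⟩ => by
  have := h2.length_le
  rw [List.length_append] at this
  omega

theorem size_cut (g : List ℕ → GT F ar) (Γ : K) (u : GT F ar)
    (h : ∀ ρ, First δ Γ0 Γ ρ → ∃ x, sub u (ρ ++ Wi) = some x ∧ size (g ρ) < size x) :
    size (cut δ Γ0 Wi g Γ u) ≤ size u ∧
      ((∃ ρ, First δ Γ0 Γ ρ) → size (cut δ Γ0 Wi g Γ u) < size u) := by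
  induction u generalizing g Γ with
  | var e => exact e.elim
  | app f ts ih =>
    by_cases hΓ : Γ = Γ0
    · subst hΓ
      obtain ⟨x, hx, hlt⟩ := h [] (first_self δ Γ)
      rw [cut_self, lift_self]
      have := size_rep (p := Wi) hx (g [])
      constructor
      · omega
      · intro _
        omega
    · have key : ∀ (i : Fin (ar f)) (Γ' : K), δ Γ i = some Γ' →
          size (cut δ Γ0 Wi (fun ρ => g (i :: ρ)) Γ' (ts i)) ≤ size (ts i) ∧
          ((∃ ρ, First δ Γ0 Γ' ρ) →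
            size (cut δ Γ0 Wi (fun ρ => g (i :: ρ)) Γ' (ts i)) < size (ts i)) := fun i Γ' hδ =>
        ih i _ Γ' fun ρ hρ => by
          obtain ⟨x, hx, hlt⟩ := h (i :: ρ) ((first_cons hΓ hδ).2 hρ)
          rw [List.cons_append, sub_cons_of (child_app f ts i)] at hx
          exact ⟨x, hx, hlt⟩
      have hle : ∀ i : Fin (ar f), size (match δ Γ i with
          | none => (lift (ts i) : GT F ar)
          | some Γ' => cut δ Γ0 Wi (fun ρ => g (i :: ρ)) Γ' (ts i)) ≤ size (ts i) := fun i => by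
        cases hδ : δ Γ i with
        | none => simp [lift_self]
        | some Γ' => exact (key i Γ' hδ).1
      simp only [cut, if_neg hΓ, size]
      refine ⟨Nat.add_le_add_left (Finset.sum_le_sum fun i _ => hle i) 1, fun ⟨ρ, hρ⟩ => ?_⟩
      obtain ⟨i, ρ', Γ', rfl, hδ, hρ'⟩ := hρ.cases hΓ
      obtain ⟨x, hx, -⟩ := h _ hρ
      obtain ⟨y, hy, -⟩ := sub_split (p := [i]) (q := ρ' ++ Wi) hx
      rw [sub_single] at hy
      have hi : i < ar f := Classical.byContradiction fun hi => by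
        rw [child_app_none _ _ hi] at hy
        cases hy
      refine Nat.add_lt_add_left (Finset.sum_lt_sum (fun i _ => hle i)
        ⟨⟨i, hi⟩, Finset.mem_univ _, ?_⟩) 1
      have := (key ⟨i, hi⟩ Γ' hδ).2 ⟨ρ', hρ'⟩
      simp only [hδ]
      exact this

theorem size_pump (hW : Wi <+: Wj) (hne : Wi ≠ Wj) (Γ : K) (u : GT F ar)
    (h : ∀ ρ, First δ Γ0 Γ ρ → ∃ y, sub u (ρ ++ Wj) = some y) :
    size (pump δ Γ0 Wi Wj z Γ u) ≤ size u ∧
      ((∃ ρ, First δ Γ0 Γ ρ) → size (pump δ Γ0 Wi Wj z Γ u) < size u) := by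
  refine size_cut _ Γ u fun ρ hρ => ?_
  obtain ⟨y, hy⟩ := h ρ hρ
  obtain ⟨r, rfl⟩ := hW
  have hy' := hy
  rw [← List.append_assoc] at hy'
  obtain ⟨x, hx, hxy⟩ := sub_split hy'
  refine ⟨x, hx, ?_⟩
  have h1 := size_sub_le hxy
  have h2 : 0 < r.length := List.length_pos_iff.2 fun h' => hne (by simp [h'])
  simp only [hy, Option.getD_some]
  omega

theorem child_pump_of_ne {Γ Γ' : K} (hΓ : Γ ≠ Γ0) {u x : GT F ar} {i : ℕ}
    (hx : child u i = some x) (hδ : δ Γ i = some Γ') :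
    child (pump δ Γ0 Wi Wj z Γ u) i = some (pump δ Γ0 Wi Wj z Γ' x) := by
  unfold pump
  rw [child_cut_some _ hΓ hx hδ]
  simp only [List.cons_append, sub_cons_of hx]

theorem child_pump_cyc (hW : Wi <+: Wj) (hW0 : Wi ≠ []) {Γ' : K} {u x0 x y w : GT F ar} {i : ℕ}
    {s : List ℕ} (hx0 : child u i = some x0) (hδ : δ Γ0 i = some Γ') (hs : s ≠ [])
    (h1 : walk δ Γ0 s = some Γ0)
    (h2 : ∀ q, q <+: s → q ≠ [] → q ≠ s → walk δ Γ0 q ≠ some Γ0)
    (h3 : ∀ q, walk δ Γ0 q = some Γ0 → q ≠ [] → s <+: q)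
    (h4 : s ++ Wi = Wi ++ s) (h5 : s ++ Wj = Wj ++ s) (hx : sub u Wi = some x)
    (hy : sub u Wj = some y) (hA : Agr x y s) (hw : sub y s = some w) :
    child (pump δ Γ0 Wi Wj z Γ0 u) i = some (pump δ Γ0 Wi Wj z Γ' x0) := by
  have hwalk : ∀ q, walk δ Γ0 (i :: q) = walk δ Γ' q := fun q => by rw [walk_cons, hδ]; rfl
  have hm : ∀ r, lab (pump δ Γ0 Wi Wj z Γ0 u) (Wi ++ r) = lab y r := fun r => by
    have := lab_pump_mark (z := z) hW (first_self δ Γ0) (u := u) (y := y) hy r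
    rw [List.nil_append, List.nil_append] at this
    rw [this, lab_append_of hy]
  have la1 : ∀ ρ, ¬ s ++ Wi <+: ρ → lab (pump δ Γ0 Wi Wj z Γ0 u) ρ = lab u ρ := fun ρ hρ => by
    by_cases h : Wi <+: ρ
    · obtain ⟨r, rfl⟩ := h
      rw [hm, lab_append_of hx]
      refine (hA r fun h' => hρ ?_).symm
      rw [h4]
      exact (List.prefix_append_right_inj Wi).2 h'
    · refine lab_pump u fun ⟨ρ0, h6, h7⟩ => h ?_
      rw [h6.eq_nil] at h7
      exact h7
  have la2 : ∀ r, lab (pump δ Γ0 Wi Wj z Γ0 u) (s ++ Wi ++ r) = lab u (s ++ Wj ++ r) := fun r => by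
    rw [h4, h5, List.append_assoc, hm, List.append_assoc, lab_append_of hy]
  have hhd : hd (pump δ Γ0 Wi Wj z Γ0 u) = hd u := by
    have := lab_pump (δ := δ) (Γ0 := Γ0) (Wj := Wj) (z := z) (Γ := Γ0) u (p := [])
      (not_mark_of_short (List.length_pos_iff.2 hW0))
    simpa using this
  obtain ⟨x1, hx1⟩ := exists_child_of_hd hhd hx0
  rw [hx1]
  congr 1
  refine ext_lab fun r => ?_
  rw [← lab_cons_of hx1]
  by_cases hr : Mark δ Γ0 Wi Γ' r
  · obtain ⟨ρ0, h6, r', rfl⟩ := hr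
    have h7 : s <+: i :: ρ0 := h3 _ (by rw [hwalk]; exact h6.1) (by simp)
    obtain ⟨j, s', rfl⟩ := List.exists_cons_of_ne_nil hs
    obtain ⟨rfl, h8⟩ := List.cons_prefix_cons.1 h7
    obtain rfl : s' = ρ0 := Classical.byContradiction fun h9 =>
      h6.2 s' h8 h9 (by rw [← hwalk]; exact h1)
    have h9 : sub x0 (s' ++ Wj) = some w := by
      rw [← sub_cons_of hx0, ← List.cons_append, h5, sub_append_of hy, hw]
    rw [lab_pump_mark hW h6 h9, ← lab_cons_of hx0]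
    exact la2 r'
  · rw [lab_pump x0 hr, ← lab_cons_of hx0]
    refine la1 _ fun h6 => hr ?_
    obtain ⟨j, s', rfl⟩ := List.exists_cons_of_ne_nil hs
    obtain ⟨rfl, h8⟩ := List.cons_prefix_cons.1 h6
    refine ⟨s', ⟨by rw [← hwalk]; exact h1, fun q hq hq' => ?_⟩, h8⟩
    rw [← hwalk]
    exact h2 _ (List.cons_prefix_cons.2 ⟨rfl, hq⟩) (by simp) (by simpa using hq')

variable {k D n : ℕ} {t : Fin k → GT F ar} {cl : GT F ar → K}

theorem PD.wpos (H : PD t D n δ Γ0 cl Wi Wj) : 0 < Wi.length := H.pos.trans_le H.len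

theorem PD.hd_pump (H : PD t D n δ Γ0 cl Wi Wj) (Γ : K) (u : GT F ar) :
    hd (pump δ Γ0 Wi Wj z Γ u) = hd u := by
  have := lab_pump (δ := δ) (Γ0 := Γ0) (Wj := Wj) (z := z) (Γ := Γ) u (p := [])
    (not_mark_of_short H.wpos)
  simpa using this

theorem PD.hom (H : PD t D n δ Γ0 cl Wi Wj) {a : Fin k} {p : List ℕ} {u : GT F ar}
    (hu : sub (t a) p = some u) (hp : p.length < D) (i : ℕ) :
    child (pump δ Γ0 Wi Wj z (cl u) u) i =
      (child u i).map fun x => pump δ Γ0 Wi Wj z (cl x) x := by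
  cases hx : child u i with
  | none =>
    cases hy : child (pump δ Γ0 Wi Wj z (cl u) u) i with
    | none => rfl
    | some y =>
      obtain ⟨x, hx'⟩ := exists_child_of_hd (H.hd_pump (z := z) (cl u) u).symm hy
      rw [hx] at hx'
      cases hx'
  | some x =>
    have hδ := H.dcl a p u i x hu hp hx
    by_cases hΓ : cl u = Γ0
    · obtain ⟨s, x', y, w, hs, h1, h2, h3, h4, h5, h6, h7, h8, h9⟩ := H.cyc a p u hu hp hΓ
      rw [hΓ] at hδ ⊢
      exact child_pump_cyc H.pre (List.length_pos_iff.1 H.wpos) hx hδ hs h1 h2 h3 h4 h5 h6 h7 h8 h9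
    · exact child_pump_of_ne hΓ hx hδ

theorem PD.sub_hom (H : PD t D n δ Γ0 cl Wi Wj) (a : Fin k) {p : List ℕ} {u : GT F ar}
    (hu : sub (t a) p = some u) (hp : p.length ≤ D) :
    sub (pump δ Γ0 Wi Wj z (cl (t a)) (t a)) p = some (pump δ Γ0 Wi Wj z (cl u) u) := by
  induction p using List.reverseRecOn generalizing u with
  | nil =>
    simp only [sub_nil, Option.some.injEq] at hu ⊢
    rw [hu]
  | append_singleton p i ih =>
    obtain ⟨x, hx, hxu⟩ := sub_split hu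
    rw [sub_single] at hxu
    rw [List.length_append, List.length_singleton] at hp
    rw [sub_concat_of (ih hx (by omega)), H.hom hx (by omega), hxu]
    rfl

theorem PD.agr_short (H : PD t D n δ Γ0 cl Wi Wj) {a b : Fin k} {P p q : List ℕ} {u v : GT F ar}
    (hu : sub (t a) p = some u) (hv : sub (t b) q = some v) (hp : p.length + P.length ≤ D)
    (hq : q.length + P.length ≤ D) (hA : Agr u v P) :
    Agr (pump δ Γ0 Wi Wj z (cl u) u) (pump δ Γ0 Wi Wj z (cl v) v) P := by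
  induction P generalizing p q u v with
  | nil => exact agr_nil _ _
  | cons i P ih =>
    rw [List.length_cons] at hp hq
    obtain ⟨h1, h2, h3⟩ := agr_cons.1 hA
    refine agr_cons.2 ⟨by rw [H.hd_pump, H.hd_pump, h1], fun j hj => ?_, fun x y hx hy => ?_⟩
    · rw [H.hom hu (by omega), H.hom hv (by omega), h2 j hj]
    · rw [H.hom hu (by omega)] at hx
      rw [H.hom hv (by omega)] at hy
      obtain ⟨x0, hx0, rfl⟩ := Option.map_eq_some_iff.1 hx
      obtain ⟨y0, hy0, rfl⟩ := Option.map_eq_some_iff.1 hy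
      exact ih (p := p ++ [i]) (q := q ++ [i]) (by rw [sub_concat_of hu, hx0])
        (by rw [sub_concat_of hv, hy0]) (by simp; omega) (by simp; omega) (h3 _ _ hx0 hy0)

theorem PD.long (H : PD t D n δ Γ0 cl Wi Wj) {a b : Fin k} {P : List ℕ}
    (hA : Agr (t a) (t b) P) (hL : Lg n δ Γ0 cl Wi Wj (t a) (t b) P) :
    ∃ q q', q <+: P ∧
      Agr (pump δ Γ0 Wi Wj z (cl (t a)) (t a)) (pump δ Γ0 Wi Wj z (cl (t b)) (t b)) q' ∧
      sub (pump δ Γ0 Wi Wj z (cl (t a)) (t a)) q' = sub (t a) q ∧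
      sub (pump δ Γ0 Wi Wj z (cl (t b)) (t b)) q' = sub (t b) q ∧
      ∀ p, p <+: q' → p ≠ q' → p <+: P ∧ p.length ≤ n + Wi.length + 1 ∧
        ¬ Mark δ Γ0 Wi (cl (t a)) p := by
  obtain ⟨hcl, hlen, hwin⟩ := hL
  have hdb : ∀ ρ, First δ Γ0 (cl (t a)) ρ → ∃ x, sub (t b) (ρ ++ Wj) = some x := fun ρ hρ =>
    H.dom b ρ (hcl ▸ hρ)
  have hij := H.pre.length_le
  have hagr : ∀ q', (∀ ρ, First δ Γ0 (cl (t a)) ρ → ρ ++ Wj <+: P → q' <+: ρ ++ Wi) →
      (∀ r, ¬ Mark δ Γ0 Wi (cl (t a)) r → P <+: r → q' <+: r) →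
      Agr (pump δ Γ0 Wi Wj z (cl (t a)) (t a)) (pump δ Γ0 Wi Wj z (cl (t b)) (t b)) q' := by
    intro q' h1 h2 r hr
    rw [← hcl]
    by_cases hm : Mark δ Γ0 Wi (cl (t a)) r
    · obtain ⟨ρ, hρ, r', rfl⟩ := hm
      obtain ⟨x, hx⟩ := H.dom a ρ hρ
      obtain ⟨y, hy⟩ := hdb ρ hρ
      rw [lab_pump_mark H.pre hρ hx, lab_pump_mark H.pre hρ hy]
      refine hA _ fun h3 => hr ((h1 ρ hρ ?_).trans (List.prefix_append _ _))
      refine List.prefix_of_prefix_length_le (List.prefix_append _ r') h3 ?_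
      have := H.first _ _ hρ
      rw [List.length_append]
      omega
    · rw [lab_pump _ hm, lab_pump _ hm]
      exact hA _ fun h3 => hr (h2 r hm h3)
  by_cases hf : ∃ ρ, First δ Γ0 (cl (t a)) ρ ∧ ρ ++ Wj <+: P
  · obtain ⟨ρ, hρ, hP⟩ := hf
    have hP' : ρ ++ Wi <+: P := ((List.prefix_append_right_inj ρ).2 H.pre).trans hP
    obtain ⟨x, hx⟩ := H.dom a ρ hρ
    obtain ⟨y, hy⟩ := hdb ρ hρ
    refine ⟨ρ ++ Wj, ρ ++ Wi, hP, hagr _ (fun ρ' hρ' h1 => ?_) fun r hr h1 => hP'.trans h1,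
      ?_, ?_, fun p hp hp' => ⟨hp.trans hP', ?_, fun ⟨ρ', hρ', h1⟩ => hp' ?_⟩⟩
    · rw [hρ.unique hρ' ((List.prefix_append _ _).trans hP) ((List.prefix_append _ _).trans h1)]
    · simpa using sub_pump_mark (z := z) H.pre hρ hx []
    · rw [← hcl]
      simpa using sub_pump_mark (z := z) H.pre hρ hy []
    · have h1 := hp.length_le
      have := H.first _ _ hρ
      rw [List.length_append] at h1
      omega
    · obtain rfl := hρ.unique hρ' (List.prefix_append _ _)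
        (((List.prefix_append _ _).trans h1).trans hp)
      exact hp.eq_of_length_le h1.length_le
  · have hnm : ∀ p, p <+: P → ¬ Mark δ Γ0 Wi (cl (t a)) p := fun p hp ⟨ρ, hρ, h1⟩ =>
      hf ⟨ρ, hρ, hwin ρ hρ (h1.trans hp)⟩
    have hq : (P.take (n + Wi.length + 1)).length = n + Wi.length + 1 := by
      rw [List.length_take]
      omega
    have hfree : ∀ ρ, First δ Γ0 (cl (t a)) ρ → ¬ P.take (n + Wi.length + 1) <+: ρ ++ Wi :=
      fun ρ hρ h1 => by
        have h2 := h1.length_le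
        have := H.first _ _ hρ
        rw [hq, List.length_append] at h2
        omega
    refine ⟨P.take (n + Wi.length + 1), P.take (n + Wi.length + 1), List.take_prefix _ _,
      hagr _ (fun ρ hρ h1 => absurd ⟨ρ, hρ, h1⟩ hf) fun r _ h1 => (List.take_prefix _ _).trans h1,
      sub_pump_free _ (hnm _ (List.take_prefix _ _)) hfree, ?_,
      fun p hp _ => ⟨hp.trans (List.take_prefix _ _), hp.length_le.trans hq.le,
        hnm _ (hp.trans (List.take_prefix _ _))⟩⟩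
    rw [← hcl]
    exact sub_pump_free _ (hnm _ (List.take_prefix _ _)) hfree

end Pool.Agent.Lib.MP_342291_lc.E
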