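import Pool.Agent.Lib.MP_342291_lc.E.Cut

/-!
Block Top: the small model property from the blocks Edg, Fin, Good and Cls.
-/

namespace Pool.Agent.Lib.MP_342291_lc.E

namespace Tp

section comp

variable {α : Type} [Primcodable α]

theorem cadd {f g : α → ℕ} (hf : Computable f) (hg : Computable g) :
    Computable fun x => f x + g x := Primrec.nat_add.to_comp.comp hf hg

theorem cmul {f g : α → ℕ} (hf : Computable f) (hg : Computable g) :
    Computable fun x => f x * g x := Primrec.nat_mul.to_comp.comp hf hg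

theorem cpow {f g : α → ℕ} (hf : Computable f) (hg : Computable g) :
    Computable fun x => f x ^ g x :=
  (Primrec₂.unpaired'.1 Nat.Primrec.pow).to_comp.comp hf hg

theorem caPar (A σ h : ℕ) {k n M : α → ℕ} (hk : Computable k) (hn : Computable n)
    (hM : Computable M) : Computable fun x => aPar (k x) A σ h (n x) (M x) := by
  have c := fun a : ℕ => (Computable.const a : Computable fun _ : α => a)
  have h1 : Computable fun x => k x * (A + 1) ^ (n x + h) :=
    cmul hk (cpow (c _) (cadd hn (c _)))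
  exact cadd (cadd (cadd h1 (cpow (c _) h1)) (cmul (c _) hk))
    (cmul (c _) (cadd (cadd (cadd (cmul (c _) hn) (cmul hM hn)) (c _)) (c _)))

theorem mSeq_eq (D : ℕ) (w : ℕ → ℕ) (r : ℕ) :
    mSeq D w r = Nat.rec (motive := fun _ => ℕ) D (fun _ x => x + w x + 2) r := by
  induction r with
  | zero => rfl
  | succ r ih => rw [mSeq, ih]

theorem cmSeq {D r : α → ℕ} {w : α → ℕ → ℕ} (hD : Computable D) (hr : Computable r)
    (hw : Computable fun p : α × ℕ => w p.1 p.2) :
    Computable fun x => mSeq (D x) (w x) (r x) := by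
  have h1 : Computable fun p : α × ℕ × ℕ => p.2.2 := Computable.snd.comp Computable.snd
  have h2 : Computable fun p : α × ℕ × ℕ => w p.1 p.2.2 :=
    hw.comp (Computable.pair Computable.fst h1)
  have h3 : Computable₂ fun (x : α) (q : ℕ × ℕ) => q.2 + w x q.2 + 2 :=
    cadd (cadd h1 h2) (Computable.const 2)
  exact (Computable.nat_rec hr hD h3).of_eq fun x => (mSeq_eq _ _ _).symm

theorem clPar {n m D : α → ℕ} {w : α → ℕ → ℕ} (hn : Computable n) (hm : Computable m)
    (hD : Computable D) (hw : Computable fun p : α × ℕ => w p.1 p.2) :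
    Computable fun x => lPar (n x) (m x) (D x) (w x) := by
  have c := fun a : ℕ => (Computable.const a : Computable fun _ : α => a)
  have h1 : Computable fun x => n x ^ 2 + 3 * n x + 2 :=
    cadd (cadd (cpow hn (c _)) (cmul (c _) hn)) (c _)
  have h2 : Computable fun x => m x * (n x ^ 2 + 3 * n x + 2) + 1 := cadd (cmul hm h1) (c _)
  exact cadd (cadd h1 (cmul h2 (cadd (cmul (c _) hn) (c _))))
    (cmul (cadd (cmSeq hD h2 hw) (c _)) (cadd hn (c _)))

end comp

/-- The window function at depth `D`. -/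
def wD (Rb : ℕ → ℕ) (A σ h k D : ℕ) (M : ℕ) : ℕ := Rb (aPar k A σ h (k * (A + 1) ^ D) M)

/-- The length above which an edge is long, at depth `D`. -/
def lD (Rb : ℕ → ℕ) (A σ h k D : ℕ) : ℕ :=
  lPar (k * (A + 1) ^ D) (k * k + k) D (wD Rb A σ h k D)

/-- The successive depths. -/
def dSeq (Rb : ℕ → ℕ) (A σ h k : ℕ) : ℕ → ℕ
  | 0 => h + 2
  | r + 1 => lD Rb A σ h k (dSeq Rb A σ h k r) + h + 2

theorem dSeq_eq (Rb : ℕ → ℕ) (A σ h k r : ℕ) : dSeq Rb A σ h k r =
    Nat.rec (motive := fun _ => ℕ) (h + 2) (fun _ x => lD Rb A σ h k x + h + 2) r := by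
  induction r with
  | zero => rfl
  | succ r ih => rw [dSeq, ih]

theorem clD {Rb : ℕ → ℕ} (hRb : Computable Rb) (A σ h : ℕ) :
    Computable fun p : ℕ × ℕ => lD Rb A σ h p.1 p.2 := by
  have hn : Computable fun p : ℕ × ℕ => p.1 * (A + 1) ^ p.2 :=
    cmul Computable.fst (cpow (Computable.const _) Computable.snd)
  have hw : Computable fun q : (ℕ × ℕ) × ℕ => wD Rb A σ h q.1.1 q.1.2 q.2 :=
    hRb.comp (caPar A σ h (Computable.fst.comp Computable.fst) (hn.comp Computable.fst)
      Computable.snd)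
  exact clPar (w := fun p : ℕ × ℕ => wD Rb A σ h p.1 p.2) hn
    (cadd (cmul Computable.fst Computable.fst) Computable.fst) Computable.snd hw

theorem crec (g : ℕ × ℕ → ℕ) (hg : Computable g) (h : ℕ) : Computable fun k : ℕ =>
    Nat.rec (motive := fun _ => ℕ) (h + 2) (fun _ x => g (k, x) + h + 2) (k * k + k) := by
  have h1 : Computable fun p : ℕ × ℕ × ℕ => p.2.2 := Computable.snd.comp Computable.snd
  have h2 : Computable fun p : ℕ × ℕ × ℕ => g (p.1, p.2.2) :=
    hg.comp (Computable.pair Computable.fst h1)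
  have h3 : Computable₂ fun (k : ℕ) (q : ℕ × ℕ) => g (k, q.2) + h + 2 :=
    cadd (cadd h2 (Computable.const h)) (Computable.const 2)
  have h4 : Computable fun k : ℕ => k * k + k :=
    cadd (cmul Computable.id Computable.id) Computable.id
  exact Computable.nat_rec h4 (Computable.const (h + 2)) h3

theorem cB {Rb : ℕ → ℕ} (hRb : Computable Rb) (A σ h : ℕ) :
    Computable fun k => dSeq Rb A σ h k (k * k + k) := by
  refine (crec _ (clD hRb A σ h) h).of_eq fun k => ?_
  rw [dSeq_eq]

theorem le_mSeq (D : ℕ) (w : ℕ → ℕ) (r : ℕ) : D ≤ mSeq D w r := by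
  induction r with
  | zero => exact le_rfl
  | succ r ih => rw [mSeq]; omega

theorem le_lPar (n m D : ℕ) (w : ℕ → ℕ) : D ≤ lPar n m D w := by
  have h1 := le_mSeq D w (m * (n ^ 2 + 3 * n + 2) + 1)
  have h2 : mSeq D w (m * (n ^ 2 + 3 * n + 2) + 1) + 2 ≤
      (mSeq D w (m * (n ^ 2 + 3 * n + 2) + 1) + 2) * (n + 1) :=
    Nat.le_mul_of_pos_right _ (Nat.succ_pos n)
  unfold lPar
  omega

theorem dSeq_mono (Rb : ℕ → ℕ) (A σ h k : ℕ) : Monotone (dSeq Rb A σ h k) :=
  monotone_nat_of_le_succ fun r => by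
    have := le_lPar (k * (A + 1) ^ dSeq Rb A σ h k r) (k * k + k) (dSeq Rb A σ h k r)
      (wD Rb A σ h k (dSeq Rb A σ h k r))
    rw [dSeq, lD]
    omega

/-- Among `m + 1` disjoint intervals one contains none of `m` numbers. -/
theorem gap {ι : Type} [Fintype ι] (m h : ℕ) (hm : Fintype.card ι ≤ m) (len : ι → ℕ)
    (d l : ℕ → ℕ) (hd : Monotone d) (hl : ∀ r, d (r + 1) = l r + h + 2) :
    ∃ r, r ≤ m ∧ ∀ e, len e + h + 1 < d r ∨ l r ≤ len e := by
  by_contra hc
  have h1 : ∀ r : Fin (m + 1), ∃ e, d r ≤ len e + h + 1 ∧ len e < l r := by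
    intro r
    by_contra h2
    refine hc ⟨r, by omega, fun e => ?_⟩
    by_contra h3
    exact h2 ⟨e, by omega, by omega⟩
  choose g hg using h1
  have key : ∀ r s : Fin (m + 1), (r : ℕ) < s → g r ≠ g s := by
    intro r s hrs he
    have a1 := hg r
    have a2 := hg s
    have a3 := hd (show (r : ℕ) + 1 ≤ s from hrs)
    have a4 := hl r
    rw [he] at a1
    omega
  have hinj : Function.Injective g := by
    intro r s he
    rcases lt_trichotomy (r : ℕ) s with h2 | h2 | h2
    · exact absurd he (key r s h2)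
    · exact Fin.ext h2
    · exact absurd he.symm (key s r h2)
  have := Fintype.card_le_of_injective g hinj
  rw [Fintype.card_fin] at this
  omega

variable {F : Type} {ar : F → ℕ} {V : Type}

theorem ht_size (t : Tm F ar V) {n : ℕ} (h : size t ≤ n) : Ht t n := fun p u hp => by
  have := size_sub_le hp
  omega

theorem exists_deepest (t : Tm F ar V) : ∃ P, (∃ x, sub t P = some x) ∧ Ht t P.length := by
  classical
  have hex : ∃ n, Ht t n := ⟨size t, ht_size t le_rfl⟩
  by_cases h0 : Nat.find hex = 0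
  · exact ⟨[], ⟨t, sub_nil _⟩, by simpa [h0] using Nat.find_spec hex⟩
  · have h1 : ¬ Ht t (Nat.find hex - 1) := Nat.find_min hex (by omega)
    obtain ⟨P, x, hx, hP⟩ : ∃ P x, sub t P = some x ∧ Nat.find hex - 1 < P.length := by
      by_contra hc
      exact h1 fun p u hp => not_lt.1 fun h => hc ⟨p, u, hp, h⟩
    exact ⟨P, ⟨x, hx⟩, fun p u hp => (Nat.find_spec hex p u hp).trans (by omega)⟩

end Tp

open Tp in
theorem smStmt (hE : EdgStmt) (hF : FinStmt) (hG : GoodStmt) (hC : ClsStmt) : SMStmt := by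
  classical
  intro F _ ar R hfin hrule
  letI : Fintype F := Fintype.ofFinite F
  obtain ⟨Rb, hRb, hG⟩ := hG
  obtain ⟨A, hA⟩ : ∃ A, ∀ f, ar f ≤ A :=
    ⟨Finset.univ.sup ar, fun f => Finset.le_sup (f := ar) (Finset.mem_univ f)⟩
  obtain ⟨h, hh⟩ : ∃ h, ∀ p ∈ R, IsRule p.1 p.2 ∧ Ht p.1 h ∧ Ht p.2 h := by
    refine ⟨hfin.toFinset.sup fun p => size p.1 + size p.2, fun p hp => ?_⟩
    have : size p.1 + size p.2 ≤ hfin.toFinset.sup fun p => size p.1 + size p.2 :=
      Finset.le_sup (f := fun p : Tm F ar ℕ × Tm F ar ℕ => size p.1 + size p.2)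
        (hfin.mem_toFinset.2 hp)
    exact ⟨hrule p hp, ht_size _ (by omega), ht_size _ (by omega)⟩
  refine ⟨fun k => dSeq Rb A (Fintype.card F) h k (k * k + k), cB hRb _ _ _, ?_⟩
  intro k t
  induction hs : ∑ a, size (t a) using Nat.strong_induction_on generalizing t with
  | _ N ih =>
    choose P hP using fun a b => hE F ar R (t a) (t b)
    choose Q hQ using fun a => exists_deepest (t a)
    let PP : (Fin k × Fin k) ⊕ Fin k → List ℕ := Sum.elim (fun p => P p.1 p.2) Q
    let ea : (Fin k × Fin k) ⊕ Fin k → Fin k := Sum.elim (fun p => p.1) id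
    let eb : (Fin k × Fin k) ⊕ Fin k → Fin k := Sum.elim (fun p => p.2) id
    have hcard : Fintype.card ((Fin k × Fin k) ⊕ Fin k) ≤ k * k + k := by simp
    obtain ⟨r, hr, hgap⟩ := gap (k * k + k) h hcard (fun e => (PP e).length)
      (dSeq Rb A (Fintype.card F) h k)
      (fun r => lD Rb A (Fintype.card F) h k (dSeq Rb A (Fintype.card F) h k r))
      (dSeq_mono _ _ _ _ _) (fun _ => rfl)
    have hDB := dSeq_mono Rb A (Fintype.card F) h k hr
    have hD0 : h + 2 ≤ dSeq Rb A (Fintype.card F) h k r :=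
      dSeq_mono Rb A (Fintype.card F) h k (Nat.zero_le r)
    generalize dSeq Rb A (Fintype.card F) h k r = D at hgap hDB hD0
    let E : Finset ((Fin k × Fin k) ⊕ Fin k) :=
      Finset.univ.filter fun e => lD Rb A (Fintype.card F) h k D ≤ (PP e).length
    have hmem : ∀ e, e ∈ E ↔ lD Rb A (Fintype.card F) h k D ≤ (PP e).length := fun e => by
      simp [E]
    by_cases hne : E.Nonempty
    · have hEc : E.card ≤ k * k + k := (Finset.card_le_univ E).trans hcard
      obtain ⟨K, δ, Γ0, cl, M, Wd, hW, hPD⟩ := hC F ar A k D (k * k + k)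
        (wD Rb A (Fintype.card F) h k D) t _ E ea eb PP hA (by omega) hEc hne (by
          intro e he
          refine ⟨?_, ?_, (hmem e).1 he⟩
          · cases e with
            | inl p => exact (hP p.1 p.2).agr
            | inr a => exact Agr.refl _ _
          · cases e with
            | inl p => exact (hP p.1 p.2).du
            | inr a => exact (hQ a).1)
      obtain ⟨e0, -⟩ := hne
      obtain ⟨i, j, hij, hj, hgood⟩ := hG F ar A h k D (k * (A + 1) ^ D) M K t δ Γ0 cl Wd
        (t (ea e0)) hA hW fun i j hij hj => (hPD i j hij hj).1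
      obtain ⟨f1, f2, f3⟩ := hF F ar R h k D (k * (A + 1) ^ D) K t δ Γ0 cl (Wd i) (Wd j)
        (t (ea e0)) P hh (hPD i j hij hj).1 hP (fun a b => by
          rcases hgap (Sum.inl (a, b)) with h1 | h1
          · exact Or.inl h1
          · exact Or.inr ((hPD i j hij hj).2 (Sum.inl (a, b)) ((hmem _).2 h1))) hgood
      obtain ⟨t', g1, g2, g3⟩ := ih _ (hs ▸ f3) _ rfl
      exact ⟨t', g1, fun a b => (f1 a b).trans (g2 a b), fun a b => (f2 a b).trans (g3 a b)⟩
    · refine ⟨t, fun a p u hp => ?_, fun _ _ => Iff.rfl, fun _ _ => Iff.rfl⟩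
      have h1 := (hQ a).2 p u hp
      rcases hgap (Sum.inr a) with h2 | h2
      · have h3 : (Q a).length + h + 1 < D := h2
        show p.length ≤ dSeq Rb A (Fintype.card F) h k (k * k + k)
        omega
      · exact absurd ⟨Sum.inr a, (hmem _).2 h2⟩ hne

end Pool.Agent.Lib.MP_342291_lc.E
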