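import Pool.Agent.Lib.MP_342291_lc.E.Cls0

/-!
Assembly of the small model property from the blocks.
-/

namespace Pool.Agent.Lib.MP_342291_lc.E

namespace T43

section comp

variable {α : Type} [Primcodable α]

theorem cadd {f g : α → ℕ} (hf : Computable f) (hg : Computable g) :
    Computable fun a => f a + g a := Primrec.nat_add.to_comp.comp hf hg

theorem cmul {f g : α → ℕ} (hf : Computable f) (hg : Computable g) :
    Computable fun a => f a * g a := Primrec.nat_mul.to_comp.comp hf hg

theorem cpow {f g : α → ℕ} (hf : Computable f) (hg : Computable g) :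
    Computable fun a => f a ^ g a :=
  (Primrec₂.unpaired'.1 Nat.Primrec.pow).to_comp.comp hf hg

theorem ciapar (A σ h : ℕ) {k n M : α → ℕ} (hk : Computable k) (hn : Computable n)
    (hM : Computable M) : Computable fun a => aPar (k a) A σ h (n a) (M a) := by
  have c := fun x : ℕ => Computable.const (α := α) x
  have h1 := cmul hk (cpow (c (A + 1)) (cadd hn (c h)))
  exact cadd (cadd (cadd h1 (cpow (c (σ + 1)) h1)) (cmul (c 2) hk))
    (cmul (c (2 * (A + 1))) (cadd (cadd (cadd (cmul (c 2) hn) (cmul hM hn)) (c 1)) (c h)))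

theorem cmseq {D r : α → ℕ} {w : α → ℕ → ℕ} (hD : Computable D) (hr : Computable r)
    (hw : Computable₂ w) : Computable fun a => mSeq (D a) (w a) (r a) := by
  have h1 : Computable₂ fun (a : α) (q : ℕ × ℕ) => q.2 + w a q.2 + 2 :=
    (cadd (cadd (Computable.snd.comp Computable.snd)
      (hw.comp Computable.fst (Computable.snd.comp Computable.snd))) (Computable.const 2)).to₂
  refine (Computable.nat_rec hr hD h1).of_eq fun a => ?_
  induction r a with
  | zero => rfl
  | succ y ih => simp only [mSeq, ← ih]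

theorem clpar {n m D : α → ℕ} {w : α → ℕ → ℕ} (hn : Computable n) (hm : Computable m)
    (hD : Computable D) (hw : Computable₂ w) :
    Computable fun a => lPar (n a) (m a) (D a) (w a) := by
  have c := fun x : ℕ => Computable.const (α := α) x
  have h1 := cadd (cadd (cpow hn (c 2)) (cmul (c 3) hn)) (c 2)
  have h2 := cadd (cmul hm h1) (c 1)
  exact cadd (cadd h1 (cmul h2 (cadd (cmul (c 2) hn) (c 1))))
    (cmul (cadd (cmseq hD h2 hw) (c 2)) (cadd hn (c 1)))

end comp

/-- The threshold for long edges at depth `D`. -/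
def lv (Rb : ℕ → ℕ) (A σ h k D : ℕ) : ℕ :=
  lPar (k * (A + 1) ^ D) (k * k + 1) D fun M => Rb (aPar k A σ h (k * (A + 1) ^ D) M)

/-- The successive depths. -/
def ds (Rb : ℕ → ℕ) (A σ h k : ℕ) : ℕ → ℕ
  | 0 => 1
  | r + 1 => lv Rb A σ h k (ds Rb A σ h k r) + h + 1

theorem clv {Rb : ℕ → ℕ} (hR : Computable Rb) (A σ h : ℕ) : Computable₂ (lv Rb A σ h) := by
  have hn : Computable fun a : ℕ × ℕ => a.1 * (A + 1) ^ a.2 :=
    cmul Computable.fst (cpow (Computable.const _) Computable.snd)
  exact clpar hn (cadd (cmul Computable.fst Computable.fst) (Computable.const 1)) Computable.snd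
    (hR.comp (ciapar A σ h (Computable.fst.comp Computable.fst) (hn.comp Computable.fst)
      Computable.snd)).to₂

theorem cds {Rb : ℕ → ℕ} (hR : Computable Rb) (A σ h : ℕ) :
    Computable fun k => ds Rb A σ h k (k * k + 1) := by
  have h1 : Computable₂ fun (k : ℕ) (q : ℕ × ℕ) => lv Rb A σ h k q.2 + h + 1 :=
    (cadd (cadd ((clv hR A σ h).comp Computable.fst (Computable.snd.comp Computable.snd))
      (Computable.const h)) (Computable.const 1)).to₂
  have h2 : Computable fun k : ℕ => k * k + 1 :=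
    cadd (cmul Computable.id Computable.id) (Computable.const 1)
  refine (Computable.nat_rec h2 (Computable.const 1) h1).of_eq fun k => ?_
  induction k * k + 1 with
  | zero => rfl
  | succ y ih => simp only [ds, ← ih]

theorem le_mseq (D : ℕ) (w : ℕ → ℕ) (r : ℕ) : D ≤ mSeq D w r := by
  induction r with
  | zero => exact le_rfl
  | succ r ih => simp only [mSeq]; omega

theorem le_lpar (n m D : ℕ) (w : ℕ → ℕ) : D ≤ lPar n m D w := by
  have h1 := le_mseq D w (m * (n ^ 2 + 3 * n + 2) + 1)
  have h2 := Nat.le_mul_of_pos_right (mSeq D w (m * (n ^ 2 + 3 * n + 2) + 1) + 2) (Nat.succ_pos n)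
  unfold lPar
  simp only [Nat.succ_eq_add_one] at h2
  omega

theorem ds_mono (Rb : ℕ → ℕ) (A σ h k : ℕ) : Monotone (ds Rb A σ h k) :=
  monotone_nat_of_le_succ fun r => by
    have := le_lpar (k * (A + 1) ^ ds Rb A σ h k r) (k * k + 1) (ds Rb A σ h k r)
      fun M => Rb (aPar k A σ h (k * (A + 1) ^ ds Rb A σ h k r) M)
    simp only [ds, lv]
    omega

/-- Some level separates a short list of numbers. -/
theorem gap {d : ℕ → ℕ} (hd : Monotone d) {ι : Type} [Fintype ι] (x : ι → ℕ) :
    ∃ r ≤ Fintype.card ι, ∀ e, x e < d r ∨ d (r + 1) ≤ x e := by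
  by_contra hc
  push Not at hc
  have h1 : ∀ r : Fin (Fintype.card ι + 1), ∃ e, d r ≤ x e ∧ x e < d (r + 1) :=
    fun r => hc r (by omega)
  choose f hf using h1
  obtain ⟨i, j, hne, he⟩ := Fintype.exists_ne_map_eq_of_card_lt f (by simp)
  have hi := hf i
  have hj := hf j
  rw [he] at hi
  rcases lt_or_gt_of_ne hne with hl | hl
  · have := hd (show (i : ℕ) + 1 ≤ j from hl); omega
  · have := hd (show (j : ℕ) + 1 ≤ i from hl); omega

theorem ht_size {F : Type} {ar : F → ℕ} {V : Type} (t : Tm F ar V) : Ht t (size t) :=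
  fun p u hu => by
    have := size_sub_le hu
    omega

end T43

open T43 in
theorem smStmt43 (hE : EdgStmt) (hF : FinStmt) (hG : GoodStmt) (hC : ClsStmt) : SMStmt := by
  intro F _ ar R hfin hrule
  classical
  let _ := Fintype.ofFinite F
  obtain ⟨Rb, hR, hG⟩ := hG
  obtain ⟨A, hA⟩ : ∃ A, ∀ f, ar f ≤ A :=
    ⟨Finset.univ.sup ar, fun f => Finset.le_sup (Finset.mem_univ f)⟩
  obtain ⟨h, hh⟩ : ∃ h, ∀ p ∈ R, IsRule p.1 p.2 ∧ Ht p.1 h ∧ Ht p.2 h := by
    refine ⟨hfin.toFinset.sup fun p => size p.1 + size p.2, fun p hp => ?_⟩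
    have h1 := Finset.le_sup (f := fun p : Tm F ar ℕ × Tm F ar ℕ => size p.1 + size p.2)
      (hfin.mem_toFinset.2 hp)
    exact ⟨hrule p hp, fun q u hu => by have := ht_size p.1 q u hu; omega,
      fun q u hu => by have := ht_size p.2 q u hu; omega⟩
  refine ⟨_, cds hR A (Fintype.card F) h, fun k => ?_⟩
  set d := ds Rb A (Fintype.card F) h k with hd
  have key : ∀ (s : ℕ) (t : Fin k → GT F ar), ∑ a, size (t a) < s → ∃ t' : Fin k → GT F ar,
      (∀ a, Ht (t' a) (d (k * k + 1))) ∧ (∀ a b, t a = t b ↔ t' a = t' b) ∧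
      ∀ a b, Step R (t a) (t b) ↔ Step R (t' a) (t' b) := by
    intro s
    induction s with
    | zero => intro t ht; omega
    | succ s ih =>
      intro t ht
      by_cases hs : ∀ a, Ht (t a) (d (k * k + 1))
      · exact ⟨t, hs, fun _ _ => Iff.rfl, fun _ _ => Iff.rfl⟩
      simp only [Ht, not_forall] at hs
      obtain ⟨a0, p0, u0, hu0, hp0⟩ := hs
      choose P hP using fun a b => hE F ar R (t a) (t b)
      obtain ⟨r, hr, hgap⟩ := gap (ds_mono Rb A (Fintype.card F) h k)
        fun e : Fin k × Fin k => (P e.1 e.2).length + h + 1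
      rw [← hd] at hgap
      have hr' : d (r + 1) ≤ d (k * k + 1) := ds_mono _ _ _ _ _ (by simpa using hr)
      have hD : 0 < d r := ds_mono Rb A (Fintype.card F) h k (Nat.zero_le r)
      have hs1 : d (r + 1) = lv Rb A (Fintype.card F) h k (d r) + h + 1 := rfl
      let ea : Option (Fin k × Fin k) → Fin k := fun e => e.elim a0 Prod.fst
      let eb : Option (Fin k × Fin k) → Fin k := fun e => e.elim a0 Prod.snd
      let Q : Option (Fin k × Fin k) → List ℕ := fun e => e.elim p0 fun e => P e.1 e.2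
      let E : Finset (Option (Fin k × Fin k)) :=
        Finset.univ.filter fun e => lv Rb A (Fintype.card F) h k (d r) ≤ (Q e).length
      have hEm : ∀ e, e ∈ E ↔ lv Rb A (Fintype.card F) h k (d r) ≤ (Q e).length :=
        fun e => by simp [E]
      obtain ⟨K, δ, Γ0, cl, M, Wd, hW, hPD⟩ := hC F ar A k (d r) (k * k + 1)
        (fun M => Rb (aPar k A (Fintype.card F) h (k * (A + 1) ^ d r) M)) t _ E ea eb Q hA hD
        ((Finset.card_le_univ E).trans (by simp))
        ⟨none, (hEm none).2 (by show _ ≤ p0.length; omega)⟩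
        (fun e he => by
          refine ⟨?_, ?_, (hEm e).1 he⟩
          · cases e with
            | none => exact Agr.refl _ _
            | some e => exact (hP e.1 e.2).agr
          · cases e with
            | none => exact ⟨u0, hu0⟩
            | some e => exact (hP e.1 e.2).du)
      obtain ⟨i, j, hij, hj, hgood⟩ := hG F ar A h k (d r) (k * (A + 1) ^ d r) M K t δ Γ0 cl Wd
        (t a0) hA hW fun i j hij hj => (hPD i j hij hj).1
      obtain ⟨h1, h2, h3⟩ := hF F ar R h k (d r) (k * (A + 1) ^ d r) K t δ Γ0 cl (Wd i) (Wd j)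
        (t a0) P hh (hPD i j hij hj).1 hP (fun a b => by
          rcases hgap (a, b) with h1 | h1
          · exact Or.inl h1
          · exact Or.inr ((hPD i j hij hj).2 (some (a, b))
              ((hEm _).2 (by show _ ≤ (P a b).length; simp only at h1; omega)))) hgood
      obtain ⟨t', h4, h5, h6⟩ := ih _ (lt_of_lt_of_le h3 (by omega))
      exact ⟨t', h4, fun a b => (h1 a b).trans (h5 a b), fun a b => (h2 a b).trans (h6 a b)⟩
  exact fun t => key _ t (Nat.lt_succ_self _)

end Pool.Agent.Lib.MP_342291_lc.E
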